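import Mathlib

namespace Pool.Agent.Helper286.Unst

/-- Chains mod 2 on finite sets of natural numbers (augmented). -/
abbrev Ch := Finset ℕ →₀ ZMod 2

/-- Basis element. -/
noncomputable abbrev sg (σ : Finset ℕ) : Ch := Finsupp.single σ 1

/-- Augmented boundary. -/
noncomputable def bd : Ch →ₗ[ZMod 2] Ch :=
  Finsupp.linearCombination (ZMod 2) (fun σ : Finset ℕ => ∑ v ∈ σ, sg (σ.erase v))

/-- Cone with apex a. -/
noncomputable def cone (a : ℕ) : Ch →ₗ[ZMod 2] Ch :=
  Finsupp.linearCombination (ZMod 2)
    (fun σ : Finset ℕ => if a ∈ σ then 0 else sg (insert a σ))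

lemma ch_add_self (x : Ch) : x + x = 0 := by
  ext σ
  simp only [Finsupp.add_apply, Finsupp.coe_zero, Pi.zero_apply]
  exact CharTwo.add_self_eq_zero _

lemma bd_sg (σ : Finset ℕ) : bd (sg σ) = ∑ v ∈ σ, sg (σ.erase v) := by
  simp [bd, sg]

lemma cone_sg (a : ℕ) (σ : Finset ℕ) :
    cone a (sg σ) = if a ∈ σ then 0 else sg (insert a σ) := by
  simp [cone, sg]

lemma bd_cone (a : ℕ) (x : Ch) : bd (cone a x) = x + cone a (bd x) := by
  have key : ∀ σ : Finset ℕ, bd (cone a (sg σ)) = sg σ + cone a (bd (sg σ)) := by
    intro σ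
    by_cases h : a ∈ σ
    · rw [cone_sg, if_pos h, bd_sg, map_zero, map_sum]
      rw [Finset.sum_eq_single a]
      · rw [cone_sg, if_neg (by simp), Finset.insert_erase h, ch_add_self]
      · intro b hb hba
        rw [cone_sg, if_pos]
        rw [Finset.mem_erase]
        exact ⟨fun h' => hba h'.symm, h⟩
      · intro h'
        exact absurd h h'
    · rw [cone_sg, if_neg h, bd_sg, bd_sg, Finset.sum_insert h, Finset.erase_insert h, map_sum]
      congr 1
      refine Finset.sum_congr rfl fun b hb => ?_
      have hba : b ≠ a := fun h' => h (h' ▸ hb)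
      rw [cone_sg, if_neg (fun h' => h (Finset.mem_of_mem_erase h'))]
      congr 1
      rw [Finset.erase_insert_of_ne hba.symm]
  induction x using Finsupp.induction_linear with
  | zero => simp
  | add f g hf hg => simp only [map_add, hf, hg]; abel
  | single σ c =>
    have : (Finsupp.single σ c : Ch) = c • sg σ := by simp [sg]
    rw [this, map_smul, map_smul, key, map_smul, map_smul, smul_add]

lemma cone_cone (a : ℕ) (x : Ch) : cone a (cone a x) = 0 := by
  have key : ∀ σ : Finset ℕ, cone a (cone a (sg σ)) = 0 := by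
    intro σ
    by_cases h : a ∈ σ
    · rw [cone_sg, if_pos h, map_zero]
    · rw [cone_sg, if_neg h, cone_sg, if_pos (Finset.mem_insert_self _ _)]
  induction x using Finsupp.induction_linear with
  | zero => simp
  | add f g hf hg => simp only [map_add, hf, hg]; abel
  | single σ c =>
    have : (Finsupp.single σ c : Ch) = c • sg σ := by simp [sg]
    rw [this, map_smul, map_smul, key, smul_zero]

lemma bd_bd (x : Ch) : bd (bd x) = 0 := by
  have key : ∀ σ : Finset ℕ, bd (bd (sg σ)) = 0 := by
    intro σ
    induction σ using Finset.induction_on with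
    | empty => simp [bd_sg]
    | insert a σ h ih =>
      have h1 : sg (insert a σ) = cone a (sg σ) := by rw [cone_sg, if_neg h]
      rw [h1, bd_cone, map_add, bd_cone, ih, map_zero, add_zero, ch_add_self]
  induction x using Finsupp.induction_linear with
  | zero => simp
  | add f g hf hg => simp only [map_add, hf, hg]; abel
  | single σ c =>
    have : (Finsupp.single σ c : Ch) = c • sg σ := by simp [sg]
    rw [this, map_smul, map_smul, key, smul_zero]

lemma bd_sg_empty : bd (sg ∅) = 0 := by rw [bd_sg]; simp

end Pool.Agent.Helper286.Unst
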