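import Pool.Agent.Helper286.Unst.BarDefs


namespace Pool.Agent.Helper286.Unst

/-- every non maximal vertex is at most `k` -/
def Gd (k : ℕ) (σ : Finset ℕ) : Prop := ∀ m ∈ σ, ∀ n ∈ σ, m < n → m < k + 1

lemma lin_ext_supp {M : Type*} [AddCommGroup M] [Module (ZMod 2) M] (F1 F2 : Ch →ₗ[ZMod 2] M)
    (S : Finset ℕ → Prop) (h : ∀ σ, S σ → F1 (sg σ) = F2 (sg σ)) (x : Ch)
    (hx : ∀ σ ∈ x.support, S σ) : F1 x = F2 x := by
  have e : x = ∑ σ ∈ x.support, x σ • sg σ := by
    conv_lhs => rw [← Finsupp.sum_single x]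
    rw [Finsupp.sum]
    refine Finset.sum_congr rfl fun σ _ => ?_
    simp [sg]
  rw [e, map_sum, map_sum]
  refine Finset.sum_congr rfl fun σ hσ => ?_
  rw [map_smul, map_smul, h σ (hx σ hσ)]

/-- the part of a chain on the simplices without a pair `k, n` with `n > k` -/
noncomputable def PP (k : ℕ) : Ch →ₗ[ZMod 2] Ch where
  toFun x := x.filter (fun σ => ¬ (k ∈ σ ∧ ∃ n ∈ σ, k < n))
  map_add' _ _ := Finsupp.filter_add
  map_smul' _ _ := Finsupp.filter_smul

lemma PP_bad {k : ℕ} {σ : Finset ℕ} (h : k ∈ σ ∧ ∃ n ∈ σ, k < n) : PP k (sg σ) = 0 := by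
  show Finsupp.filter _ (Finsupp.single σ 1) = 0
  exact Finsupp.filter_single_of_neg _ (not_not.2 h)

lemma PP_good {k : ℕ} {σ : Finset ℕ} (h : ¬ (k ∈ σ ∧ ∃ n ∈ σ, k < n)) : PP k (sg σ) = sg σ := by
  show Finsupp.filter _ (Finsupp.single σ 1) = _
  exact Finsupp.filter_single_of_pos _ h

/-- the sequence of coefficients on `τ + {k, n}` -/
noncomputable def BF (k : ℕ) (τ : Finset ℕ) : Ch →ₗ[ZMod 2] (ℕ → ZMod 2) where
  toFun x := fun n => if k < n then x (insert k (insert n τ)) else 0
  map_add' x y := by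
    funext n
    simp only [Pi.add_apply]
    split_ifs
    · rfl
    · rw [add_zero]
  map_smul' c x := by
    funext n
    simp only [Pi.smul_apply, RingHom.id_apply]
    split_ifs
    · rfl
    · rw [smul_zero]

/-- finite sums -/
noncomputable def sL (k : ℕ) (τ : Finset ℕ) : (ℕ → Ch) →ₗ[ZMod 2] (ℕ → ZMod 2) where
  toFun w := fun n => if k < n then
    ∑ N ∈ Finset.range (n + 1), (w N) (insert k (insert n τ)) else 0
  map_add' x y := by
    funext n
    simp only [Pi.add_apply]
    split_ifs
    · rw [← Finset.sum_add_distrib]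
      rfl
    · rw [add_zero]
  map_smul' c x := by
    funext n
    simp only [Pi.smul_apply, RingHom.id_apply]
    split_ifs
    · rw [Finset.smul_sum]
      rfl
    · rw [smul_zero]

/-- the suspension terms -/
noncomputable def QL (k : ℕ) : (ℕ → Ch) →ₗ[ZMod 2] Ch :=
  ∑ τ ∈ (Finset.range k).powerset, (cyl k τ) ∘ₗ rho ∘ₗ (sL k τ)

lemma QL_apply (k : ℕ) (w : ℕ → Ch) :
    QL k w = ∑ τ ∈ (Finset.range k).powerset, cyl k τ (rho (sL k τ w)) := by
  unfold QL
  rw [LinearMap.sum_apply]
  rfl

/-- the correction term -/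
noncomputable def RL (k : ℕ) : Ch →ₗ[ZMod 2] Ch :=
  ∑ τ ∈ (Finset.range k).powerset, (cyl k τ) ∘ₗ rho ∘ₗ (BF k τ)

lemma RL_apply (k : ℕ) (x : Ch) :
    RL k x = ∑ τ ∈ (Finset.range k).powerset, cyl k τ (rho (BF k τ x)) := by
  unfold RL
  rw [LinearMap.sum_apply]
  rfl

lemma col_eq (k : ℕ) (y : ℕ → Finset ℕ → Ch) (J : Finset ℕ) :
    col k y J = PP k (y 0 J) + QL k (fun N => y N (insert k J)) := by
  rw [QL_apply]
  rfl

lemma cyl_single (k : ℕ) (τ : Finset ℕ) {n : ℕ} (h : k < n) :
    cyl k τ (Finsupp.single n 1) = sg (insert n τ) + sg (insert k τ) := by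
  unfold cyl
  rw [Finsupp.linearCombination_single, one_smul, if_pos h]

lemma cyl_single_not (k : ℕ) (τ : Finset ℕ) {n : ℕ} (h : ¬ k < n) :
    cyl k τ (Finsupp.single n 1) = 0 := by
  unfold cyl
  rw [Finsupp.linearCombination_single, one_smul, if_neg h]

lemma bd_sg_insert {a : ℕ} {τ : Finset ℕ} (h : a ∉ τ) :
    bd (sg (insert a τ)) = sg τ + ∑ v ∈ τ, sg (insert a (τ.erase v)) := by
  rw [bd_sg, Finset.sum_insert h, Finset.erase_insert h]
  congr 1
  refine Finset.sum_congr rfl fun v hv => ?_
  have hav : a ≠ v := by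
    rintro rfl
    exact h hv
  rw [Finset.erase_insert_of_ne hav]

lemma bd_cyl (k : ℕ) {τ : Finset ℕ} (hτ : τ ⊆ Finset.range k) (f : ℕ →₀ ZMod 2) :
    bd (cyl k τ f) = ∑ v ∈ τ, cyl k (τ.erase v) f := by
  have hk : k ∉ τ := fun h => by simpa using hτ h
  have key : ∀ n : ℕ, bd (cyl k τ (Finsupp.single n 1)) =
      ∑ v ∈ τ, cyl k (τ.erase v) (Finsupp.single n 1) := by
    intro n
    by_cases hn : k < n
    · have hn' : n ∉ τ := fun h => by
        have := hτ h
        rw [Finset.mem_range] at this
        omega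
      rw [cyl_single k τ hn, map_add, bd_sg_insert hn', bd_sg_insert hk]
      have e : ∀ v ∈ τ, cyl k (τ.erase v) (Finsupp.single n 1) =
          sg (insert n (τ.erase v)) + sg (insert k (τ.erase v)) := fun v _ => cyl_single k _ hn
      rw [Finset.sum_congr rfl e, Finset.sum_add_distrib]
      have e2 := ch_add_self (sg τ)
      calc sg τ + ∑ v ∈ τ, sg (insert n (τ.erase v)) + (sg τ + ∑ v ∈ τ, sg (insert k (τ.erase v)))
          = (sg τ + sg τ) + (∑ v ∈ τ, sg (insert n (τ.erase v)) +
            ∑ v ∈ τ, sg (insert k (τ.erase v))) := by abel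
        _ = _ := by rw [e2, zero_add]
    · rw [cyl_single_not k τ hn, map_zero]
      rw [Finset.sum_congr rfl (fun v _ => cyl_single_not k (τ.erase v) hn), Finset.sum_const_zero]
  induction f using Finsupp.induction_linear with
  | zero => simp
  | add f g hf hg => simp only [map_add, hf, hg, Finset.sum_add_distrib]
  | single n a =>
    have e : (Finsupp.single n a : ℕ →₀ ZMod 2) = a • Finsupp.single n 1 := by simp
    rw [e, map_smul, map_smul, key, Finset.smul_sum]
    refine Finset.sum_congr rfl fun v _ => ?_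
    rw [map_smul]

lemma mem_of_eq_ins {k n : ℕ} {σ τ : Finset ℕ} (h : σ = insert k (insert n τ)) : k ∈ σ ∧ n ∈ σ := by
  rw [h]; simp

/-- claim 1 on basis elements -/
lemma one_sg (k : ℕ) (σ : Finset ℕ) (h : Gd k σ) :
    bd (PP k (sg σ)) + PP k (bd (sg σ)) = RL k (sg σ) := by
  rw [RL_apply]
  by_cases hb : k ∈ σ ∧ ∃ n ∈ σ, k < n
  · obtain ⟨hk, n, hn, hkn⟩ := hb
    have huniq : ∀ m ∈ σ, k < m → m = n := by
      intro m hm hkm
      rcases lt_trichotomy m n with h1 | h1 | h1
      · have := h m hm n hn h1; omega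
      · exact h1
      · have := h n hn m hm h1; omega
    obtain ⟨τ0, hτ0⟩ : ∃ τ0, τ0 = σ.filter (fun m => m < k) := ⟨_, rfl⟩
    have hτk : k ∉ τ0 := by rw [hτ0]; simp
    have hτn : n ∉ τ0 := by rw [hτ0]; simp; omega
    have hτlt : ∀ m ∈ τ0, m < k := by rw [hτ0]; simp
    have hσ : σ = insert k (insert n τ0) := by
      ext m
      rw [hτ0]
      simp only [Finset.mem_insert, Finset.mem_filter]
      constructor
      · intro hm
        rcases lt_trichotomy m k with h1 | h1 | h1
        · exact Or.inr (Or.inr ⟨hm, h1⟩)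
        · exact Or.inl h1
        · exact Or.inr (Or.inl (huniq m hm h1))
      · rintro (rfl | rfl | h1)
        · exact hk
        · exact hn
        · exact h1.1
    rw [PP_bad ⟨hk, n, hn, hkn⟩, map_zero, zero_add]
    have hk' : k ∉ insert n τ0 := by
      rw [Finset.mem_insert, not_or]
      exact ⟨by omega, hτk⟩
    have e1 : PP k (bd (sg σ)) = sg (insert n τ0) + sg (insert k τ0) := by
      rw [bd_sg, map_sum]
      conv_lhs => rw [hσ]
      rw [Finset.sum_insert hk', Finset.sum_insert hτn, Finset.erase_insert hk']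
      have e2 : (insert k (insert n τ0)).erase n = insert k τ0 := by
        rw [Finset.erase_insert_of_ne (by omega), Finset.erase_insert hτn]
      rw [e2, PP_good (k := k) (σ := insert n τ0) (fun h' => hk' h'.1),
        PP_good (k := k) (σ := insert k τ0)]
      · have e3 : ∑ x ∈ τ0, PP k (sg ((insert k (insert n τ0)).erase x)) = 0 := by
          refine Finset.sum_eq_zero fun v hv => PP_bad ⟨?_, n, ?_, hkn⟩
          · rw [Finset.mem_erase]
            exact ⟨fun h' => hτk (h' ▸ hv), Finset.mem_insert_self _ _⟩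
          · rw [Finset.mem_erase]
            exact ⟨fun h' => hτn (h' ▸ hv), by simp⟩
        rw [e3, add_zero]
      · rintro ⟨-, m, hm, hkm⟩
        rw [Finset.mem_insert] at hm
        rcases hm with rfl | hm
        · exact lt_irrefl _ hkm
        · have := hτlt m hm; omega
    rw [e1, Finset.sum_eq_single τ0]
    · have e4 : BF k τ0 (sg σ) = ((Finsupp.single n 1 : ℕ →₀ ZMod 2) : ℕ → ZMod 2) := by
        funext m
        show (if k < m then (sg σ) (insert k (insert m τ0)) else 0) = _
        by_cases hmn : m = n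
        · subst hmn
          rw [if_pos hkn, ← hσ, Finsupp.single_eq_same, Finsupp.single_eq_same]
        · rw [Finsupp.single_eq_of_ne hmn]
          by_cases hkm : k < m
          · rw [if_pos hkm, Finsupp.single_eq_of_ne]
            intro h'
            exact hmn (huniq m (mem_of_eq_ins h'.symm).2 hkm)
          · rw [if_neg hkm]
      rw [e4, rho_coe, cyl_single k τ0 hkn]
    · intro τ hτ hne
      have e5 : BF k τ (sg σ) = 0 := by
        funext m
        show (if k < m then (sg σ) (insert k (insert m τ)) else 0) = 0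
        by_cases hkm : k < m
        · rw [if_pos hkm, Finsupp.single_eq_of_ne]
          intro h'
          apply hne
          rw [Finset.mem_powerset] at hτ
          ext u
          rw [hτ0, Finset.mem_filter, ← h']
          simp only [Finset.mem_insert]
          constructor
          · intro hu
            exact ⟨Or.inr (Or.inr hu), by simpa using hτ hu⟩
          · rintro ⟨rfl | rfl | hu, hu2⟩
            · exact absurd hu2 (lt_irrefl _)
            · omega
            · exact hu
        · rw [if_neg hkm]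
      rw [e5, map_zero, map_zero]
    · intro h'
      exfalso
      apply h'
      rw [Finset.mem_powerset]
      intro m hm
      rw [Finset.mem_range]
      exact hτlt m hm
  · have e1 : PP k (bd (sg σ)) = bd (sg σ) := by
      rw [bd_sg, map_sum]
      refine Finset.sum_congr rfl fun v _ => PP_good ?_
      rintro ⟨h1, m, h2, h3⟩
      exact hb ⟨Finset.mem_of_mem_erase h1, m, Finset.mem_of_mem_erase h2, h3⟩
    rw [PP_good hb, e1, ch_add_self]
    symm
    refine Finset.sum_eq_zero fun τ _ => ?_
    have e5 : BF k τ (sg σ) = 0 := by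
      funext m
      show (if k < m then (sg σ) (insert k (insert m τ)) else 0) = 0
      by_cases hkm : k < m
      · rw [if_pos hkm, Finsupp.single_eq_of_ne]
        intro h'
        have := mem_of_eq_ins h'.symm
        exact hb ⟨this.1, m, this.2, hkm⟩
      · rw [if_neg hkm]
    rw [e5, map_zero, map_zero]

/-- claim 1 -/
lemma claim1 (k : ℕ) (x : Ch) (hx : ∀ σ ∈ x.support, Gd k σ) :
    bd (PP k x) + PP k (bd x) = RL k x :=
  lin_ext_supp (bd ∘ₗ PP k + PP k ∘ₗ bd) (RL k) (Gd k) (fun σ h => one_sg k σ h) x hx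

lemma tele (f : ℕ → ZMod 2) (m : ℕ) :
    ∑ N ∈ Finset.range m, (f (N + 1) + f N) = f m + f 0 := by
  induction m with
  | zero => simp [CharTwo.add_self_eq_zero]
  | succ m ih =>
    rw [Finset.sum_range_succ, ih]
    have := CharTwo.add_self_eq_zero (f m)
    linear_combination this

/-- claim 2 -/
lemma claim2 (k : ℕ) (x : ℕ → Ch)
    (hx : ∀ n, k < n → ∀ τ, (x (n + 1)) (insert k (insert n τ)) = 0) :
    QL k (fun N => x (N + 1) + x N) = RL k (x 0) := by
  rw [QL_apply, RL_apply]
  refine Finset.sum_congr rfl fun τ _ => ?_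
  congr 2
  funext n
  show (if k < n then ∑ N ∈ Finset.range (n + 1), (x (N + 1) + x N) (insert k (insert n τ)) else 0) =
    (if k < n then (x 0) (insert k (insert n τ)) else 0)
  split_ifs with hn
  · have h1 := tele (fun N => (x N) (insert k (insert n τ))) (n + 1)
    simp only [Finsupp.add_apply]
    rw [h1, hx n hn, zero_add]
  · rfl

/-- coefficient formula on basis elements -/
lemma coef_sg (k n : ℕ) (hkn : k < n) (τ : Finset ℕ) (hτ : τ ⊆ Finset.range k) (ρ : Finset ℕ)
    (h : Gd k ρ) :
    (bd (sg ρ)) (insert k (insert n τ)) =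
      ∑ v ∈ Finset.range k \ τ, (sg ρ) (insert k (insert n (insert v τ))) := by
  have hkτ : k ∉ τ := fun h' => by simpa using hτ h'
  have hnτ : n ∉ τ := fun h' => by
    have := hτ h'
    rw [Finset.mem_range] at this
    omega
  have e1 : (bd (sg ρ)) (insert k (insert n τ)) =
      ∑ u ∈ ρ, if ρ.erase u = insert k (insert n τ) then (1 : ZMod 2) else 0 := by
    rw [bd_sg, Finsupp.finsetSum_apply]
    refine Finset.sum_congr rfl fun u _ => ?_
    rw [Finsupp.single_apply]
  have e2 : ∑ v ∈ Finset.range k \ τ, (sg ρ) (insert k (insert n (insert v τ))) =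
      ∑ v ∈ Finset.range k \ τ,
        if ρ = insert k (insert n (insert v τ)) then (1 : ZMod 2) else 0 := by
    refine Finset.sum_congr rfl fun u _ => ?_
    rw [Finsupp.single_apply]
  rw [e1, e2, ← Finset.sum_filter, ← Finset.sum_filter]
  refine Finset.sum_congr ?_ fun _ _ => rfl
  ext u
  simp only [Finset.mem_filter, Finset.mem_sdiff, Finset.mem_range]
  have hcomm : insert k (insert n (insert u τ)) = insert u (insert k (insert n τ)) := by
    ext m
    simp only [Finset.mem_insert]
    tauto
  rw [hcomm]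
  constructor
  · rintro ⟨hu, he⟩
    have hu0 : u ∉ insert k (insert n τ) := by
      rw [← he]; simp
    have hρ : ρ = insert u (insert k (insert n τ)) := by
      rw [← he, Finset.insert_erase hu]
    have hu1 : u ≠ k := fun h' => hu0 (by rw [h']; simp)
    have hu2 : u ≠ n := fun h' => hu0 (by rw [h']; simp)
    have hu3 : u ∉ τ := fun h' => hu0 (by simp [h'])
    have hnρ : n ∈ ρ := by rw [hρ]; simp
    refine ⟨⟨?_, hu3⟩, hρ⟩
    by_contra hge
    rcases lt_or_gt_of_ne hu2 with h1 | h1
    · have := h u hu n hnρ h1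
      omega
    · have := h n hnρ u hu h1
      omega
  · rintro ⟨⟨hu1, hu2⟩, hρ⟩
    have hu0 : u ∉ insert k (insert n τ) := by
      simp only [Finset.mem_insert, not_or]
      exact ⟨by omega, by omega, hu2⟩
    refine ⟨by rw [hρ]; simp, ?_⟩
    rw [hρ, Finset.erase_insert hu0]

lemma coef (k n : ℕ) (hkn : k < n) (τ : Finset ℕ) (hτ : τ ⊆ Finset.range k) (x : Ch)
    (hx : ∀ σ ∈ x.support, Gd k σ) :
    (bd x) (insert k (insert n τ)) =
      ∑ v ∈ Finset.range k \ τ, x (insert k (insert n (insert v τ))) := by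
  have h1 := lin_ext_supp (M := ZMod 2)
    ((Finsupp.lapply (insert k (insert n τ)) : Ch →ₗ[ZMod 2] ZMod 2) ∘ₗ bd)
    (∑ v ∈ Finset.range k \ τ,
      (Finsupp.lapply (insert k (insert n (insert v τ))) : Ch →ₗ[ZMod 2] ZMod 2))
    (Gd k) (fun ρ h => by
      rw [LinearMap.sum_apply]
      exact coef_sg k n hkn τ hτ ρ h) x hx
  rw [LinearMap.sum_apply] at h1
  exact h1

/-- claim 3 -/
lemma claim3 (k : ℕ) (w : ℕ → Ch) (hw : ∀ N, ∀ σ ∈ (w N).support, Gd k σ) :
    bd (QL k w) = QL k (fun N => bd (w N)) := by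
  rw [QL_apply, QL_apply, map_sum]
  have e1 : ∀ τ ∈ (Finset.range k).powerset, bd (cyl k τ (rho (sL k τ w))) =
      ∑ v ∈ τ, cyl k (τ.erase v) (rho (sL k τ w)) := by
    intro τ hτ
    rw [Finset.mem_powerset] at hτ
    exact bd_cyl k hτ _
  have e2 : ∀ τ ∈ (Finset.range k).powerset, cyl k τ (rho (sL k τ (fun N => bd (w N)))) =
      ∑ v ∈ Finset.range k \ τ, cyl k τ (rho (sL k (insert v τ) w)) := by
    intro τ hτ
    rw [Finset.mem_powerset] at hτ
    have e3 : sL k τ (fun N => bd (w N)) = ∑ v ∈ Finset.range k \ τ, sL k (insert v τ) w := by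
      funext n
      rw [Finset.sum_apply]
      show (if k < n then ∑ N ∈ Finset.range (n + 1), (bd (w N)) (insert k (insert n τ)) else 0) =
        ∑ v ∈ Finset.range k \ τ, (if k < n then
          ∑ N ∈ Finset.range (n + 1), (w N) (insert k (insert n (insert v τ))) else 0)
      split_ifs with hn
      · rw [Finset.sum_comm]
        refine Finset.sum_congr rfl fun N _ => ?_
        exact coef k n hn τ hτ (w N) (hw N)
      · rw [Finset.sum_const_zero]
    rw [e3, map_sum, map_sum]
  rw [Finset.sum_congr rfl e1, Finset.sum_congr rfl e2, Finset.sum_sigma', Finset.sum_sigma']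
  refine Finset.sum_bij' (fun p _ => (⟨p.1.erase p.2, p.2⟩ : (_ : Finset ℕ) × ℕ))
    (fun p _ => (⟨insert p.2 p.1, p.2⟩ : (_ : Finset ℕ) × ℕ)) ?_ ?_ ?_ ?_ ?_
  · rintro ⟨τ, v⟩ hp
    simp only [Finset.mem_sigma, Finset.mem_powerset, Finset.mem_sdiff] at hp ⊢
    exact ⟨(Finset.erase_subset _ _).trans hp.1, hp.1 hp.2, by simp⟩
  · rintro ⟨τ, v⟩ hp
    simp only [Finset.mem_sigma, Finset.mem_powerset, Finset.mem_sdiff] at hp ⊢
    exact ⟨Finset.insert_subset hp.2.1 hp.1, Finset.mem_insert_self _ _⟩
  · rintro ⟨τ, v⟩ hp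
    simp only [Finset.mem_sigma, Finset.mem_powerset] at hp
    simp only [Finset.insert_erase hp.2]
  · rintro ⟨τ, v⟩ hp
    simp only [Finset.mem_sigma, Finset.mem_powerset, Finset.mem_sdiff] at hp
    simp only [Finset.erase_insert hp.2.2]
  · rintro ⟨τ, v⟩ hp
    simp only [Finset.mem_sigma, Finset.mem_powerset] at hp
    simp only [Finset.insert_erase hp.2]

/-- TARGET A: the collapse preserves the chain equation. -/
theorem col_CE (k : ℕ) (hk : 2 ≤ k) (z z' : (ℕ → ℕ) → Finset ℕ → Ch)
    (hz' : ∀ c J, J ⊆ Finset.range k → 0 ∉ J →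
      z' c J = col k (fun N J => z (Function.update c k N) J) J)
    (hsup : ∀ c J, J ⊆ Finset.range (k + 1) → 0 ∉ J →
      ∀ σ ∈ (z c J).support, Adm (k + 1) c J σ)
    (c : ℕ → ℕ)
    (hCE : ∀ N J, J ⊆ Finset.range (k + 1) → 0 ∉ J → CE z (Function.update c k N) J)
    (J : Finset ℕ) (hJ : J ⊆ Finset.range k) (h0 : 0 ∉ J) :
    CE z' c J := by
  have hkJ : k ∉ J := fun h => by simpa using hJ h
  have hJ1 : J ⊆ Finset.range (k + 1) := hJ.trans (Finset.range_subset_range.2 (by omega))
  have hJk : insert k J ⊆ Finset.range (k + 1) :=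
    Finset.insert_subset (by simp) hJ1
  have h0k : 0 ∉ insert k J := by
    rw [Finset.mem_insert, not_or]
    exact ⟨by omega, h0⟩
  have hgd : ∀ c' J', J' ⊆ Finset.range (k + 1) → 0 ∉ J' → ∀ σ ∈ (z c' J').support, Gd k σ := by
    intro c' J' h1 h2 σ hσ m hm n hn hmn
    exact ((hsup c' J' h1 h2 σ hσ).2.2 m hm n hn hmn).1
  obtain ⟨x, hx⟩ : ∃ x : ℕ → Ch, ∀ N, x N = z (Function.update c k N) J := ⟨_, fun _ => rfl⟩
  obtain ⟨w, hw⟩ : ∃ w : ℕ → Ch, ∀ N, w N = z (Function.update c k N) (insert k J) :=
    ⟨_, fun _ => rfl⟩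
  have hupd : ∀ j ∈ J, ∀ N, Function.update (up c j) k N = up (Function.update c k N) j := by
    intro j hj N
    have hjk : j ≠ k := fun h => hkJ (h ▸ hj)
    unfold up
    rw [Function.update_comm hjk.symm, Function.update_of_ne hjk]
  have e0 : z' c J = PP k (x 0) + QL k w := by
    rw [hz' c J hJ h0, col_eq, hx]
    congr 2
    funext N
    rw [hw]
  have e1 : dl z' c J = PP k (dl z (Function.update c k 0) J) +
      QL k (fun N => ∑ j ∈ J, (z (up (Function.update c k N) j) (insert k (J.erase j)) +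
        z (Function.update c k N) (insert k (J.erase j)))) := by
    have e2 : (fun N => ∑ j ∈ J, (z (up (Function.update c k N) j) (insert k (J.erase j)) +
        z (Function.update c k N) (insert k (J.erase j)))) =
        ∑ j ∈ J, ((fun N => z (up (Function.update c k N) j) (insert k (J.erase j))) +
          (fun N => z (Function.update c k N) (insert k (J.erase j)))) := by
      funext N
      rw [Finset.sum_apply]
      rfl
    rw [e2, map_sum]
    unfold dl
    rw [map_sum, ← Finset.sum_add_distrib]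
    refine Finset.sum_congr rfl fun j hj => ?_
    have hJe : J.erase j ⊆ Finset.range k := (Finset.erase_subset _ _).trans hJ
    have h0e : 0 ∉ J.erase j := fun h => h0 (Finset.mem_of_mem_erase h)
    rw [hz' (up c j) _ hJe h0e, hz' c _ hJe h0e, col_eq, col_eq, map_add, map_add]
    simp only [hupd j hj]
    abel
  have e4 : (fun N => ∑ j ∈ J, (z (up (Function.update c k N) j) (insert k (J.erase j)) +
      z (Function.update c k N) (insert k (J.erase j)))) =
      (fun N => bd (w N)) + (fun N => x (N + 1) + x N) := by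
    funext N
    have h1 := hCE N (insert k J) hJk h0k
    unfold CE dl at h1
    rw [if_neg (Finset.insert_ne_empty _ _), Finset.sum_insert hkJ, Finset.erase_insert hkJ] at h1
    have h2 : up (Function.update c k N) k = Function.update c k (N + 1) := by
      unfold up
      rw [Function.update_self, Function.update_idem]
    rw [h2] at h1
    have h3 : ∑ j ∈ J, (z (up (Function.update c k N) j) ((insert k J).erase j) +
        z (Function.update c k N) ((insert k J).erase j)) =
        ∑ j ∈ J, (z (up (Function.update c k N) j) (insert k (J.erase j)) +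
          z (Function.update c k N) (insert k (J.erase j))) := by
      refine Finset.sum_congr rfl fun j hj => ?_
      have hjk : k ≠ j := fun h => hkJ (h ▸ hj)
      rw [Finset.erase_insert_of_ne hjk]
    rw [h3] at h1
    show _ = bd (w N) + (x (N + 1) + x N)
    rw [hw, hx, hx]
    have h4 := ch_add_self (bd (z (Function.update c k N) (insert k J)) +
      (z (Function.update c k (N + 1)) J + z (Function.update c k N) J))
    rw [← add_assoc] at h1
    exact (eq_neg_of_add_eq_zero_right h1).trans (neg_eq_of_add_eq_zero_right h4)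
  have hc1 := claim1 k (x 0) (by rw [hx]; exact hgd _ _ hJ1 h0)
  have hc2 := claim2 k x (by
    intro n hn τ
    by_contra hne
    have h1 : insert k (insert n τ) ∈ (x (n + 1)).support := by
      rw [Finsupp.mem_support_iff]; exact hne
    rw [hx] at h1
    have h2 := ((hsup _ _ hJ1 h0 _ h1).2.2 k (by simp) n (by simp) hn).2
    rw [Function.update_self] at h2
    omega)
  have hc3 := claim3 k w (by
    intro N
    rw [hw]
    exact hgd _ _ hJk h0k)
  have hce0 := hCE 0 J hJ1 h0
  unfold CE at hce0
  rw [← hx] at hce0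
  have hPite : PP k (if J = ∅ then sg ∅ else 0) = if J = ∅ then sg ∅ else 0 := by
    split_ifs
    · exact PP_good (by simp)
    · exact map_zero _
  have hPce := congrArg (PP k) hce0
  rw [map_add, hPite] at hPce
  unfold CE
  rw [e1, e4, e0, map_add, map_add, hc2, ← hc1, hc3, ← hPce]
  have h5 := ch_add_self (bd (PP k (x 0)))
  have h6 := ch_add_self (QL k (fun N => bd (w N)))
  calc bd (PP k (x 0)) + QL k (fun N => bd (w N)) +
        (PP k (dl z (Function.update c k 0) J) + (QL k (fun N => bd (w N)) +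
          (bd (PP k (x 0)) + PP k (bd (x 0)))))
      = (bd (PP k (x 0)) + bd (PP k (x 0))) +
        (QL k (fun N => bd (w N)) + QL k (fun N => bd (w N))) +
          (PP k (bd (x 0)) + PP k (dl z (Function.update c k 0) J)) := by abel
    _ = _ := by rw [h5, h6, zero_add, zero_add]

end Pool.Agent.Helper286.Unst
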