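import Pool.Agent.Helper286.Unst.BarDefs


namespace Pool.Agent.Helper286.Unst

lemma mem_supp_cyl {k : ℕ} {τ : Finset ℕ} {g : ℕ →₀ ZMod 2} {σ : Finset ℕ}
    (h : σ ∈ (cyl k τ g).support) :
    g ≠ 0 ∧ ∃ n, k < n ∧ (σ = insert n τ ∨ σ = insert k τ) := by
  classical
  rw [cyl, Finsupp.linearCombination_apply, Finsupp.sum] at h
  have h1 := Finsupp.support_finsetSum h
  rw [Finset.mem_biUnion] at h1
  obtain ⟨n, hn, h2⟩ := h1
  refine ⟨?_, n, ?_⟩
  · rintro rfl
    simp at hn
  · have h3 := Finsupp.support_smul h2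
    by_cases hk : k < n
    · rw [if_pos hk] at h3
      refine ⟨hk, ?_⟩
      have h4 := Finsupp.support_add h3
      rw [Finset.mem_union] at h4
      rcases h4 with h4 | h4
      · left
        have := Finsupp.support_single_subset h4
        simpa using this
      · right
        have := Finsupp.support_single_subset h4
        simpa using this
    · rw [if_neg hk] at h3
      simp at h3

/-- TARGET B: supports after the collapse. -/
theorem col_sup (k : ℕ) (hk : 2 ≤ k) (y : ℕ → Finset ℕ → Ch) (c : ℕ → ℕ)
    (h : ∀ N J, J ⊆ Finset.range (k + 1) → 0 ∉ J →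
      ∀ σ ∈ (y N J).support, Adm (k + 1) (Function.update c k N) J σ)
    (J : Finset ℕ) (hJ : J ⊆ Finset.range k) (h0 : 0 ∉ J) :
    ∀ σ ∈ (col k y J).support, Adm k c J σ := by
  classical
  intro σ hσ
  rw [col] at hσ
  have h1 := Finsupp.support_add hσ
  rw [Finset.mem_union] at h1
  have hup : ∀ N i, i ≠ k → Function.update c k N i = c i := fun N i hi =>
    Function.update_of_ne hi _ _
  rcases h1 with h1 | h1
  · rw [Finsupp.support_filter, Finset.mem_filter] at h1
    obtain ⟨h2, h3⟩ := h1
    have hJ' : J ⊆ Finset.range (k + 1) :=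
      hJ.trans (Finset.range_subset_range.mpr (Nat.le_succ k))
    obtain ⟨a1, a2, a3⟩ := h 0 J hJ' h0 σ h2
    refine ⟨a1, ?_, ?_⟩
    · intro n hn
      have := a2 n hn
      rw [hup 0 1 (by omega)] at this
      exact this
    · intro m hm n hn hmn
      have h4 := a3 m hm n hn hmn
      have h5 : m ≠ k := by
        rintro rfl
        exact h3 ⟨hm, n, hn, hmn⟩
      rw [hup 0 m h5] at h4
      exact ⟨by omega, h4.2⟩
  · have h2 := Finsupp.support_finsetSum h1
    rw [Finset.mem_biUnion] at h2
    obtain ⟨τ, hτ, h3⟩ := h2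
    rw [Finset.mem_powerset] at hτ
    obtain ⟨hg, n, hkn, hσn⟩ := mem_supp_cyl h3
    have hsq : sq k y J τ ≠ 0 := by
      intro h4
      rw [h4, map_zero] at hg
      exact hg rfl
    obtain ⟨n0, hn0⟩ := Function.ne_iff.mp hsq
    have hkn0 : k < n0 := by
      by_contra h5
      apply hn0
      simp [sq, h5]
    have hsum : ∑ N ∈ Finset.range (n0 + 1), (y N (insert k J)) (insert k (insert n0 τ)) ≠ 0 := by
      simpa [sq, hkn0] using hn0
    obtain ⟨N, _, hN⟩ := Finset.exists_ne_zero_of_sum_ne_zero hsum
    have hkJ : k ∉ J := fun h => absurd (Finset.mem_range.mp (hJ h)) (lt_irrefl k)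
    have hkτ : k ∉ τ := fun h => absurd (Finset.mem_range.mp (hτ h)) (lt_irrefl k)
    have hn0τ : n0 ∉ τ := fun h => by
      have := Finset.mem_range.mp (hτ h)
      omega
    have hnτ : n ∉ τ := fun h => by
      have := Finset.mem_range.mp (hτ h)
      omega
    obtain ⟨a1, a2, a3⟩ := h N (insert k J) (by
      intro x hx
      rw [Finset.mem_insert] at hx
      rw [Finset.mem_range]
      rcases hx with hx | hx
      · omega
      · have := Finset.mem_range.mp (hJ hx)
        omega) (by
      rw [Finset.mem_insert, not_or]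
      exact ⟨by omega, h0⟩) (insert k (insert n0 τ)) (Finsupp.mem_support_iff.mpr hN)
    rw [Finset.card_insert_of_notMem (by
      rw [Finset.mem_insert, not_or]
      exact ⟨by omega, hkτ⟩), Finset.card_insert_of_notMem hn0τ,
      Finset.card_insert_of_notMem hkJ] at a1
    have hcard : τ.card = J.card := by omega
    have b1 : ∀ m ∈ τ, 2 ≤ m ∧ c 1 ≤ m ∧ m < k ∧ c m ≤ k := by
      intro m hm
      have h5 := a2 m (by simp [hm])
      rw [hup N 1 (by omega)] at h5
      have h6 := Finset.mem_range.mp (hτ hm)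
      have h7 := a3 m (by simp [hm]) k (by simp) h6
      rw [hup N m (by omega)] at h7
      exact ⟨h5.1, h5.2, h6, h7.2⟩
    have b2 : ∀ m ∈ τ, ∀ m' ∈ τ, m < m' → c m ≤ m' := by
      intro m hm m' hm' hlt
      have h6 := Finset.mem_range.mp (hτ hm)
      have h7 := a3 m (by simp [hm]) m' (by simp [hm']) hlt
      rw [hup N m (by omega)] at h7
      exact h7.2
    have b3 : c 1 ≤ k := by
      have h5 := a2 k (by simp)
      rw [hup N 1 (by omega)] at h5
      exact h5.2
    rcases hσn with rfl | rfl
    · refine ⟨?_, ?_, ?_⟩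
      · rw [Finset.card_insert_of_notMem hnτ, hcard]
      · intro x hx
        rw [Finset.mem_insert] at hx
        rcases hx with rfl | hx
        · exact ⟨by omega, by omega⟩
        · exact ⟨(b1 x hx).1, (b1 x hx).2.1⟩
      · intro m hm m' hm' hlt
        rw [Finset.mem_insert] at hm hm'
        rcases hm with rfl | hm
        · rcases hm' with rfl | hm'
          · omega
          · have := b1 m' hm'
            omega
        · rcases hm' with rfl | hm'
          · have := b1 m hm
            omega
          · exact ⟨(b1 m hm).2.2.1, b2 m hm m' hm' hlt⟩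
    · refine ⟨?_, ?_, ?_⟩
      · rw [Finset.card_insert_of_notMem hkτ, hcard]
      · intro x hx
        rw [Finset.mem_insert] at hx
        rcases hx with rfl | hx
        · exact ⟨by omega, by omega⟩
        · exact ⟨(b1 x hx).1, (b1 x hx).2.1⟩
      · intro m hm m' hm' hlt
        rw [Finset.mem_insert] at hm hm'
        rcases hm with rfl | hm
        · rcases hm' with rfl | hm'
          · omega
          · have := b1 m' hm'
            omega
        · rcases hm' with rfl | hm'
          · have := b1 m hm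
            omega
          · exact ⟨(b1 m hm).2.2.1, b2 m hm m' hm' hlt⟩

/-- TARGET B2: the collapse does nothing when direction k is degenerate. -/
theorem col_terminal (k : ℕ) (y : ℕ → Finset ℕ → Ch) (J : Finset ℕ)
    (hv : ∀ N, y N (insert k J) = 0)
    (hs : ∀ σ ∈ (y 0 J).support, ∀ m ∈ σ, ∀ n ∈ σ, m < n → m < k) :
    col k y J = y 0 J := by
  classical
  have h1 : (y 0 J).filter (fun σ => ¬ (k ∈ σ ∧ ∃ n ∈ σ, k < n)) = y 0 J := by
    rw [Finsupp.filter_eq_self_iff]
    intro σ hσ
    rintro ⟨hk, n, hn, hkn⟩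
    exact absurd (hs σ (Finsupp.mem_support_iff.mpr hσ) k hk n hn hkn) (lt_irrefl k)
  have h2 : ∀ τ, sq k y J τ = 0 := by
    intro τ
    funext n
    simp [sq, hv]
  rw [col, h1]
  simp [h2]

end Pool.Agent.Helper286.Unst
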