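import Pool.Agent.Helper286.Unst.BarA
import Pool.Agent.Helper286.Unst.BarB


namespace Pool.Agent.Helper286.Unst

/-- bar induction -/
theorem bar_ind_9305 (B : ℕ → (ℕ → ℕ) → Prop)
    (loc : ∀ k c c', (∀ i < k, c i = c' i) → B k c → B k c')
    (mono : ∀ k c, B k c → B (k + 1) c)
    (ex : ∀ c, ∃ k, B k c)
    (P : ℕ → (ℕ → ℕ) → Prop) (h1 : ∀ k c, B k c → P k c)
    (h2 : ∀ k c, (∀ N, P (k + 1) (Function.update c k N)) → P k c) : ∀ k c, P k c := by
  by_contra hcon
  obtain ⟨k0, hk0⟩ := not_forall.1 hcon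
  obtain ⟨c0, hc0⟩ := not_forall.1 hk0
  have step : ∀ x : {x : ℕ × (ℕ → ℕ) // ¬ P x.1 x.2}, ∃ y : {x : ℕ × (ℕ → ℕ) // ¬ P x.1 x.2},
      y.1.1 = x.1.1 + 1 ∧ ∀ i, i ≠ x.1.1 → y.1.2 i = x.1.2 i := by
    rintro ⟨⟨k, c⟩, hx⟩
    have : ∃ N, ¬ P (k + 1) (Function.update c k N) := by
      by_contra h
      push Not at h
      exact hx (h2 k c h)
    obtain ⟨N, hN⟩ := this
    exact ⟨⟨(k + 1, Function.update c k N), hN⟩, rfl,
      fun i hi => Function.update_of_ne hi _ _⟩
  choose f hf1 hf2 using step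
  let s : ℕ → {x : ℕ × (ℕ → ℕ) // ¬ P x.1 x.2} := fun n => Nat.rec ⟨(k0, c0), hc0⟩ (fun _ x => f x) n
  have hs : ∀ n, s (n + 1) = f (s n) := fun n => rfl
  have hk : ∀ n, (s n).1.1 = k0 + n := by
    intro n
    induction n with
    | zero => rfl
    | succ n ih => rw [hs, hf1, ih]; ring
  have hstep : ∀ n i, i ≠ k0 + n → (s (n + 1)).1.2 i = (s n).1.2 i := by
    intro n i hi
    rw [hs]
    exact hf2 _ _ (by rw [hk]; exact hi)
  have hagree : ∀ n m i, i < k0 + n → (s (n + m)).1.2 i = (s n).1.2 i := by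
    intro n m i hi
    induction m with
    | zero => rfl
    | succ m ih =>
      rw [← add_assoc, hstep _ _ (by omega), ih]
  let cinf : ℕ → ℕ := fun i => (s (i + 1)).1.2 i
  have hinf : ∀ n i, i < k0 + n → cinf i = (s n).1.2 i := by
    intro n i hi
    show (s (i + 1)).1.2 i = (s n).1.2 i
    rw [← hagree n (i + 1) i hi, ← hagree (i + 1) n i (by omega), add_comm n]
  obtain ⟨K, hK⟩ := ex cinf
  have hmono : ∀ m, B (K + m) cinf := by
    intro m
    induction m with
    | zero => exact hK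
    | succ m ih => exact mono _ _ ih
  have hB : B (k0 + K) (s K).1.2 := by
    refine loc _ cinf _ (fun i hi => hinf K i hi) ?_
    rw [add_comm]
    exact hmono k0
  have := h1 _ _ hB
  rw [← hk K] at this
  exact (s K).2 this

/-- TARGET C: the bar recursion. -/
theorem bar_false (z : (ℕ → ℕ) → Finset ℕ → Ch) (tm tm' : ℕ → (ℕ → ℕ) → Prop)
    (tm_loc : ∀ k c c', (∀ i < k, c i = c' i) → tm k c → tm k c')
    (tm_mono : ∀ k c, tm k c → tm (k + 1) c)
    (tm'_loc : ∀ k c c', (∀ i < k, c i = c' i) → tm' k c → tm' k c')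
    (tm'_mono : ∀ k c, tm' k c → tm' (k + 1) c)
    (tm'_ex : ∀ c, ∃ k, tm' k c)
    (tm'_tm : ∀ k c, tm' k c → tm k c)
    (tm'_up : ∀ k c j, tm' k c → tm k (up c j))
    (hCE : ∀ c J, 0 ∉ J → CE z c J)
    (hsup : ∀ c J, 0 ∉ J → ∀ σ ∈ (z c J).support,
      σ.card = J.card + 1 ∧ (∀ n ∈ σ, 2 ≤ n ∧ c 1 ≤ n) ∧
      (∀ m ∈ σ, ∀ n ∈ σ, m < n → c m ≤ n))
    (hsupk : ∀ k c J, 0 ∉ J → tm k c → ∀ σ ∈ (z c J).support,
      ∀ m ∈ σ, ∀ n ∈ σ, m < n → m < k)
    (hind : ∀ k c c' J, tm k c → (∀ i < k, c i = c' i) → J ⊆ Finset.range k → 0 ∉ J →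
      z c' J = z c J)
    (hvan : ∀ k c J, tm k c → 0 ∉ J → ∀ i ∈ J, k ≤ i → z c J = 0) :
    False := by
  classical
  have tm_ex : ∀ c, ∃ k, tm k c := fun c => by
    obtain ⟨k, hk⟩ := tm'_ex c
    exact ⟨k, tm'_tm k c hk⟩
  -- the well founded relation
  let R : ℕ × (ℕ → ℕ) → ℕ × (ℕ → ℕ) → Prop := fun x y =>
    ¬ tm y.1 y.2 ∧ ∃ N, x = (y.1 + 1, Function.update y.2 y.1 N)
  have hwf : WellFounded R := by
    constructor
    rintro ⟨k, c⟩
    refine bar_ind_9305 tm tm_loc tm_mono tm_ex (fun k c => Acc R (k, c)) ?_ ?_ k c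
    · intro k c hkc
      exact Acc.intro _ fun y hy => absurd hkc hy.1
    · intro k c h
      refine Acc.intro _ ?_
      rintro y ⟨_, N, rfl⟩
      exact h N
  let F : ℕ × (ℕ → ℕ) → Finset ℕ → Ch := hwf.fix
    (fun x rec => if h : tm x.1 x.2 then z x.2 else
      fun J => col x.1 (fun N J' => rec (x.1 + 1, Function.update x.2 x.1 N) ⟨h, N, rfl⟩ J') J)
  have hFeq : ∀ x, F x = (if h : tm x.1 x.2 then z x.2 else
      fun J => col x.1 (fun N J' => F (x.1 + 1, Function.update x.2 x.1 N) J') J) :=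
    fun x => hwf.fix_eq _ x
  have hF1 : ∀ k c, tm k c → F (k, c) = z c := by
    intro k c h
    rw [hFeq]
    exact dif_pos h
  have hF2 : ∀ k c, ¬ tm k c → F (k, c) =
      fun J => col k (fun N J' => F (k + 1, Function.update c k N) J') J := by
    intro k c h
    rw [hFeq]
    exact dif_neg h
  -- the collapse identity
  have hcol : ∀ k c J, 1 ≤ k → J ⊆ Finset.range k → 0 ∉ J →
      F (k, c) J = col k (fun N J' => F (k + 1, Function.update c k N) J') J := by
    intro k c J hk hJ h0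
    by_cases h : tm k c
    · have hag : ∀ N, ∀ i < k, c i = Function.update c k N i := by
        intro N i hi
        rw [Function.update_of_ne hi.ne]
      have ht : ∀ N, tm k (Function.update c k N) := fun N => tm_loc k c _ (hag N) h
      have e1 : (fun N J' => F (k + 1, Function.update c k N) J') =
          fun N J' => z (Function.update c k N) J' := by
        funext N J'
        rw [hF1 _ _ (tm_mono _ _ (ht N))]
      rw [e1, hF1 k c h, col_terminal k (fun N J' => z (Function.update c k N) J') J]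
      · exact (hind k c _ J h (hag 0) hJ h0).symm
      · intro N
        refine hvan k _ _ (ht N) ?_ k (Finset.mem_insert_self _ _) le_rfl
        rw [Finset.mem_insert]
        rintro (h' | h')
        · omega
        · exact h0 h'
      · exact hsupk k _ J h0 (ht 0)
    · rw [hF2 k c h]
  -- supports
  have hsupp : ∀ k c, 2 ≤ k → ∀ J, J ⊆ Finset.range k → 0 ∉ J →
      ∀ σ ∈ (F (k, c) J).support, Adm k c J σ := by
    refine bar_ind_9305 tm tm_loc tm_mono tm_ex (fun k c => 2 ≤ k → ∀ J, J ⊆ Finset.range k →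
      0 ∉ J → ∀ σ ∈ (F (k, c) J).support, Adm k c J σ) ?_ ?_
    · intro k c h hk J hJ h0 σ hσ
      rw [hF1 k c h] at hσ
      obtain ⟨a1, a2, a3⟩ := hsup c J h0 σ hσ
      exact ⟨a1, a2, fun m hm n hn hmn => ⟨hsupk k c J h0 h σ hσ m hm n hn hmn,
        a3 m hm n hn hmn⟩⟩
    · intro k c ih hk J hJ h0 σ hσ
      rw [hcol k c J (by omega) hJ h0] at hσ
      exact col_sup k hk _ c (fun N J' hJ' h0' => ih N (by omega) J' hJ' h0') J hJ h0 σ hσ
  -- chain equations
  have hce : ∀ k c, 2 ≤ k → ∀ J, J ⊆ Finset.range k → 0 ∉ J →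
      CE (fun c J => F (k, c) J) c J := by
    refine bar_ind_9305 tm' tm'_loc tm'_mono tm'_ex (fun k c => 2 ≤ k → ∀ J, J ⊆ Finset.range k →
      0 ∉ J → CE (fun c J => F (k, c) J) c J) ?_ ?_
    · intro k c h hk J hJ h0
      have e := hCE c J h0
      unfold CE dl at e ⊢
      have e1 := hF1 k c (tm'_tm k c h)
      have e2 : ∀ j, F (k, up c j) = z (up c j) := fun j => hF1 k _ (tm'_up k c j h)
      simp only [e1, e2]
      exact e
    · intro k c ih hk J hJ h0
      exact col_CE k hk (fun c J => F (k + 1, c) J) (fun c J => F (k, c) J)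
        (fun c J hJ h0 => hcol k c J (by omega) hJ h0)
        (fun c J hJ h0 => hsupp (k + 1) c (by omega) J hJ h0) c
        (fun N J hJ h0 => ih N (by omega) J hJ h0) J hJ h0
  -- the end
  have hF21 : ∀ c, F (2, c) {1} = 0 := by
    intro c
    rw [← Finsupp.support_eq_empty, Finset.eq_empty_iff_forall_notMem]
    intro σ hσ
    obtain ⟨a1, a2, a3⟩ := hsupp 2 c le_rfl {1} (by decide) (by decide) σ hσ
    rw [Finset.card_singleton] at a1
    obtain ⟨m, n, hmn, rfl⟩ := Finset.card_eq_two.1 a1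
    rcases lt_or_gt_of_ne hmn with h | h
    · have h1 := (a3 m (by simp) n (by simp) h).1
      have h2 := (a2 m (by simp)).1
      omega
    · have h1 := (a3 n (by simp) m (by simp) h).1
      have h2 := (a2 n (by simp)).1
      omega
  let cc : ℕ → ℕ → ℕ := fun N => Function.update 0 1 N
  have hup : ∀ N, up (cc N) 1 = cc (N + 1) := by
    intro N
    simp [up, cc]
  have hstep : ∀ N, F (2, cc (N + 1)) ∅ = F (2, cc N) ∅ := by
    intro N
    have h := hce 2 (cc N) le_rfl {1} (by decide) (by decide)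
    unfold CE dl at h
    simp only [Finset.sum_singleton, hup, hF21, map_zero, zero_add] at h
    rw [if_neg (by decide)] at h
    have e : ({1} : Finset ℕ).erase 1 = ∅ := by decide
    rw [e] at h
    have h2 := congrArg (fun t => t + F (2, cc N) ∅) h
    simp only [zero_add] at h2
    rw [add_assoc, ch_add_self, add_zero] at h2
    exact h2
  have hconst : ∀ N, F (2, cc N) ∅ = F (2, cc 0) ∅ := by
    intro N
    induction N with
    | zero => rfl
    | succ N ih => rw [hstep, ih]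
  have hx : F (2, cc 0) ∅ = 0 := by
    rw [← Finsupp.support_eq_empty, Finset.eq_empty_iff_forall_notMem]
    intro σ hσ
    obtain ⟨a1, -, -⟩ := hsupp 2 (cc 0) le_rfl ∅ (by simp) (by simp) σ hσ
    rw [Finset.card_empty, zero_add] at a1
    obtain ⟨n, rfl⟩ := Finset.card_eq_one.1 a1
    rw [← hconst (n + 1)] at hσ
    obtain ⟨-, a2, -⟩ := hsupp 2 (cc (n + 1)) le_rfl ∅ (by simp) (by simp) _ hσ
    have h1 := (a2 n (by simp)).2
    have h2 : cc (n + 1) 1 = n + 1 := by simp [cc]
    omega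
  have h := hce 2 (cc 0) le_rfl ∅ (by simp) (by simp)
  unfold CE dl at h
  simp only [Finset.sum_empty, hx, map_zero, zero_add, if_true] at h
  have h3 := congrArg (fun t : Ch => t ∅) h
  simp [sg] at h3

end Pool.Agent.Helper286.Unst
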