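import Pool.Agent.Helper286.Unst.Alg


namespace Pool.Agent.Helper286.Unst

/-- Raise coordinate j by one. -/
def up (c : ℕ → ℕ) (j : ℕ) : ℕ → ℕ := Function.update c j (c j + 1)

/-- Sum over the codimension one faces of an integer cube. -/
noncomputable def dl (z : (ℕ → ℕ) → Finset ℕ → Ch) (c : ℕ → ℕ) (J : Finset ℕ) : Ch :=
  ∑ j ∈ J, (z (up c j) (J.erase j) + z c (J.erase j))

/-- The chain equation. -/
def CE (z : (ℕ → ℕ) → Finset ℕ → Ch) (c : ℕ → ℕ) (J : Finset ℕ) : Prop :=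
  bd (z c J) + dl z c J = if J = ∅ then sg ∅ else 0

/-- Admissible simplices at level k. -/
def Adm (k : ℕ) (c : ℕ → ℕ) (J σ : Finset ℕ) : Prop :=
  σ.card = J.card + 1 ∧ (∀ n ∈ σ, 2 ≤ n ∧ c 1 ≤ n) ∧
    (∀ m ∈ σ, ∀ n ∈ σ, m < n → m < k ∧ c m ≤ n)

lemma exists_rho : ∃ ρ : (ℕ → ZMod 2) →ₗ[ZMod 2] (ℕ →₀ ZMod 2),
    ∀ f : ℕ →₀ ZMod 2, ρ (f : ℕ → ZMod 2) = f := by
  obtain ⟨g, hg⟩ := (Finsupp.lcoeFun (R := ZMod 2) (M := ZMod 2) (α := ℕ)).exists_leftInverse_of_injective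
    (LinearMap.ker_eq_bot.2 (fun f g h => DFunLike.coe_injective h))
  exact ⟨g, fun f => LinearMap.congr_fun hg f⟩

/-- A linear left inverse of the inclusion of finitely supported sequences. -/
noncomputable def rho : (ℕ → ZMod 2) →ₗ[ZMod 2] (ℕ →₀ ZMod 2) := Classical.choose exists_rho

lemma rho_coe (f : ℕ →₀ ZMod 2) : rho (f : ℕ → ZMod 2) = f :=
  Classical.choose_spec exists_rho f

/-- The sequence attached to a simplex. -/
noncomputable def sq (k : ℕ) (y : ℕ → Finset ℕ → Ch) (J τ : Finset ℕ) : ℕ → ZMod 2 :=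
  fun n => if k < n then
    ∑ N ∈ Finset.range (n + 1), (y N (insert k J)) (insert k (insert n τ)) else 0

/-- The suspension term attached to a sequence. -/
noncomputable def cyl (k : ℕ) (τ : Finset ℕ) : (ℕ →₀ ZMod 2) →ₗ[ZMod 2] Ch :=
  Finsupp.linearCombination (ZMod 2)
    (fun n => if k < n then sg (insert n τ) + sg (insert k τ) else 0)

/-- The collapse of coordinate k. -/
noncomputable def col (k : ℕ) (y : ℕ → Finset ℕ → Ch) (J : Finset ℕ) : Ch :=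
  (y 0 J).filter (fun σ => ¬ (k ∈ σ ∧ ∃ n ∈ σ, k < n)) +
    ∑ τ ∈ (Finset.range k).powerset, cyl k τ (rho (sq k y J τ))

end Pool.Agent.Helper286.Unst
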