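import Mathlib

open Set Topology

namespace Pool.Agent.Helper286.Unst

/-- The cone over N cut at height ell. -/
def ConeSet {N : Type} (b : N → (ℕ → ℝ)) (ℓ : N → ℝ) : Set (ℝ × (ℕ → ℝ)) :=
  {x | ∃ ξ : N, ∃ r : ℝ, 0 ≤ r ∧ r ≤ ℓ ξ ∧ x = (r, r • b ξ)}

end Pool.Agent.Helper286.Unst
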