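import Pool.Agent.Helper286.Unst.CubeDefs


namespace Pool.Agent.Helper286.Unst

lemma sum_offdiag_symm (J : Finset ℕ) (g : ℕ → ℕ → Ch)
    (hg : ∀ i j, i ≠ j → g i j = g j i) : ∑ j ∈ J, ∑ i ∈ J.erase j, g j i = 0 := by
  induction J using Finset.induction_on with
  | empty => simp
  | insert a J ha ih =>
    rw [Finset.sum_insert ha, Finset.erase_insert ha]
    have h1 : ∀ j ∈ J, ∑ i ∈ (insert a J).erase j, g j i = g j a + ∑ i ∈ J.erase j, g j i := by
      intro j hj
      have hja : a ≠ j := fun h => ha (h ▸ hj)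
      rw [Finset.erase_insert_of_ne hja, Finset.sum_insert]
      intro h
      exact ha (Finset.mem_of_mem_erase h)
    rw [Finset.sum_congr rfl h1, Finset.sum_add_distrib, ih, add_zero, ← Finset.sum_add_distrib]
    refine Finset.sum_eq_zero fun j hj => ?_
    have hja : a ≠ j := fun h => ha (h ▸ hj)
    rw [hg a j hja, ch_add_self]

lemma sum_offdiag_swap (J : Finset ℕ) (g : ℕ → ℕ → Ch) :
    ∑ j ∈ J, ∑ i ∈ J.erase j, g j i = ∑ j ∈ J, ∑ i ∈ J.erase j, g i j := by
  rw [Finset.sum_comm' (s := J) (t := fun j => J.erase j) (t' := J) (s' := fun i => J.erase i)]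
  intro x y
  simp only [Finset.mem_erase]
  constructor
  · rintro ⟨h1, h2, h3⟩
    exact ⟨⟨fun h => h2 h.symm, h1⟩, h3⟩
  · rintro ⟨⟨h1, h2⟩, h3⟩
    exact ⟨h2, fun h => h1 h.symm, h3⟩

lemma shf_comm (q : Pt) (h : ℝ) (i j : ℕ) :
    shf (shf q h {i}) h {j} = shf (shf q h {j}) h {i} := by
  funext k
  simp only [shf, Finset.mem_singleton]
  split_ifs <;> rfl

lemma shf_insert (q : Pt) (h : ℝ) (j : ℕ) (t : Finset ℕ) (hj : j ∉ t) :
    shf q h (insert j t) = shf (shf q h t) h {j} := by
  funext k
  simp only [shf, Finset.mem_singleton, Finset.mem_insert]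
  by_cases h1 : k = j
  · subst h1
    simp [hj]
  · simp [h1]

lemma shf_insert2 (q : Pt) (h : ℝ) (j : ℕ) (t : Finset ℕ) (hj : j ∉ t) :
    shf (shf q (h / 2) (insert j t)) (h / 2) {j} = shf (shf q h {j}) (h / 2) t := by
  funext k
  simp only [shf, Finset.mem_singleton, Finset.mem_insert]
  by_cases h1 : k = j
  · subst h1
    simp [hj]
    ring
  · simp [h1]

/-- TARGET -/
theorem fc_fc (f : Pt → ℝ → Finset ℕ → Ch) (q : Pt) (h : ℝ) (J : Finset ℕ) :
    fc (fc f) q h J = 0 := by
  have e : fc (fc f) q h J = ∑ j ∈ J, ∑ i ∈ J.erase j,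
      (f (shf (shf q h {j}) h {i}) h ((J.erase j).erase i) +
        f (shf q h {j}) h ((J.erase j).erase i) +
        (f (shf q h {i}) h ((J.erase j).erase i) + f q h ((J.erase j).erase i))) := by
    unfold fc
    refine Finset.sum_congr rfl fun j _ => ?_
    rw [← Finset.sum_add_distrib]
  rw [e]
  refine sum_offdiag_symm J (fun j i => f (shf (shf q h {j}) h {i}) h ((J.erase j).erase i) +
        f (shf q h {j}) h ((J.erase j).erase i) +
        (f (shf q h {i}) h ((J.erase j).erase i) + f q h ((J.erase j).erase i))) ?_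
  intro i j _
  rw [shf_comm q h i j, Finset.erase_right_comm (s := J) (a := i) (b := j)]
  abel

/-- TARGET -/
theorem fc_sd (f : Pt → ℝ → Finset ℕ → Ch) : fc (sd f) = sd (fc f) := by
  funext q h J
  show ∑ j ∈ J, (∑ J' ∈ (J.erase j).powerset, f (shf (shf q h {j}) (h / 2) J') (h / 2) (J.erase j) +
      ∑ J' ∈ (J.erase j).powerset, f (shf q (h / 2) J') (h / 2) (J.erase j)) =
    ∑ J' ∈ J.powerset, ∑ j ∈ J, (f (shf (shf q (h / 2) J') (h / 2) {j}) (h / 2) (J.erase j) +
      f (shf q (h / 2) J') (h / 2) (J.erase j))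
  rw [Finset.sum_comm]
  refine Finset.sum_congr rfl fun j hj => ?_
  have e1 : J.powerset = (insert j (J.erase j)).powerset := by rw [Finset.insert_erase hj]
  rw [e1, Finset.sum_powerset_insert (by simp), ← Finset.sum_add_distrib,
    ← Finset.sum_add_distrib]
  refine Finset.sum_congr rfl fun t ht => ?_
  have hjt : j ∉ t := by
    intro h'
    have := Finset.mem_powerset.1 ht h'
    simp at this
  rw [shf_insert2 q h j t hjt, shf_insert q (h / 2) j t hjt]
  have h1 := ch_add_self (f (shf (shf q (h / 2) t) (h / 2) {j}) (h / 2) (J.erase j))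
  calc f (shf (shf q h {j}) (h / 2) t) (h / 2) (J.erase j) + f (shf q (h / 2) t) (h / 2) (J.erase j)
      = f (shf (shf q h {j}) (h / 2) t) (h / 2) (J.erase j) +
        f (shf q (h / 2) t) (h / 2) (J.erase j) +
        (f (shf (shf q (h / 2) t) (h / 2) {j}) (h / 2) (J.erase j) +
          f (shf (shf q (h / 2) t) (h / 2) {j}) (h / 2) (J.erase j)) := by rw [h1, add_zero]
    _ = _ := by abel

/-- TARGET -/
theorem tri_eq (v : Pt → ℕ) (q : Pt) (h : ℝ) (J : Finset ℕ) :
    tri v q h J = cone (v q) (if J = ∅ then sg ∅ else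
      ∑ j ∈ J, tri v (shf q h {j}) h (J.erase j)) := by
  by_cases hJ : J = ∅
  · subst hJ
    simp [tri, triN]
  · rw [if_neg hJ]
    unfold tri
    obtain ⟨n, hn⟩ : ∃ n, J.card = n + 1 :=
      ⟨J.card - 1, (Nat.succ_pred_eq_of_pos (Finset.card_pos.2 (Finset.nonempty_of_ne_empty hJ))).symm⟩
    rw [hn]
    show cone (v q) (∑ j ∈ J, triN v h n (shf q h {j}) (J.erase j)) = _
    congr 1
    refine Finset.sum_congr rfl fun j hj => ?_
    rw [Finset.card_erase_of_mem hj, hn, Nat.add_sub_cancel]

/-- TARGET -/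
theorem tri_bd (v : Pt → ℕ) (q : Pt) (h : ℝ) (J : Finset ℕ) :
    bd (tri v q h J) = fc (tri v) q h J + (if J = ∅ then sg ∅ else 0) := by
  induction hn : J.card using Nat.strong_induction_on generalizing J q with
  | _ n ih =>
    by_cases hJ : J = ∅
    · subst hJ
      rw [tri_eq, if_pos rfl, bd_cone, bd_sg_empty, map_zero, if_pos rfl]
      simp [fc]
    · have ih' : ∀ j ∈ J, ∀ q', bd (tri v q' h (J.erase j)) =
          fc (tri v) q' h (J.erase j) + (if J.erase j = ∅ then sg ∅ else 0) := by
        intro j hj q'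
        refine ih (J.erase j).card ?_ q' (J.erase j) rfl
        rw [← hn]
        exact Finset.card_erase_lt_of_mem hj
      rw [if_neg hJ, add_zero, tri_eq, if_neg hJ, bd_cone, map_sum]
      have e1 : ∑ j ∈ J, bd (tri v (shf q h {j}) h (J.erase j)) =
          ∑ j ∈ J, ((if J.erase j = ∅ then sg ∅ else
            ∑ i ∈ J.erase j, tri v (shf q h {i}) h ((J.erase j).erase i)) : Ch) := by
        have e2 : ∀ j ∈ J, bd (tri v (shf q h {j}) h (J.erase j)) =
            ∑ i ∈ J.erase j, tri v (shf (shf q h {j}) h {i}) h ((J.erase j).erase i) +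
            (∑ i ∈ J.erase j, tri v (shf q h {j}) h ((J.erase j).erase i) +
              (if J.erase j = ∅ then sg ∅ else 0)) := by
          intro j hj
          rw [ih' j hj]
          unfold fc
          rw [Finset.sum_add_distrib, add_assoc]
        have e3 : ∀ j ∈ J, ((if J.erase j = ∅ then sg ∅ else
            ∑ i ∈ J.erase j, tri v (shf q h {i}) h ((J.erase j).erase i)) : Ch) =
            ∑ i ∈ J.erase j, tri v (shf q h {i}) h ((J.erase j).erase i) +
              (if J.erase j = ∅ then sg ∅ else 0) := by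
          intro j _
          by_cases hj : J.erase j = ∅
          · rw [if_pos hj, if_pos hj, hj, Finset.sum_empty, zero_add]
          · rw [if_neg hj, if_neg hj, add_zero]
        rw [Finset.sum_congr rfl e2, Finset.sum_congr rfl e3, Finset.sum_add_distrib,
          Finset.sum_add_distrib, Finset.sum_add_distrib]
        have e4 : ∑ j ∈ J, ∑ i ∈ J.erase j,
            tri v (shf (shf q h {j}) h {i}) h ((J.erase j).erase i) = 0 := by
          refine sum_offdiag_symm J
            (fun j i => tri v (shf (shf q h {j}) h {i}) h ((J.erase j).erase i)) ?_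
          intro i j _
          rw [shf_comm q h i j, Finset.erase_right_comm (s := J) (a := i) (b := j)]
        have e5 := sum_offdiag_swap J
          (fun j i => tri v (shf q h {j}) h ((J.erase j).erase i))
        rw [e4, zero_add]
        congr 1
        rw [e5]
        refine Finset.sum_congr rfl fun j _ => Finset.sum_congr rfl fun i _ => ?_
        rw [Finset.erase_right_comm (s := J) (a := i) (b := j)]
      rw [e1, map_sum]
      have e6 : ∀ j ∈ J, cone (v q) (if J.erase j = ∅ then sg ∅ else
            ∑ i ∈ J.erase j, tri v (shf q h {i}) h ((J.erase j).erase i)) =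
          tri v q h (J.erase j) := fun j _ => (tri_eq v q h (J.erase j)).symm
      rw [Finset.sum_congr rfl e6]
      unfold fc
      rw [Finset.sum_add_distrib]

end Pool.Agent.Helper286.Unst
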