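import Mathlib


namespace Pool.Agent.Helper286.Unst

/-- Points of the parameter space. -/
abbrev Pt := ℕ → ℝ

end Pool.Agent.Helper286.Unst
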