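import Pool.Agent.Helper286.Unst.BarDefs
import Pool.Agent.Helper286.Unst.Pt


namespace Pool.Agent.Helper286.Unst

/-- Translate q by h in the directions of J. -/
noncomputable def shf (q : Pt) (h : ℝ) (J : Finset ℕ) : Pt := fun i => if i ∈ J then q i + h else q i

/-- Sum over codimension one faces. -/
noncomputable def fc (f : Pt → ℝ → Finset ℕ → Ch) (q : Pt) (h : ℝ) (J : Finset ℕ) : Ch :=
  ∑ j ∈ J, (f (shf q h {j}) h (J.erase j) + f q h (J.erase j))

/-- Subdivision into half size cubes. -/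
noncomputable def sd (f : Pt → ℝ → Finset ℕ → Ch) (q : Pt) (h : ℝ) (J : Finset ℕ) : Ch :=
  ∑ J' ∈ J.powerset, f (shf q (h / 2) J') (h / 2) J

/-- Standard triangulation of a cube, pushed to labels (with fuel). -/
noncomputable def triN (v : Pt → ℕ) (h : ℝ) : ℕ → Pt → Finset ℕ → Ch
  | 0, q, _ => cone (v q) (sg ∅)
  | n + 1, q, J => cone (v q) (∑ j ∈ J, triN v h n (shf q h {j}) (J.erase j))

/-- Standard triangulation of a cube, pushed to labels. -/
noncomputable def tri (v : Pt → ℕ) (q : Pt) (h : ℝ) (J : Finset ℕ) : Ch := triN v h J.card q J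

/-- Chain homotopy between the triangulation and its subdivision (with fuel). -/
noncomputable def TTN (v : Pt → ℕ) : ℕ → Pt → ℝ → Finset ℕ → Ch
  | 0, q, h, J => cone (v q) (tri v q h J + sd (tri v) q h J)
  | n + 1, q, h, J => cone (v q) (tri v q h J + sd (tri v) q h J +
      ∑ j ∈ J, (TTN v n (shf q h {j}) h (J.erase j) + TTN v n q h (J.erase j)))

/-- Chain homotopy between the triangulation and its subdivision. -/
noncomputable def TT (v : Pt → ℕ) (q : Pt) (h : ℝ) (J : Finset ℕ) : Ch := TTN v J.card q h J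

/-- Iterated chain homotopy. -/
noncomputable def DD (v : Pt → ℕ) (m : ℕ) (q : Pt) (h : ℝ) (J : Finset ℕ) : Ch :=
  ∑ i ∈ Finset.range m, (sd^[i] (TT v)) q h J

/-- Integer point as a real point. -/
def ipt (c : ℕ → ℕ) : Pt := fun i => (c i : ℝ)

/-- Raise the coordinates in J by one. -/
def upS (c : ℕ → ℕ) (J : Finset ℕ) : ℕ → ℕ := fun i => if i ∈ J then c i + 1 else c i

/-- Mesh exponent of a unit cube. -/
noncomputable def MM (μ : (ℕ → ℕ) → ℕ) (c : ℕ → ℕ) (J : Finset ℕ) : ℕ :=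
  J.powerset.sup (fun J' => μ (upS c J'))

/-- The correction chain on a unit cube. -/
noncomputable def ff (v : Pt → ℕ) (μ : (ℕ → ℕ) → ℕ) (c : ℕ → ℕ) (J : Finset ℕ) : Ch :=
  DD v (MM μ c J) (ipt c) 1 J

/-- The chain attached to a unit cube. -/
noncomputable def ZZ (v : Pt → ℕ) (μ : (ℕ → ℕ) → ℕ) (c : ℕ → ℕ) (J : Finset ℕ) : Ch :=
  tri v (ipt c) 1 J + bd (ff v μ c J) + dl (ff v μ) c J

/-- Closed unit cube with base corner c and directions J. -/
def InCube (c : ℕ → ℕ) (J : Finset ℕ) (q : Pt) : Prop :=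
  ∀ i, (i ∈ J → (c i : ℝ) ≤ q i ∧ q i ≤ c i + 1) ∧ (i ∉ J → q i = c i)

/-- Integer part. -/
noncomputable def fl (q : Pt) : ℕ → ℕ := fun i => ⌊q i⌋₊

end Pool.Agent.Helper286.Unst
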