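import Pool.Agent.Helper286.Unst.CubeD


namespace Pool.Agent.Helper286.Unst

theorem ipt_up_9379 (c : ℕ → ℕ) (j : ℕ) : ipt (up c j) = shf (ipt c) 1 {j} := by
  funext i
  by_cases h : i = j
  · subst h
    simp [ipt, up, shf]
  · simp [ipt, up, shf, h]

theorem sym_sum_9379 (F : ℕ → ℕ → Ch) (J : Finset ℕ)
    (hF : ∀ i j, i ≠ j → F i j = F j i) : ∑ j ∈ J, ∑ i ∈ J.erase j, F j i = 0 := by
  rw [Finset.sum_sigma']
  apply Finset.sum_involution (fun (a : (_ : ℕ) × ℕ) _ => (⟨a.2, a.1⟩ : (_ : ℕ) × ℕ))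
  · rintro ⟨j, i⟩ ha
    simp only [Finset.mem_sigma, Finset.mem_erase] at ha
    show F j i + F i j = 0
    rw [hF j i (Ne.symm ha.2.1)]
    exact ch_add_self _
  · rintro ⟨j, i⟩ ha _ h
    simp only [Finset.mem_sigma, Finset.mem_erase] at ha
    apply ha.2.1
    have := congrArg Sigma.fst h
    exact this
  · rintro ⟨j, i⟩ ha
    simp only [Finset.mem_sigma, Finset.mem_erase] at ha ⊢
    exact ⟨ha.2.2, Ne.symm ha.2.1, ha.1⟩
  · rintro ⟨j, i⟩ ha
    rfl

theorem dl_dl_9379 (z : (ℕ → ℕ) → Finset ℕ → Ch) (c : ℕ → ℕ) (J : Finset ℕ) :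
    dl (dl z) c J = 0 := by
  have h1 : dl (dl z) c J = ∑ j ∈ J, ∑ i ∈ J.erase j,
      (z (up (up c j) i) ((J.erase j).erase i) + z (up c j) ((J.erase j).erase i) +
        (z (up c i) ((J.erase j).erase i) + z c ((J.erase j).erase i))) := by
    unfold dl
    refine Finset.sum_congr rfl fun j _ => ?_
    rw [← Finset.sum_add_distrib]
  rw [h1]
  apply sym_sum_9379 (fun j i =>
      (z (up (up c j) i) ((J.erase j).erase i) + z (up c j) ((J.erase j).erase i) +
        (z (up c i) ((J.erase j).erase i) + z c ((J.erase j).erase i))))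
  intro i j hij
  have h2 : up (up c i) j = up (up c j) i := by
    funext k
    unfold up
    by_cases hk : k = i
    · subst hk
      simp [Function.update_apply, hij]
    · by_cases hk' : k = j
      · subst hk'
        simp [Function.update_apply, hk]
      · simp [Function.update_apply, hk, hk']
  have h3 : (J.erase i).erase j = (J.erase j).erase i := Finset.erase_right_comm
  show z (up (up c i) j) ((J.erase i).erase j) + z (up c i) ((J.erase i).erase j) +
        (z (up c j) ((J.erase i).erase j) + z c ((J.erase i).erase j)) =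
      z (up (up c j) i) ((J.erase j).erase i) + z (up c j) ((J.erase j).erase i) +
        (z (up c i) ((J.erase j).erase i) + z c ((J.erase j).erase i))
  rw [h2, h3]
  abel

theorem bd_sd_9379 (f : Pt → ℝ → Finset ℕ → Ch) (q : Pt) (h : ℝ) (J : Finset ℕ) :
    bd (sd f q h J) = sd (fun q h J => bd (f q h J)) q h J := by
  unfold sd
  rw [map_sum]

theorem bd_fc_9379 (f : Pt → ℝ → Finset ℕ → Ch) (q : Pt) (h : ℝ) (J : Finset ℕ) :
    bd (fc f q h J) = fc (fun q h J => bd (f q h J)) q h J := by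
  unfold fc
  rw [map_sum]
  simp only [map_add]

theorem bd_dl_9379 (f : (ℕ → ℕ) → Finset ℕ → Ch) (c : ℕ → ℕ) (J : Finset ℕ) :
    bd (dl f c J) = dl (fun c J => bd (f c J)) c J := by
  unfold dl
  rw [map_sum]
  simp only [map_add]

theorem sd_add_9379 (f g : Pt → ℝ → Finset ℕ → Ch) : sd (f + g) = sd f + sd g := by
  funext q h J
  simp only [sd, Pi.add_apply, Finset.sum_add_distrib]

theorem fc_add_9379 (f g : Pt → ℝ → Finset ℕ → Ch) : fc (f + g) = fc f + fc g := by
  funext q h J
  simp only [fc, Pi.add_apply]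
  rw [← Finset.sum_add_distrib]
  refine Finset.sum_congr rfl fun j _ => ?_
  abel

theorem dl_add_9379 (f g : (ℕ → ℕ) → Finset ℕ → Ch) : dl (f + g) = dl f + dl g := by
  funext c J
  simp only [dl, Pi.add_apply]
  rw [← Finset.sum_add_distrib]
  refine Finset.sum_congr rfl fun j _ => ?_
  abel

theorem fc_iter_9379 (f : Pt → ℝ → Finset ℕ → Ch) (m : ℕ) : sd^[m] (fc f) = fc (sd^[m] f) := by
  induction m with
  | zero => rfl
  | succ m ih => rw [Function.iterate_succ_apply', Function.iterate_succ_apply', ih, fc_sd]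

theorem add_iter_9379 (f g : Pt → ℝ → Finset ℕ → Ch) (m : ℕ) :
    sd^[m] (f + g) = sd^[m] f + sd^[m] g := by
  induction m with
  | zero => rfl
  | succ m ih => simp only [Function.iterate_succ_apply', ih, sd_add_9379]

theorem bd_iter_9379 (f : Pt → ℝ → Finset ℕ → Ch) (m : ℕ) :
    (fun q h J => bd ((sd^[m] f) q h J)) = sd^[m] (fun q h J => bd (f q h J)) := by
  induction m with
  | zero => rfl
  | succ m ih =>
    simp only [Function.iterate_succ_apply']
    rw [← ih]
    funext q h J
    exact bd_sd_9379 _ q h J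

/-- TARGET -/
theorem TT_eq (v : Pt → ℕ) (q : Pt) (h : ℝ) (J : Finset ℕ) :
    TT v q h J = cone (v q) (tri v q h J + sd (tri v) q h J + fc (TT v) q h J) := by
  rcases Finset.eq_empty_or_nonempty J with rfl | hJ
  · have h1 : fc (TT v) q h ∅ = 0 := by simp [fc]
    rw [h1, add_zero]
    rfl
  · obtain ⟨n, hn⟩ : ∃ n, J.card = n + 1 :=
      ⟨J.card - 1, by have := Finset.card_pos.2 hJ; omega⟩
    unfold TT
    rw [hn]
    show cone (v q) (tri v q h J + sd (tri v) q h J +
      ∑ j ∈ J, (TTN v n (shf q h {j}) h (J.erase j) + TTN v n q h (J.erase j))) = _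
    congr 2
    unfold fc
    refine Finset.sum_congr rfl fun j hj => ?_
    have h2 : (J.erase j).card = n := by
      rw [Finset.card_erase_of_mem hj, hn]; rfl
    simp only [h2]

/-- TARGET -/
theorem TT_bd (v : Pt → ℕ) (q : Pt) (h : ℝ) (J : Finset ℕ) :
    bd (TT v q h J) = tri v q h J + sd (tri v) q h J + fc (TT v) q h J := by
  obtain ⟨n, hn⟩ : ∃ n, J.card = n := ⟨_, rfl⟩
  induction n using Nat.strong_induction_on generalizing q h J with
  | _ n ih =>
    have hX : bd (tri v q h J + sd (tri v) q h J + fc (TT v) q h J) = 0 := by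
      have e1 : bd (sd (tri v) q h J) = fc (sd (tri v)) q h J + (if J = ∅ then sg ∅ else 0) := by
        rw [bd_sd_9379, fc_sd]
        have e2 : (fun q h J => bd (tri v q h J)) =
            fc (tri v) + fun _ _ J => (if J = ∅ then sg ∅ else 0) := by
          funext q h J
          exact tri_bd v q h J
        rw [e2, sd_add_9379]
        show sd (fc (tri v)) q h J + sd (fun _ _ J => (if J = ∅ then sg ∅ else 0)) q h J = _
        congr 1
        unfold sd
        by_cases hJ : J = ∅
        · subst hJ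
          simp
        · simp [hJ]
      have e3 : bd (fc (TT v) q h J) = fc (tri v) q h J + fc (sd (tri v)) q h J := by
        have e4 : bd (fc (TT v) q h J) =
            fc (tri v + sd (tri v) + fc (TT v)) q h J := by
          rw [bd_fc_9379]
          unfold fc
          refine Finset.sum_congr rfl fun j hj => ?_
          have h2 : (J.erase j).card < n := by
            rw [← hn]
            exact Finset.card_erase_lt_of_mem hj
          show bd (TT v (shf q h {j}) h (J.erase j)) + bd (TT v q h (J.erase j)) = _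
          rw [ih _ h2 (shf q h {j}) h (J.erase j) rfl, ih _ h2 q h (J.erase j) rfl]
          rfl
        rw [e4, fc_add_9379, fc_add_9379]
        show fc (tri v) q h J + fc (sd (tri v)) q h J + fc (fc (TT v)) q h J = _
        rw [fc_fc, add_zero]
      rw [map_add, map_add, tri_bd, e1, e3]
      generalize fc (tri v) q h J = A
      generalize fc (sd (tri v)) q h J = B
      generalize (if J = ∅ then sg ∅ else 0 : Ch) = C
      have : A + C + (B + C) + (A + B) = (A + A) + (B + B) + (C + C) := by abel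
      rw [this, ch_add_self A, ch_add_self B, ch_add_self C]
      simp
    rw [TT_eq, bd_cone, hX, map_zero, add_zero]

/-- TARGET -/
theorem DD_bd (v : Pt → ℕ) (m : ℕ) (q : Pt) (h : ℝ) (J : Finset ℕ) :
    bd (DD v m q h J) = tri v q h J + (sd^[m] (tri v)) q h J + fc (DD v m) q h J := by
  induction m with
  | zero =>
    have h1 : ∀ q h J, DD v 0 q h J = 0 := by
      intro q h J
      simp [DD]
    have h2 : fc (DD v 0) q h J = 0 := by
      unfold fc
      simp [h1]
    rw [h1, h2, map_zero, add_zero]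
    exact (ch_add_self _).symm
  | succ m ih =>
    have h1 : DD v (m + 1) = DD v m + sd^[m] (TT v) := by
      funext q h J
      simp only [DD, Pi.add_apply, Finset.sum_range_succ]
    have h2 : bd ((sd^[m] (TT v)) q h J) =
        (sd^[m] (tri v)) q h J + (sd^[m + 1] (tri v)) q h J + fc (sd^[m] (TT v)) q h J := by
      have h3 : bd ((sd^[m] (TT v)) q h J) = (sd^[m] (fun q h J => bd (TT v q h J))) q h J := by
        rw [← bd_iter_9379]
      have h4 : (fun q h J => bd (TT v q h J)) = tri v + sd (tri v) + fc (TT v) := by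
        funext q h J
        exact TT_bd v q h J
      rw [h3, h4, add_iter_9379, add_iter_9379, fc_iter_9379, ← Function.iterate_succ_apply]
      rfl
    rw [h1, fc_add_9379]
    show bd (DD v m q h J + (sd^[m] (TT v)) q h J) = _ + (fc (DD v m) q h J +
      fc (sd^[m] (TT v)) q h J)
    rw [map_add, ih, h2]
    generalize (sd^[m] (tri v)) q h J = A
    generalize (sd^[m + 1] (tri v)) q h J = B
    generalize fc (DD v m) q h J = C
    generalize fc (sd^[m] (TT v)) q h J = D
    generalize tri v q h J = E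
    have : E + A + C + (A + B + D) = (A + A) + (E + B + (C + D)) := by abel
    rw [this, ch_add_self, zero_add]

/-- TARGET -/
theorem ZZ_bd (v : Pt → ℕ) (μ : (ℕ → ℕ) → ℕ) (c : ℕ → ℕ) (J : Finset ℕ) :
    bd (ZZ v μ c J) = dl (ZZ v μ) c J + (if J = ∅ then sg ∅ else 0) := by
  have h1 : ZZ v μ = (fun c J => tri v (ipt c) 1 J) + (fun c J => bd (ff v μ c J)) +
      dl (ff v μ) := by
    funext c J
    rfl
  have h2 : dl (ZZ v μ) c J = dl (fun c J => tri v (ipt c) 1 J) c J +
      dl (fun c J => bd (ff v μ c J)) c J := by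
    rw [h1, dl_add_9379, dl_add_9379]
    show dl (fun c J => tri v (ipt c) 1 J) c J +
      dl (fun c J => bd (ff v μ c J)) c J + dl (dl (ff v μ)) c J = _
    rw [dl_dl_9379, add_zero]
  have h3 : dl (fun c J => tri v (ipt c) 1 J) c J = fc (tri v) (ipt c) 1 J := by
    unfold dl fc
    refine Finset.sum_congr rfl fun j _ => ?_
    show tri v (ipt (up c j)) 1 (J.erase j) + tri v (ipt c) 1 (J.erase j) = _
    rw [ipt_up_9379]
  rw [h2, h3]
  show bd (tri v (ipt c) 1 J + bd (ff v μ c J) + dl (ff v μ) c J) = _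
  rw [map_add, map_add, bd_bd, add_zero, tri_bd, bd_dl_9379]
  abel

theorem MM_le1_9379 (μ : (ℕ → ℕ) → ℕ) (c : ℕ → ℕ) (J : Finset ℕ) (j : ℕ) (hj : j ∈ J) :
    MM μ (up c j) (J.erase j) ≤ MM μ c J := by
  unfold MM
  apply Finset.sup_le
  intro J' hJ'
  have hJ'' := Finset.mem_powerset.1 hJ'
  have hjn : j ∉ J' := fun h => (Finset.notMem_erase j J) (hJ'' h)
  have h1 : upS (up c j) J' = upS c (insert j J') := by
    funext i
    by_cases hi : i = j
    · subst hi
      simp [upS, up, hjn]
    · simp [upS, up, hi]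
  rw [h1]
  apply Finset.le_sup (f := fun J' => μ (upS c J'))
  rw [Finset.mem_powerset]
  intro x hx
  rcases Finset.mem_insert.1 hx with rfl | hx
  · exact hj
  · exact Finset.mem_of_mem_erase (hJ'' hx)

theorem MM_le2_9379 (μ : (ℕ → ℕ) → ℕ) (c : ℕ → ℕ) (J : Finset ℕ) (j : ℕ) :
    MM μ c (J.erase j) ≤ MM μ c J := by
  unfold MM
  exact Finset.sup_mono (Finset.powerset_mono.2 (Finset.erase_subset _ _))

theorem DD_add_9379 (v : Pt → ℕ) (m M : ℕ) (hm : m ≤ M) (q : Pt) (h : ℝ) (J : Finset ℕ) :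
    DD v M q h J + DD v m q h J = ∑ i ∈ Finset.Ico m M, (sd^[i] (TT v)) q h J := by
  unfold DD
  rw [← Finset.sum_range_add_sum_Ico _ hm]
  generalize ∑ i ∈ Finset.range m, (sd^[i] (TT v)) q h J = A
  generalize ∑ i ∈ Finset.Ico m M, (sd^[i] (TT v)) q h J = B
  have : A + B + A = (A + A) + B := by abel
  rw [this, ch_add_self, zero_add]

/-- TARGET -/
theorem ZZ_alt (v : Pt → ℕ) (μ : (ℕ → ℕ) → ℕ) (c : ℕ → ℕ) (J : Finset ℕ) :
    ZZ v μ c J = (sd^[MM μ c J] (tri v)) (ipt c) 1 J +
      ∑ j ∈ J, (∑ i ∈ Finset.Ico (MM μ (up c j) (J.erase j)) (MM μ c J),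
          (sd^[i] (TT v)) (ipt (up c j)) 1 (J.erase j) +
        ∑ i ∈ Finset.Ico (MM μ c (J.erase j)) (MM μ c J),
          (sd^[i] (TT v)) (ipt c) 1 (J.erase j)) := by
  have h1 : bd (ff v μ c J) = tri v (ipt c) 1 J + (sd^[MM μ c J] (tri v)) (ipt c) 1 J +
      fc (DD v (MM μ c J)) (ipt c) 1 J := DD_bd v _ _ _ _
  have h2 : fc (DD v (MM μ c J)) (ipt c) 1 J + dl (ff v μ) c J =
      ∑ j ∈ J, (∑ i ∈ Finset.Ico (MM μ (up c j) (J.erase j)) (MM μ c J),
          (sd^[i] (TT v)) (ipt (up c j)) 1 (J.erase j) +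
        ∑ i ∈ Finset.Ico (MM μ c (J.erase j)) (MM μ c J),
          (sd^[i] (TT v)) (ipt c) 1 (J.erase j)) := by
    unfold fc dl
    rw [← Finset.sum_add_distrib]
    refine Finset.sum_congr rfl fun j hj => ?_
    rw [← DD_add_9379 v _ _ (MM_le1_9379 μ c J j hj), ← DD_add_9379 v _ _ (MM_le2_9379 μ c J j),
      ← ipt_up_9379]
    unfold ff
    abel
  rw [← h2]
  show tri v (ipt c) 1 J + bd (ff v μ c J) + dl (ff v μ) c J = _
  rw [h1]
  generalize tri v (ipt c) 1 J = A
  generalize (sd^[MM μ c J] (tri v)) (ipt c) 1 J = B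
  generalize fc (DD v (MM μ c J)) (ipt c) 1 J = C
  generalize dl (ff v μ) c J = D
  have : A + (A + B + C) + D = (A + A) + (B + (C + D)) := by abel
  rw [this, ch_add_self, zero_add]

end Pool.Agent.Helper286.Unst
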