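import Pool.Agent.Helper286.Unst.CubeE


namespace Pool.Agent.Helper286.Unst

/-- supported in a predicate -/
def SupIn (Q : Finset ℕ → Prop) (x : Ch) : Prop := ∀ σ ∈ x.support, Q σ

lemma SupIn.add {Q : Finset ℕ → Prop} {x y : Ch} (hx : SupIn Q x) (hy : SupIn Q y) :
    SupIn Q (x + y) := by
  classical
  intro σ hσ
  have := Finsupp.support_add hσ
  rw [Finset.mem_union] at this
  rcases this with h | h
  · exact hx σ h
  · exact hy σ h

lemma SupIn.sum {ι : Type} {Q : Finset ℕ → Prop} {s : Finset ι} {f : ι → Ch}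
    (h : ∀ i ∈ s, SupIn Q (f i)) : SupIn Q (∑ i ∈ s, f i) := by
  classical
  intro σ hσ
  have := Finsupp.support_finsetSum hσ
  rw [Finset.mem_biUnion] at this
  obtain ⟨i, hi, h1⟩ := this
  exact h i hi σ h1

lemma SupIn.mono {Q Q' : Finset ℕ → Prop} {x : Ch} (hx : SupIn Q x) (h : ∀ σ, Q σ → Q' σ) :
    SupIn Q' x := fun σ hσ => h σ (hx σ hσ)

lemma SupIn.cone {Q Q' : Finset ℕ → Prop} {x : Ch} {a : ℕ} (hx : SupIn Q x)
    (h : ∀ σ, Q σ → a ∉ σ → Q' (insert a σ)) : SupIn Q' (cone a x) := by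
  classical
  intro σ hσ
  rw [Unst.cone, Finsupp.linearCombination_apply, Finsupp.sum] at hσ
  have h1 := Finsupp.support_finsetSum hσ
  rw [Finset.mem_biUnion] at h1
  obtain ⟨σ', hσ', h2⟩ := h1
  have h3 := Finsupp.support_smul h2
  by_cases ha : a ∈ σ'
  · rw [if_pos ha] at h3
    simp at h3
  · rw [if_neg ha] at h3
    have h4 := Finsupp.support_single_subset h3
    rw [Finset.mem_singleton] at h4
    rw [h4]
    exact h σ' (hx σ' hσ') ha

/-- box with base `q0`, side `h`, directions `J` -/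
def Box (q0 : Pt) (h : ℝ) (J : Finset ℕ) (q : Pt) : Prop :=
  ∀ i, (i ∈ J → q0 i ≤ q i ∧ q i ≤ q0 i + h) ∧ (i ∉ J → q i = q0 i)

lemma Box.base (q : Pt) {h : ℝ} (hh : 0 ≤ h) (J : Finset ℕ) : Box q h J q :=
  fun _ => ⟨fun _ => ⟨le_rfl, by linarith⟩, fun _ => rfl⟩

lemma Box.face1 {q : Pt} {h : ℝ} (hh : 0 ≤ h) {J : Finset ℕ} {j : ℕ} (hj : j ∈ J) {q' : Pt}
    (hb : Box (shf q h {j}) h (J.erase j) q') : Box q h J q' := by
  intro i
  have h1 := hb i
  by_cases hij : i = j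
  · subst hij
    have h2 := h1.2 (by simp)
    simp only [shf, Finset.mem_singleton, if_true] at h2
    refine ⟨fun _ => ⟨by linarith, by linarith⟩, fun h => absurd hj h⟩
  · have h3 : shf q h {j} i = q i := by simp [shf, hij]
    rw [h3] at h1
    refine ⟨fun hi => h1.1 (Finset.mem_erase.mpr ⟨hij, hi⟩), fun hi => h1.2 ?_⟩
    intro h4
    exact hi (Finset.mem_of_mem_erase h4)

lemma Box.face0 {q : Pt} {h : ℝ} (hh : 0 ≤ h) {J : Finset ℕ} {j : ℕ} (hj : j ∈ J) {q' : Pt}
    (hb : Box q h (J.erase j) q') : Box q h J q' := by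
  intro i
  have h1 := hb i
  by_cases hij : i = j
  · subst hij
    have h2 := h1.2 (by simp)
    exact ⟨fun _ => ⟨by linarith, by linarith⟩, fun h => absurd hj h⟩
  · refine ⟨fun hi => h1.1 (Finset.mem_erase.mpr ⟨hij, hi⟩), fun hi => h1.2 ?_⟩
    intro h4
    exact hi (Finset.mem_of_mem_erase h4)

lemma Box.half {q : Pt} {h : ℝ} (hh : 0 ≤ h) {J J' : Finset ℕ} (hJ : J' ⊆ J) {q' : Pt}
    (hb : Box (shf q (h / 2) J') (h / 2) J q') : Box q h J q' := by
  intro i
  have h1 := hb i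
  by_cases hi' : i ∈ J'
  · have h3 : shf q (h / 2) J' i = q i + h / 2 := by simp [shf, hi']
    rw [h3] at h1
    refine ⟨fun hi => ?_, fun hi => absurd (hJ hi') hi⟩
    have := h1.1 hi
    constructor <;> linarith
  · have h3 : shf q (h / 2) J' i = q i := by simp [shf, hi']
    rw [h3] at h1
    refine ⟨fun hi => ?_, h1.2⟩
    have := h1.1 hi
    constructor <;> linarith

/-- labels in a box, prescribed cardinality -/
def Lab (v : Pt → ℕ) (q : Pt) (h : ℝ) (J : Finset ℕ) (m : ℕ) (σ : Finset ℕ) : Prop :=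
  σ.card = m ∧ ∀ n ∈ σ, ∃ q', Box q h J q' ∧ v q' = n

lemma Lab.insert {v : Pt → ℕ} {q : Pt} {h : ℝ} (hh : 0 ≤ h) {J : Finset ℕ} {m : ℕ} {σ : Finset ℕ}
    (hL : Lab v q h J m σ) (hv : v q ∉ σ) : Lab v q h J (m + 1) (insert (v q) σ) := by
  refine ⟨?_, ?_⟩
  · rw [Finset.card_insert_of_notMem hv, hL.1]
  · intro n hn
    rw [Finset.mem_insert] at hn
    rcases hn with rfl | hn
    · exact ⟨q, Box.base q hh J, rfl⟩
    · exact hL.2 n hn

lemma tri_sup (v : Pt → ℕ) (h : ℝ) (hh : 0 ≤ h) : ∀ (k : ℕ) (J : Finset ℕ), J.card = k →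
    ∀ q : Pt, SupIn (Lab v q h J (J.card + 1)) (tri v q h J) := by
  intro k
  induction k with
  | zero =>
    intro J hJ q
    have hJ0 : J = ∅ := Finset.card_eq_zero.mp hJ
    rw [tri_eq, if_pos hJ0]
    have h0 : SupIn (Lab v q h J 0) (sg ∅) := by
      intro σ hσ
      have := Finsupp.support_single_subset hσ
      rw [Finset.mem_singleton] at this
      rw [this]
      exact ⟨rfl, fun n hn => by simp at hn⟩
    rw [hJ]
    exact h0.cone fun σ hσ hv => hσ.insert hh hv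
  | succ k ih =>
    intro J hJ q
    have hJ0 : J ≠ ∅ := by
      rintro rfl
      simp at hJ
    rw [tri_eq, if_neg hJ0]
    have h0 : SupIn (Lab v q h J J.card) (∑ j ∈ J, tri v (shf q h {j}) h (J.erase j)) := by
      refine SupIn.sum fun j hj => ?_
      have hc : (J.erase j).card = k := by rw [Finset.card_erase_of_mem hj, hJ]; rfl
      refine (ih (J.erase j) hc (shf q h {j})).mono ?_
      rintro σ ⟨h1, h2⟩
      refine ⟨by rw [h1, hc, hJ], ?_⟩
      intro n hn
      obtain ⟨q', hq', hv⟩ := h2 n hn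
      exact ⟨q', Box.face1 hh hj hq', hv⟩
    exact h0.cone fun σ hσ hv => hσ.insert hh hv

lemma TT_sup (v : Pt → ℕ) (h : ℝ) (hh : 0 ≤ h) : ∀ (k : ℕ) (J : Finset ℕ), J.card = k →
    ∀ q : Pt, SupIn (Lab v q h J (J.card + 2)) (TT v q h J) := by
  intro k
  induction k using Nat.strong_induction_on with
  | _ k ih =>
    intro J hJ q
    rw [TT_eq]
    have h0 : SupIn (Lab v q h J (J.card + 1)) (tri v q h J + sd (tri v) q h J + fc (TT v) q h J) := by
      refine ((tri_sup v h hh _ J rfl q).add ?_).add ?_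
      · unfold sd
        refine SupIn.sum fun J' hJ' => ?_
        refine (tri_sup v (h / 2) (by linarith) _ J rfl _).mono ?_
        rintro σ ⟨h1, h2⟩
        refine ⟨h1, fun n hn => ?_⟩
        obtain ⟨q', hq', hv⟩ := h2 n hn
        exact ⟨q', Box.half hh (Finset.mem_powerset.mp hJ') hq', hv⟩
      · unfold fc
        refine SupIn.sum fun j hj => ?_
        have hc : (J.erase j).card + 1 = J.card := Finset.card_erase_add_one hj
        refine SupIn.add ?_ ?_
        · refine (ih (J.erase j).card (by omega) (J.erase j) rfl (shf q h {j})).mono ?_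
          rintro σ ⟨h1, h2⟩
          refine ⟨by omega, fun n hn => ?_⟩
          obtain ⟨q', hq', hv⟩ := h2 n hn
          exact ⟨q', Box.face1 hh hj hq', hv⟩
        · refine (ih (J.erase j).card (by omega) (J.erase j) rfl q).mono ?_
          rintro σ ⟨h1, h2⟩
          refine ⟨by omega, fun n hn => ?_⟩
          obtain ⟨q', hq', hv⟩ := h2 n hn
          exact ⟨q', Box.face0 hh hj hq', hv⟩
    exact h0.cone fun σ hσ hv => hσ.insert hh hv

lemma sd_iter_sup (f : Pt → ℝ → Finset ℕ → Ch) (J : Finset ℕ) (R : Pt → ℝ → Finset ℕ → Prop)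
    (hf : ∀ q h, 0 ≤ h → SupIn (R q h) (f q h J)) : ∀ (m : ℕ) (q : Pt) (h : ℝ), 0 ≤ h →
    SupIn (fun σ => ∃ q'', Box q h J q'' ∧ (∀ q', Box q'' (h / 2 ^ m) J q' → Box q h J q') ∧
      R q'' (h / 2 ^ m) σ) ((sd^[m] f) q h J) := by
  intro m
  induction m with
  | zero =>
    intro q h hh
    refine (hf q h hh).mono fun σ hσ => ⟨q, Box.base q hh J, ?_, ?_⟩
    · intro q' hq'
      simpa using hq'
    · simpa using hσ
  | succ m ih =>
    intro q h hh
    rw [Function.iterate_succ_apply']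
    unfold sd
    refine SupIn.sum fun J' hJ' => ?_
    refine (ih (shf q (h / 2) J') (h / 2) (by linarith)).mono ?_
    rintro σ ⟨q'', h1, h2, h3⟩
    have he : h / 2 / 2 ^ m = h / 2 ^ (m + 1) := by
      rw [pow_succ]
      field_simp
    rw [he] at h2 h3
    exact ⟨q'', Box.half hh (Finset.mem_powerset.mp hJ') h1,
      fun q' hq' => Box.half hh (Finset.mem_powerset.mp hJ') (h2 q' hq'), h3⟩

lemma fl_mem (c : ℕ → ℕ) (J : Finset ℕ) (q : Pt) (hq : InCube c J q) :
    ∃ J' ⊆ J, fl q = upS c J' := by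
  classical
  refine ⟨J.filter (fun l => q l = c l + 1), Finset.filter_subset _ _, ?_⟩
  funext i
  have h := hq i
  simp only [fl, upS, Finset.mem_filter]
  by_cases hi : i ∈ J
  · by_cases hq1 : q i = c i + 1
    · rw [if_pos ⟨hi, hq1⟩, hq1]
      have : ((c i : ℝ) + 1) = ((c i + 1 : ℕ) : ℝ) := by push_cast; ring
      rw [this, Nat.floor_natCast]
    · rw [if_neg (fun h => hq1 h.2)]
      obtain ⟨h1, h2⟩ := h.1 hi
      rw [Nat.floor_eq_iff (le_trans (Nat.cast_nonneg _) h1)]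
      exact ⟨h1, lt_of_le_of_ne h2 hq1⟩
  · rw [if_neg (fun h => hi h.1), h.2 hi, Nat.floor_natCast]

lemma mu_le (μ : (ℕ → ℕ) → ℕ) (c : ℕ → ℕ) (J : Finset ℕ) (q : Pt) (hq : InCube c J q) :
    μ (fl q) ≤ MM μ c J := by
  obtain ⟨J', hJ', h⟩ := fl_mem c J q hq
  rw [h]
  exact Finset.le_sup (f := fun J' => μ (upS c J')) (Finset.mem_powerset.mpr hJ')

/-- The conclusion. -/
def Concl (v : Pt → ℕ) (μ : (ℕ → ℕ) → ℕ) (c : ℕ → ℕ) (J : Finset ℕ) (σ : Finset ℕ) : Prop :=
  σ.card = J.card + 1 ∧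
      ∃ q, InCube c J q ∧ ∀ n ∈ σ, ∃ q', InCube c J q' ∧ v q' = n ∧
        ∀ i, |q i - q' i| ≤ (1 / 2 : ℝ) ^ (μ (fl q'))

lemma iter_concl (v : Pt → ℕ) (μ : (ℕ → ℕ) → ℕ) (c : ℕ → ℕ) (J : Finset ℕ)
    (c' : ℕ → ℕ) (J' : Finset ℕ) (hsub : ∀ q, InCube c' J' q → InCube c J q)
    (f : Pt → ℝ → Finset ℕ → Ch)
    (hf : ∀ q h, 0 ≤ h → SupIn (Lab v q h J' (J.card + 1)) (f q h J'))
    (m : ℕ) (hm : MM μ c' J' ≤ m) : SupIn (Concl v μ c J) ((sd^[m] f) (ipt c') 1 J') := by
  refine (sd_iter_sup f J' (fun q h => Lab v q h J' (J.card + 1)) hf m (ipt c') 1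
    zero_le_one).mono ?_
  rintro σ ⟨q'', h1, h2, h3, h4⟩
  refine ⟨h3, q'', hsub q'' h1, ?_⟩
  intro n hn
  obtain ⟨q', hq', hv⟩ := h4 n hn
  have hc : InCube c' J' q' := h2 q' hq'
  refine ⟨q', hsub q' hc, hv, ?_⟩
  have hmu : μ (fl q') ≤ m := (mu_le μ c' J' q' hc).trans hm
  have hpow : (1 / 2 : ℝ) ^ m ≤ (1 / 2 : ℝ) ^ (μ (fl q')) :=
    pow_le_pow_of_le_one (by norm_num) (by norm_num) hmu
  have he : (1 : ℝ) / 2 ^ m = (1 / 2 : ℝ) ^ m := by rw [div_pow, one_pow]
  intro i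
  refine le_trans ?_ hpow
  rw [← he]
  have h5 := hq' i
  by_cases hi : i ∈ J'
  · obtain ⟨h6, h7⟩ := h5.1 hi
    rw [abs_le]
    constructor <;> linarith
  · rw [h5.2 hi, sub_self, abs_zero]
    positivity

/-- TARGET -/
theorem ZZ_supp (v : Pt → ℕ) (μ : (ℕ → ℕ) → ℕ) (c : ℕ → ℕ) (J : Finset ℕ) :
    ∀ σ ∈ (ZZ v μ c J).support, σ.card = J.card + 1 ∧
      ∃ q, InCube c J q ∧ ∀ n ∈ σ, ∃ q', InCube c J q' ∧ v q' = n ∧
        ∀ i, |q i - q' i| ≤ (1 / 2 : ℝ) ^ (μ (fl q')) := by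
  have key : SupIn (Concl v μ c J) (ZZ v μ c J) := by
    rw [ZZ_alt]
    refine SupIn.add ?_ ?_
    · exact iter_concl v μ c J c J (fun q hq => hq) (tri v)
        (fun q h hh => tri_sup v h hh _ J rfl q) _ le_rfl
    · refine SupIn.sum fun j hj => ?_
      have hc : (J.erase j).card + 1 = J.card := Finset.card_erase_add_one hj
      have hTT : ∀ q h, 0 ≤ h →
          SupIn (Lab v q h (J.erase j) (J.card + 1)) (TT v q h (J.erase j)) := by
        intro q h hh
        have := TT_sup v h hh _ (J.erase j) rfl q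
        rw [show (J.erase j).card + 2 = J.card + 1 by omega] at this
        exact this
      refine SupIn.add (SupIn.sum fun i hi => ?_) (SupIn.sum fun i hi => ?_)
      · refine iter_concl v μ c J (up c j) (J.erase j) ?_ (TT v) hTT i (Finset.mem_Ico.mp hi).1
        intro q hq l
        have h1 := hq l
        by_cases hlj : l = j
        · subst hlj
          have h2 := h1.2 (by simp)
          have h3 : up c l l = c l + 1 := by simp [up]
          rw [h3] at h2
          push_cast at h2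
          refine ⟨fun _ => ⟨by linarith, by linarith⟩, fun h => absurd hj h⟩
        · have h3 : up c j l = c l := by simp [up, hlj]
          rw [h3] at h1
          refine ⟨fun hl => h1.1 (Finset.mem_erase.mpr ⟨hlj, hl⟩), fun hl => h1.2 ?_⟩
          intro h4
          exact hl (Finset.mem_of_mem_erase h4)
      · refine iter_concl v μ c J c (J.erase j) ?_ (TT v) hTT i (Finset.mem_Ico.mp hi).1
        intro q hq
        exact Box.face0 (q := ipt c) zero_le_one hj hq
  exact key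

end Pool.Agent.Helper286.Unst
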