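import Pool.Agent.Helper286.Unst.CubeE


namespace Pool.Agent.Helper286.Unst

/-- Closed box with base corner q, side h and directions J. -/
def Bx (q : Pt) (h : ℝ) (J : Finset ℕ) : Set Pt :=
  {p | ∀ l, (l ∈ J → q l ≤ p l ∧ p l ≤ q l + h) ∧ (l ∉ J → p l = q l)}

lemma Bx_self (q : Pt) {h : ℝ} (hh : 0 ≤ h) (J : Finset ℕ) : q ∈ Bx q h J :=
  fun l => ⟨fun _ => ⟨le_rfl, by linarith⟩, fun _ => rfl⟩

lemma Bx_erase (q : Pt) {h : ℝ} (hh : 0 ≤ h) (J : Finset ℕ) (j : ℕ) :
    Bx q h (J.erase j) ⊆ Bx q h J := by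
  intro p hp l
  refine ⟨fun hl => ?_, fun hl => (hp l).2 (fun h' => hl (Finset.mem_of_mem_erase h'))⟩
  by_cases hlj : l = j
  · have := (hp l).2 (by rw [hlj]; exact Finset.notMem_erase j J)
    rw [this]
    exact ⟨le_rfl, by linarith⟩
  · exact (hp l).1 (Finset.mem_erase.2 ⟨hlj, hl⟩)

lemma Bx_shf (q : Pt) {h : ℝ} (hh : 0 ≤ h) {J : Finset ℕ} {j : ℕ} (hj : j ∈ J) :
    Bx (shf q h {j}) h (J.erase j) ⊆ Bx q h J := by
  intro p hp l
  by_cases hlj : l = j
  · subst hlj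
    have h1 := (hp l).2 (Finset.notMem_erase l J)
    have h2 : shf q h {l} l = q l + h := by simp [shf]
    rw [h2] at h1
    exact ⟨fun _ => ⟨by rw [h1]; linarith, h1.le⟩, fun h' => absurd hj h'⟩
  · have h2 : shf q h {j} l = q l := by simp [shf, hlj]
    have h3 := hp l
    rw [h2] at h3
    exact ⟨fun hl => h3.1 (Finset.mem_erase.2 ⟨hlj, hl⟩),
      fun hl => h3.2 (fun h' => hl (Finset.mem_of_mem_erase h'))⟩

lemma Bx_half (q : Pt) {h : ℝ} (hh : 0 ≤ h) {J J' : Finset ℕ} (hJ : J' ⊆ J) :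
    Bx (shf q (h / 2) J') (h / 2) J ⊆ Bx q h J := by
  intro p hp l
  have h3 := hp l
  by_cases hl' : l ∈ J'
  · have h2 : shf q (h / 2) J' l = q l + h / 2 := by simp [shf, hl']
    rw [h2] at h3
    refine ⟨fun hl => ?_, fun hl => absurd (hJ hl') hl⟩
    obtain ⟨h4, h5⟩ := h3.1 hl
    exact ⟨by linarith, by linarith⟩
  · have h2 : shf q (h / 2) J' l = q l := by simp [shf, hl']
    rw [h2] at h3
    refine ⟨fun hl => ?_, h3.2⟩
    obtain ⟨h4, h5⟩ := h3.1 hl
    exact ⟨by linarith, by linarith⟩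

lemma shf_add (q w : Pt) (h : ℝ) (J : Finset ℕ) : shf (q + w) h J = shf q h J + w := by
  funext l
  by_cases hl : l ∈ J
  · simp [shf, hl]; ring
  · simp [shf, hl]

/-- Congruence property. -/
def Cg (v : Pt → ℕ) (f : Pt → ℝ → Finset ℕ → Ch) : Prop :=
  ∀ (w q : Pt) (h : ℝ) (J : Finset ℕ), 0 ≤ h → (∀ p ∈ Bx q h J, v (p + w) = v p) →
    f (q + w) h J = f q h J

lemma Cg_tri (v : Pt → ℕ) : Cg v (tri v) := by
  have key : ∀ n : ℕ, ∀ (w q : Pt) (h : ℝ) (J : Finset ℕ), J.card = n → 0 ≤ h →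
      (∀ p ∈ Bx q h J, v (p + w) = v p) → tri v (q + w) h J = tri v q h J := by
    intro n
    induction n with
    | zero =>
      intro w q h J hJ hh hp
      have : J = ∅ := Finset.card_eq_zero.1 hJ
      rw [tri_eq, tri_eq v q, if_pos this, if_pos this, hp q (Bx_self q hh J)]
    | succ n ih =>
      intro w q h J hJ hh hp
      have hne : J ≠ ∅ := by
        intro h'; rw [h', Finset.card_empty] at hJ; omega
      rw [tri_eq, tri_eq v q, if_neg hne, if_neg hne, hp q (Bx_self q hh J)]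
      congr 1
      refine Finset.sum_congr rfl fun j hj => ?_
      rw [shf_add]
      apply ih w _ h _ _ hh
      · intro p hp'
        exact hp p (Bx_shf q hh hj hp')
      · rw [Finset.card_erase_of_mem hj, hJ]; rfl
  intro w q h J hh hp
  exact key J.card w q h J rfl hh hp

lemma Cg_sd {v : Pt → ℕ} {f : Pt → ℝ → Finset ℕ → Ch} (hf : Cg v f) : Cg v (sd f) := by
  intro w q h J hh hp
  unfold sd
  refine Finset.sum_congr rfl fun J' hJ' => ?_
  rw [shf_add]
  apply hf w _ _ _ (by linarith)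
  intro p hp'
  exact hp p (Bx_half q hh (Finset.mem_powerset.1 hJ') hp')

lemma Cg_TT (v : Pt → ℕ) : Cg v (TT v) := by
  have key : ∀ n : ℕ, ∀ (w q : Pt) (h : ℝ) (J : Finset ℕ), J.card = n → 0 ≤ h →
      (∀ p ∈ Bx q h J, v (p + w) = v p) → TT v (q + w) h J = TT v q h J := by
    intro n
    induction n with
    | zero =>
      intro w q h J hJ hh hp
      have : J = ∅ := Finset.card_eq_zero.1 hJ
      rw [TT_eq, TT_eq v q, hp q (Bx_self q hh J), Cg_tri v w q h J hh hp,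
        Cg_sd (Cg_tri v) w q h J hh hp]
      unfold fc
      rw [this, Finset.sum_empty, Finset.sum_empty]
    | succ n ih =>
      intro w q h J hJ hh hp
      rw [TT_eq, TT_eq v q, hp q (Bx_self q hh J), Cg_tri v w q h J hh hp,
        Cg_sd (Cg_tri v) w q h J hh hp]
      congr 2
      unfold fc
      refine Finset.sum_congr rfl fun j hj => ?_
      have hc : (J.erase j).card = n := by
        rw [Finset.card_erase_of_mem hj, hJ]; rfl
      rw [shf_add]
      rw [ih w (shf q h {j}) h (J.erase j) hc hh (fun p hp' => hp p (Bx_shf q hh hj hp')),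
        ih w q h (J.erase j) hc hh (fun p hp' => hp p (Bx_erase q hh J j hp'))]
  intro w q h J hh hp
  exact key J.card w q h J rfl hh hp

lemma Cg_iter {v : Pt → ℕ} {f : Pt → ℝ → Finset ℕ → Ch} (hf : Cg v f) (k : ℕ) :
    Cg v (sd^[k] f) := by
  induction k with
  | zero => exact hf
  | succ k ih =>
    rw [Function.iterate_succ']
    exact Cg_sd ih

lemma Cg_DD (v : Pt → ℕ) (m : ℕ) : Cg v (DD v m) := by
  intro w q h J hh hp
  unfold DD
  exact Finset.sum_congr rfl fun k _ => Cg_iter (Cg_TT v) k w q h J hh hp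

/-- Vanishing property. -/
def Vn (v : Pt → ℕ) (f : Pt → ℝ → Finset ℕ → Ch) : Prop :=
  ∀ (q : Pt) (h : ℝ) (J : Finset ℕ) (i : ℕ), 0 ≤ h → i ∈ J →
    (∀ p ∈ Bx q h J, ∀ p' ∈ Bx q h J, (∀ l, l ≠ i → p l = p' l) → v p = v p') → f q h J = 0

lemma shf_mem (q : Pt) {h : ℝ} (hh : 0 ≤ h) {J : Finset ℕ} {i : ℕ} (hi : i ∈ J) :
    shf q h {i} ∈ Bx q h J :=
  Bx_shf q hh hi (Bx_self _ hh _)

lemma shf_ne (q : Pt) (h : ℝ) (i l : ℕ) (hl : l ≠ i) : shf q h {i} l = q l := by
  simp [shf, hl]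

lemma Vn_tri (v : Pt → ℕ) : Vn v (tri v) := by
  have key : ∀ n : ℕ, ∀ (q : Pt) (h : ℝ) (J : Finset ℕ) (i : ℕ), J.card = n → 0 ≤ h → i ∈ J →
      (∀ p ∈ Bx q h J, ∀ p' ∈ Bx q h J, (∀ l, l ≠ i → p l = p' l) → v p = v p') →
      tri v q h J = 0 := by
    intro n
    induction n with
    | zero =>
      intro q h J i hJ hh hi hp
      rw [Finset.card_eq_zero.1 hJ] at hi
      exact absurd hi (Finset.notMem_empty i)
    | succ n ih =>
      intro q h J i hJ hh hi hp
      have hne : J ≠ ∅ := Finset.ne_empty_of_mem hi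
      rw [tri_eq, if_neg hne, Finset.sum_eq_single i]
      · have h1 : v (shf q h {i}) = v q :=
          hp _ (shf_mem q hh hi) q (Bx_self q hh J) (fun l hl => shf_ne q h i l hl)
        rw [tri_eq, h1, cone_cone]
      · intro j hj hji
        apply ih _ h _ i _ hh (Finset.mem_erase.2 ⟨hji.symm, hi⟩)
        · intro p hp1 p' hp2 hl
          exact hp p (Bx_shf q hh hj hp1) p' (Bx_shf q hh hj hp2) hl
        · rw [Finset.card_erase_of_mem hj, hJ]; rfl
      · intro h'; exact absurd hi h'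
  intro q h J i hh hi hp
  exact key J.card q h J i rfl hh hi hp

lemma Vn_sd {v : Pt → ℕ} {f : Pt → ℝ → Finset ℕ → Ch} (hf : Vn v f) : Vn v (sd f) := by
  intro q h J i hh hi hp
  unfold sd
  refine Finset.sum_eq_zero fun J' hJ' => ?_
  have hs := Bx_half q hh (Finset.mem_powerset.1 hJ')
  exact hf _ _ _ i (by linarith) hi (fun p hp1 p' hp2 hl => hp p (hs hp1) p' (hs hp2) hl)

lemma shf_single_eq (q : Pt) (h : ℝ) (i : ℕ) :
    shf q h {i} = q + (fun l => if l = i then h else 0) := by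
  funext l
  by_cases hl : l = i
  · subst hl; simp [shf]
  · simp [shf, hl]

lemma add_mem_Bx (q : Pt) {h : ℝ} (hh : 0 ≤ h) {J : Finset ℕ} {i : ℕ} (hi : i ∈ J) {p : Pt}
    (hp : p ∈ Bx q h (J.erase i)) : p + (fun l => if l = i then h else 0) ∈ Bx q h J := by
  intro l
  by_cases hl : l = i
  · subst hl
    have h1 := (hp l).2 (Finset.notMem_erase l J)
    have h2 : (p + (fun l' => if l' = l then h else 0)) l = q l + h := by
      simp [h1]
    rw [h2]
    exact ⟨fun _ => ⟨by linarith, le_rfl⟩, fun h' => absurd hi h'⟩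
  · have h2 : (p + (fun l' => if l' = i then h else 0)) l = p l := by
      simp [hl]
    rw [h2]
    exact ⟨fun h' => (hp l).1 (Finset.mem_erase.2 ⟨hl, h'⟩),
      fun h' => (hp l).2 (fun h'' => h' (Finset.mem_of_mem_erase h''))⟩

lemma Vn_cong {v : Pt → ℕ} {q : Pt} {h : ℝ} {J : Finset ℕ} {i : ℕ} (hh : 0 ≤ h) (hi : i ∈ J)
    (hp : ∀ p ∈ Bx q h J, ∀ p' ∈ Bx q h J, (∀ l, l ≠ i → p l = p' l) → v p = v p') :
    ∀ p ∈ Bx q h (J.erase i), v (p + (fun l => if l = i then h else 0)) = v p := by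
  intro p hp'
  apply hp _ (add_mem_Bx q hh hi hp') p (Bx_erase q hh J i hp')
  intro l hl
  simp [hl]

lemma Vn_TT (v : Pt → ℕ) : Vn v (TT v) := by
  have key : ∀ n : ℕ, ∀ (q : Pt) (h : ℝ) (J : Finset ℕ) (i : ℕ), J.card = n → 0 ≤ h → i ∈ J →
      (∀ p ∈ Bx q h J, ∀ p' ∈ Bx q h J, (∀ l, l ≠ i → p l = p' l) → v p = v p') →
      TT v q h J = 0 := by
    intro n
    induction n with
    | zero =>
      intro q h J i hJ hh hi hp
      rw [Finset.card_eq_zero.1 hJ] at hi
      exact absurd hi (Finset.notMem_empty i)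
    | succ n ih =>
      intro q h J i hJ hh hi hp
      have hfc : fc (TT v) q h J = 0 := by
        unfold fc
        refine Finset.sum_eq_zero fun j hj => ?_
        by_cases hji : j = i
        · subst hji
          rw [shf_single_eq, Cg_TT v _ q h (J.erase j) hh (Vn_cong hh hj hp), ch_add_self]
        · have hc : (J.erase j).card = n := by
            rw [Finset.card_erase_of_mem hj, hJ]; rfl
          have hi' : i ∈ J.erase j := Finset.mem_erase.2 ⟨fun h' => hji h'.symm, hi⟩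
          rw [ih _ h _ i hc hh hi' (fun p hp1 p' hp2 hl =>
              hp p (Bx_shf q hh hj hp1) p' (Bx_shf q hh hj hp2) hl),
            ih q h _ i hc hh hi' (fun p hp1 p' hp2 hl =>
              hp p (Bx_erase q hh J j hp1) p' (Bx_erase q hh J j hp2) hl), add_zero]
      rw [TT_eq, Vn_tri v q h J i hh hi hp, Vn_sd (Vn_tri v) q h J i hh hi hp, hfc]
      simp
  intro q h J i hh hi hp
  exact key J.card q h J i rfl hh hi hp

lemma Vn_iter {v : Pt → ℕ} {f : Pt → ℝ → Finset ℕ → Ch} (hf : Vn v f) (k : ℕ) :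
    Vn v (sd^[k] f) := by
  induction k with
  | zero => exact hf
  | succ k ih =>
    rw [Function.iterate_succ']
    exact Vn_sd ih

lemma Vn_DD (v : Pt → ℕ) (m : ℕ) : Vn v (DD v m) := by
  intro q h J i hh hi hp
  unfold DD
  exact Finset.sum_eq_zero fun k _ => Vn_iter (Vn_TT v) k q h J i hh hi hp

lemma InCube_iff (c : ℕ → ℕ) (J : Finset ℕ) (q : Pt) : InCube c J q ↔ q ∈ Bx (ipt c) 1 J :=
  Iff.rfl

lemma ipt_up (c : ℕ → ℕ) (j : ℕ) : ipt (up c j) = shf (ipt c) 1 {j} := by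
  funext l
  by_cases hl : l = j
  · subst hl; simp [ipt, up, shf]
  · simp [ipt, up, shf, hl]

lemma upS_up (c : ℕ → ℕ) {j : ℕ} {J' : Finset ℕ} (hj : j ∉ J') :
    upS (up c j) J' = upS c (insert j J') := by
  funext l
  by_cases hl : l = j
  · subst hl; simp [upS, up, hj]
  · by_cases hl' : l ∈ J'
    · simp [upS, up, hl, hl']
    · simp [upS, up, hl, hl']

lemma ff_congr (v : Pt → ℕ) (μ : (ℕ → ℕ) → ℕ) (a a' : ℕ → ℕ) (w : Pt) (J : Finset ℕ)
    (ha : ipt a' = ipt a + w) (hv : ∀ p ∈ Bx (ipt a) 1 J, v (p + w) = v p)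
    (hμ : ∀ J' ⊆ J, μ (upS a' J') = μ (upS a J')) : ff v μ a' J = ff v μ a J := by
  have hM : MM μ a' J = MM μ a J := by
    unfold MM
    exact Finset.sup_congr rfl fun J' hJ' => hμ J' (Finset.mem_powerset.1 hJ')
  unfold ff
  rw [hM, ha]
  exact Cg_DD v _ w _ 1 J zero_le_one hv

/-- TARGET -/
theorem ZZ_congr (v : Pt → ℕ) (μ : (ℕ → ℕ) → ℕ) (c c' : ℕ → ℕ) (J : Finset ℕ)
    (hv : ∀ q, InCube c J q → v (q + (ipt c' - ipt c)) = v q)
    (hμ : ∀ J' ⊆ J, μ (upS c' J') = μ (upS c J')) :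
    ZZ v μ c' J = ZZ v μ c J := by
  obtain ⟨w, hw⟩ : ∃ w : Pt, w = ipt c' - ipt c := ⟨_, rfl⟩
  rw [← hw] at hv
  have hc' : ipt c' = ipt c + w := by rw [hw]; exact (add_sub_cancel (ipt c) (ipt c')).symm
  have hv' : ∀ p ∈ Bx (ipt c) 1 J, v (p + w) = v p := hv
  have h1 : tri v (ipt c') 1 J = tri v (ipt c) 1 J := by
    rw [hc']
    exact Cg_tri v w (ipt c) 1 J zero_le_one hv'
  have h2 : ff v μ c' J = ff v μ c J := ff_congr v μ c c' w J hc' hv' hμ
  have h3 : dl (ff v μ) c' J = dl (ff v μ) c J := by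
    unfold dl
    refine Finset.sum_congr rfl fun j hj => ?_
    have h4 : ff v μ (up c' j) (J.erase j) = ff v μ (up c j) (J.erase j) := by
      apply ff_congr v μ (up c j) (up c' j) w (J.erase j)
      · rw [ipt_up, ipt_up, ← shf_add, hc']
      · intro p hp
        rw [ipt_up] at hp
        exact hv' p (Bx_shf (ipt c) zero_le_one hj hp)
      · intro J' hJ'
        have hjJ' : j ∉ J' := fun h' => Finset.notMem_erase j J (hJ' h')
        rw [upS_up c' hjJ', upS_up c hjJ']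
        apply hμ
        rw [Finset.insert_subset_iff]
        exact ⟨hj, hJ'.trans (Finset.erase_subset j J)⟩
    have h5 : ff v μ c' (J.erase j) = ff v μ c (J.erase j) := by
      apply ff_congr v μ c c' w (J.erase j) hc'
      · intro p hp
        exact hv' p (Bx_erase (ipt c) zero_le_one J j hp)
      · intro J' hJ'
        exact hμ J' (hJ'.trans (Finset.erase_subset j J))
    rw [h4, h5]
  unfold ZZ
  rw [h1, h2, h3]

/-- TARGET -/
theorem ZZ_van (v : Pt → ℕ) (μ : (ℕ → ℕ) → ℕ) (c : ℕ → ℕ) (J : Finset ℕ) (i : ℕ) (hi : i ∈ J)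
    (hv : ∀ q q', InCube c J q → InCube c J q' → (∀ l, l ≠ i → q l = q' l) → v q = v q')
    (hμ : ∀ J' ⊆ J.erase i, μ (upS (up c i) J') = μ (upS c J')) :
    ZZ v μ c J = 0 := by
  have hp : ∀ p ∈ Bx (ipt c) 1 J, ∀ p' ∈ Bx (ipt c) 1 J, (∀ l, l ≠ i → p l = p' l) →
      v p = v p' := fun p hp1 p' hp2 hl => hv p p' hp1 hp2 hl
  unfold ZZ
  have h1 : tri v (ipt c) 1 J = 0 := Vn_tri v _ 1 J i zero_le_one hi hp
  have h2 : ff v μ c J = 0 := Vn_DD v _ _ 1 J i zero_le_one hi hp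
  rw [h1, h2, map_zero, zero_add, zero_add]
  unfold dl
  refine Finset.sum_eq_zero fun j hj => ?_
  by_cases hji : j = i
  · subst hji
    have h3 : ff v μ (up c j) (J.erase j) = ff v μ c (J.erase j) := by
      apply ff_congr v μ c (up c j) (fun l => if l = j then 1 else 0) (J.erase j)
      · rw [ipt_up, shf_single_eq]
      · exact Vn_cong zero_le_one hj hp
      · exact hμ
    rw [h3, ch_add_self]
  · have hi' : i ∈ J.erase j := Finset.mem_erase.2 ⟨fun h' => hji h'.symm, hi⟩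
    have h3 : ff v μ (up c j) (J.erase j) = 0 := by
      refine Vn_DD v _ _ 1 (J.erase j) i zero_le_one hi' ?_
      intro p hp1 p' hp2 hl
      rw [ipt_up] at hp1 hp2
      exact hp p (Bx_shf (ipt c) zero_le_one hj hp1) p' (Bx_shf (ipt c) zero_le_one hj hp2) hl
    have h4 : ff v μ c (J.erase j) = 0 := by
      refine Vn_DD v _ _ 1 (J.erase j) i zero_le_one hi' ?_
      intro p hp1 p' hp2 hl
      exact hp p (Bx_erase (ipt c) zero_le_one J j hp1) p'
        (Bx_erase (ipt c) zero_le_one J j hp2) hl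
    rw [h3, h4, add_zero]

end Pool.Agent.Helper286.Unst
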