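import Mathlib


namespace Pool.Agent.Helper286.Unst

/-- The point a is homotopically unstable in M. -/
def HomotopicallyUnstable (M : Type) [MetricSpace M] (a : M) : Prop :=
  ∀ ε : ℝ, 0 < ε → ∃ h : M × unitInterval → M, Continuous h ∧
    ∀ x : M, h (x, 0) = x ∧ (∀ t, dist x (h (x, t)) < ε) ∧ h (x, 1) ≠ a

/-- Condition (H). -/
def CondH (M : Type) [MetricSpace M] (a : M) : Prop :=
  ∃ f : M × unitInterval → M, Continuous f ∧ (∀ x, f (x, 0) = x) ∧
    ∀ t : unitInterval, 0 < t → ∀ x, f (x, t) ≠ a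

/-- Condition (R): a retraction of M x I onto M x {0} with the preimage of (a,0) a single point. -/
def CondR (M : Type) [MetricSpace M] (a : M) : Prop :=
  ∃ r : M × unitInterval → M × unitInterval, Continuous r ∧ (∀ z, (r z).2 = 0) ∧
    (∀ x, r (x, 0) = (x, 0)) ∧ r ⁻¹' {(a, 0)} = {(a, 0)}

end Pool.Agent.Helper286.Unst
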