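import Pool.Agent.Helper286.Unst.CubeDefs


namespace Pool.Agent.Helper286.Unst

/-- Every point that is close to p in the first k coordinates lies in V n. -/
def Qn (V : ℕ → Set Pt) (k : ℕ) (p : Pt) (m n : ℕ) : Prop :=
  ∀ y : Pt, (∀ i < k, |y i - p i| ≤ (1 / 2 : ℝ) ^ m) → y ∈ V n

/-- Terminal nodes. -/
def Tm (V : ℕ → Set Pt) (k : ℕ) (c : ℕ → ℕ) (r : ℕ) : Prop :=
  ∃ m, ∀ p : Pt, (∀ i < k, (c i : ℝ) ≤ p i ∧ p i ≤ c i + r) → ∃ n, Qn V k p m n

open Classical in
/-- Least terminal level. -/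
noncomputable def kap (V : ℕ → Set Pt) (c : ℕ → ℕ) : ℕ :=
  if h : ∃ k, Tm V k c 1 then Nat.find h else 0

open Classical in
/-- Least mesh exponent. -/
noncomputable def muu (V : ℕ → Set Pt) (c : ℕ → ℕ) : ℕ :=
  if h : ∃ m, ∀ p : Pt, (∀ i < kap V c, (c i : ℝ) ≤ p i ∧ p i ≤ c i + 1) →
    ∃ n, Qn V (kap V c) p m n then Nat.find h else 0

open Classical in
/-- The label of a point. -/
noncomputable def lab (V : ℕ → Set Pt) (p : Pt) : ℕ :=
  if h : ∃ n, Qn V (kap V (fl p)) p (muu V (fl p)) n then Nat.find h else 0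

/-- The link of the vertex 0. -/
noncomputable def lk0 : Ch →ₗ[ZMod 2] Ch :=
  Finsupp.linearCombination (ZMod 2) (fun σ : Finset ℕ => if 0 ∈ σ then sg (σ.erase 0) else 0)

/-- The chain attached to a cube with coordinate 0 running over the unit interval. -/
noncomputable def zz (V : ℕ → Set Pt) (c : ℕ → ℕ) (J : Finset ℕ) : Ch :=
  lk0 (ZZ (lab V) (muu V) (Function.update c 0 0) (insert 0 J))

end Pool.Agent.Helper286.Unst
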