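import Pool.Agent.Helper286.Unst.LabDefs


namespace Pool.Agent.Helper286.Unst

/-- TARGET -/
theorem Tm_loc (V : ℕ → Set Pt) (k : ℕ) (c c' : ℕ → ℕ) (r : ℕ) (h : ∀ i < k, c i = c' i)
    (hT : Tm V k c r) : Tm V k c' r := by
  obtain ⟨m, hm⟩ := hT
  exact ⟨m, fun p hp => hm p (fun i hi => by rw [h i hi]; exact hp i hi)⟩

/-- TARGET -/
theorem Tm_mono (V : ℕ → Set Pt) (k : ℕ) (c : ℕ → ℕ) (r : ℕ) (hT : Tm V k c r) :
    Tm V (k + 1) c r := by
  obtain ⟨m, hm⟩ := hT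
  refine ⟨m, fun p hp => ?_⟩
  obtain ⟨n, hn⟩ := hm p (fun i hi => hp i (by omega))
  exact ⟨n, fun y hy => hn y (fun i hi => hy i (by omega))⟩

/-- TARGET -/
theorem Tm_sub (V : ℕ → Set Pt) (k : ℕ) (c c' : ℕ → ℕ) (r r' : ℕ)
    (h : ∀ i < k, c i ≤ c' i ∧ c' i + r' ≤ c i + r) (hT : Tm V k c r) : Tm V k c' r' := by
  obtain ⟨m, hm⟩ := hT
  refine ⟨m, fun p hp => hm p (fun i hi => ?_)⟩
  have h1 : (c i : ℝ) ≤ c' i := by exact_mod_cast (h i hi).1
  have h2 : (c' i : ℝ) + r' ≤ c i + r := by exact_mod_cast (h i hi).2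
  exact ⟨h1.trans (hp i hi).1, (hp i hi).2.trans h2⟩

theorem Tm_ex_aux (V : ℕ → Set Pt) (hopen : ∀ n, IsOpen (V n)) (hcov : ∀ y, ∃ n, y ∈ V n)
    (p : Pt) : ∃ k m n : ℕ, ∀ y : Pt, (∀ i < k, |y i - p i| ≤ 2 * (1 / 2 : ℝ) ^ m) → y ∈ V n := by
  obtain ⟨n, hn⟩ := hcov p
  obtain ⟨I, u, hu, hsub⟩ := isOpen_pi_iff.1 (hopen n) p hn
  have hev : ∀ᶠ m : ℕ in Filter.atTop, ∀ a ∈ I, ∀ z : ℝ, |z - p a| ≤ 2 * (1 / 2 : ℝ) ^ m →
      z ∈ u a := by
    rw [Filter.eventually_all_finset]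
    intro a ha
    obtain ⟨ε, hε, hball⟩ := Metric.isOpen_iff.1 (hu a ha).1 (p a) (hu a ha).2
    have ht : Filter.Tendsto (fun m : ℕ => 2 * (1 / 2 : ℝ) ^ m) Filter.atTop (nhds 0) := by
      have := (tendsto_pow_atTop_nhds_zero_of_lt_one (by norm_num : (0 : ℝ) ≤ 1 / 2)
        (by norm_num)).const_mul 2
      simpa using this
    filter_upwards [ht.eventually_lt_const hε] with m hm z hz
    apply hball
    rw [Metric.mem_ball, Real.dist_eq]
    exact hz.trans_lt hm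
  obtain ⟨m, hm⟩ := hev.exists
  refine ⟨I.sup id + 1, m, n, fun y hy => hsub ?_⟩
  intro a ha
  have ha' : a ∈ I := by simpa using ha
  exact hm a ha' _ (hy a (Nat.lt_succ_of_le (Finset.le_sup (f := id) ha')))

/-- TARGET -/
theorem Tm_ex (V : ℕ → Set Pt) (hopen : ∀ n, IsOpen (V n)) (hcov : ∀ y, ∃ n, y ∈ V n)
    (c : ℕ → ℕ) (r : ℕ) : ∃ k, Tm V k c r := by
  classical
  choose kk mm nn hh using Tm_ex_aux V hopen hcov
  have hK : IsCompact (Set.pi Set.univ (fun i : ℕ => Set.Icc (c i : ℝ) (c i + r))) :=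
    isCompact_univ_pi (fun i => isCompact_Icc)
  obtain ⟨t, -, ht⟩ := hK.elim_nhds_subcover
    (fun p => {y : Pt | ∀ i < kk p, |y i - p i| < (1 / 2 : ℝ) ^ (mm p)}) (by
      intro p _
      have h1 : {y : Pt | ∀ i < kk p, |y i - p i| < (1 / 2 : ℝ) ^ (mm p)} =
          ⋂ i ∈ Finset.range (kk p), {y : Pt | |y i - p i| < (1 / 2 : ℝ) ^ (mm p)} := by
        ext y
        simp
      apply IsOpen.mem_nhds
      · rw [h1]
        apply isOpen_biInter_finset
        intro i _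
        exact isOpen_lt (by fun_prop) continuous_const
      · intro i _
        simp)
  refine ⟨t.sup kk, t.sup mm, fun p hp => ?_⟩
  have hp' : (fun i => if i < t.sup kk then p i else (c i : ℝ)) ∈
      Set.pi Set.univ (fun i : ℕ => Set.Icc (c i : ℝ) (c i + r)) := by
    intro i _
    by_cases hi : i < t.sup kk
    · simp only [hi, if_true]
      exact hp i hi
    · simp only [hi, if_false]
      exact ⟨le_rfl, by simp⟩
  obtain ⟨j, hj, hjy⟩ := Set.mem_iUnion₂.1 (ht hp')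
  refine ⟨nn j, fun y hy => hh j y (fun i hi => ?_)⟩
  have hik : i < t.sup kk := hi.trans_le (Finset.le_sup hj)
  have h1 := hjy i hi
  simp only [hik, if_true] at h1
  have h2 := hy i hik
  have h3 : (1 / 2 : ℝ) ^ (t.sup mm) ≤ (1 / 2 : ℝ) ^ (mm j) :=
    pow_le_pow_of_le_one (by norm_num) (by norm_num) (Finset.le_sup hj)
  calc |y i - j i| = |(y i - p i) + (p i - j i)| := by ring_nf
    _ ≤ |y i - p i| + |p i - j i| := abs_add_le _ _
    _ ≤ 2 * (1 / 2 : ℝ) ^ (mm j) := by linarith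

theorem kap_spec (V : ℕ → Set Pt) (hopen : ∀ n, IsOpen (V n)) (hcov : ∀ y, ∃ n, y ∈ V n)
    (c : ℕ → ℕ) : Tm V (kap V c) c 1 := by
  classical
  have h := Tm_ex V hopen hcov c 1
  unfold kap
  rw [dif_pos h]
  exact Nat.find_spec h

theorem kap_min (V : ℕ → Set Pt) (c : ℕ → ℕ) (k : ℕ) (hT : Tm V k c 1) : kap V c ≤ k := by
  classical
  unfold kap
  rw [dif_pos ⟨k, hT⟩]
  exact Nat.find_min' _ hT

open Classical in
/-- least number with a property -/
noncomputable def fnd (P : ℕ → Prop) : ℕ := if h : ∃ m, P m then Nat.find h else 0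

theorem fnd_spec {P : ℕ → Prop} (h : ∃ m, P m) : P (fnd P) := by
  classical
  unfold fnd
  rw [dif_pos h]
  exact Nat.find_spec h

theorem muu_eq (V : ℕ → Set Pt) (c : ℕ → ℕ) : muu V c = fnd (fun m => ∀ p : Pt,
    (∀ i < kap V c, (c i : ℝ) ≤ p i ∧ p i ≤ c i + 1) → ∃ n, Qn V (kap V c) p m n) := rfl

theorem lab_eq (V : ℕ → Set Pt) (p : Pt) :
    lab V p = fnd (fun n => Qn V (kap V (fl p)) p (muu V (fl p)) n) := rfl

/-- TARGET -/
theorem lab_spec (V : ℕ → Set Pt) (hopen : ∀ n, IsOpen (V n)) (hcov : ∀ y, ∃ n, y ∈ V n)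
    (p : Pt) (hp : ∀ i, 0 ≤ p i) : Qn V (kap V (fl p)) p (muu V (fl p)) (lab V p) := by
  have h1 := kap_spec V hopen hcov (fl p)
  have h2 : ∀ q : Pt, (∀ i < kap V (fl p), (fl p i : ℝ) ≤ q i ∧ q i ≤ fl p i + 1) →
      ∃ n, Qn V (kap V (fl p)) q (muu V (fl p)) n := by
    rw [muu_eq]
    refine fnd_spec (P := fun m => ∀ q : Pt,
      (∀ i < kap V (fl p), (fl p i : ℝ) ≤ q i ∧ q i ≤ fl p i + 1) →
        ∃ n, Qn V (kap V (fl p)) q m n) ?_
    obtain ⟨m, hm⟩ := h1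
    exact ⟨m, fun q hq => hm q (by simpa using hq)⟩
  have h3 := h2 p (fun i _ => ⟨Nat.floor_le (hp i), (Nat.lt_floor_add_one (p i)).le⟩)
  rw [lab_eq]
  exact fnd_spec (P := fun n => Qn V (kap V (fl p)) p (muu V (fl p)) n) h3

/-- TARGET -/
theorem kap_congr (V : ℕ → Set Pt) (hopen : ∀ n, IsOpen (V n)) (hcov : ∀ y, ∃ n, y ∈ V n)
    (c c' : ℕ → ℕ) (h : ∀ i < kap V c, c i = c' i) :
    kap V c' = kap V c ∧ muu V c' = muu V c := by
  have h1 : kap V c' ≤ kap V c :=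
    kap_min V c' _ (Tm_loc V _ c c' 1 h (kap_spec V hopen hcov c))
  have h2 : kap V c ≤ kap V c' := by
    by_contra hlt
    push Not at hlt
    have h3 := kap_spec V hopen hcov c'
    have h4 : Tm V (kap V c') c 1 :=
      Tm_loc V _ c' c 1 (fun i hi => (h i (hi.trans hlt)).symm) h3
    exact absurd (kap_min V c _ h4) (by omega)
  have h3 : kap V c' = kap V c := le_antisymm h1 h2
  refine ⟨h3, ?_⟩
  rw [muu_eq, muu_eq, h3]
  congr 1
  funext m
  apply propext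
  constructor
  · intro hm p hp
    exact hm p (fun i hi => by rw [← h i hi]; exact hp i hi)
  · intro hm p hp
    exact hm p (fun i hi => by rw [h i hi]; exact hp i hi)

/-- TARGET -/
theorem kap_le (V : ℕ → Set Pt) (k : ℕ) (c : ℕ → ℕ) (hT : Tm V k c 2) (J : Finset ℕ) :
    kap V (upS c J) ≤ k := by
  apply kap_min
  refine Tm_sub V k c (upS c J) 2 1 (fun i _ => ?_) hT
  unfold upS
  split_ifs <;> omega

/-- TARGET -/
theorem lab_congr (V : ℕ → Set Pt) (hopen : ∀ n, IsOpen (V n)) (hcov : ∀ y, ∃ n, y ∈ V n)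
    (p p' : Pt) (h : ∀ i < kap V (fl p), p i = p' i) : lab V p' = lab V p := by
  obtain ⟨h1, h2⟩ := kap_congr V hopen hcov (fl p) (fl p') (fun i hi => by
    unfold fl
    rw [h i hi])
  rw [lab_eq, lab_eq, h1, h2]
  congr 1
  funext n
  apply propext
  constructor
  · intro hq y hy
    exact hq y (fun i hi => by rw [← h i hi]; exact hy i hi)
  · intro hq y hy
    exact hq y (fun i hi => by rw [h i hi]; exact hy i hi)

end Pool.Agent.Helper286.Unst
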