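import Pool.Agent.Helper286.Unst.LabH
import Pool.Agent.Helper286.Unst.CubeF


namespace Pool.Agent.Helper286.Unst

lemma zzaux_lk0_sg (σ : Finset ℕ) : lk0 (sg σ) = if 0 ∈ σ then sg (σ.erase 0) else 0 := by
  simp [lk0, sg]

lemma zzaux_lk0_bd (x : Ch) : lk0 (bd x) = bd (lk0 x) := by
  have key : ∀ σ : Finset ℕ, lk0 (bd (sg σ)) = bd (lk0 (sg σ)) := by
    intro σ
    by_cases h : 0 ∈ σ
    · rw [zzaux_lk0_sg, if_pos h, bd_sg, bd_sg, map_sum]
      conv_lhs => rw [← Finset.insert_erase h]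
      rw [Finset.sum_insert (Finset.notMem_erase _ _), Finset.insert_erase h, zzaux_lk0_sg,
        if_neg (Finset.notMem_erase _ _), zero_add]
      refine Finset.sum_congr rfl fun v hv => ?_
      have hv0 : v ≠ 0 := Finset.ne_of_mem_erase hv
      rw [zzaux_lk0_sg, if_pos (Finset.mem_erase.2 ⟨hv0.symm, h⟩), Finset.erase_right_comm]
    · rw [zzaux_lk0_sg, if_neg h, bd_sg, map_zero, map_sum]
      refine Finset.sum_eq_zero fun v _ => ?_
      rw [zzaux_lk0_sg, if_neg (fun h' => h (Finset.mem_of_mem_erase h'))]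
  induction x using Finsupp.induction_linear with
  | zero => simp
  | add f g hf hg => simp only [map_add, hf, hg]
  | single σ c =>
    have : (Finsupp.single σ c : Ch) = c • sg σ := by simp [sg]
    rw [this, map_smul, map_smul, key, map_smul, map_smul]

lemma zzaux_supp (x : Ch) (τ : Finset ℕ) (h : τ ∈ (lk0 x).support) :
    0 ∉ τ ∧ insert 0 τ ∈ x.support := by
  classical
  rw [lk0, Finsupp.linearCombination_apply, Finsupp.sum] at h
  obtain ⟨σ, hσ, hτ⟩ := Finset.mem_biUnion.1 (Finsupp.support_finsetSum h)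
  by_cases h0 : 0 ∈ σ
  · rw [if_pos h0] at hτ
    have h1 := Finsupp.support_smul hτ
    have h2 : τ = σ.erase 0 := by
      have := Finsupp.support_single_subset h1
      exact Finset.mem_singleton.1 this
    subst h2
    exact ⟨Finset.notMem_erase _ _, by rwa [Finset.insert_erase h0]⟩
  · rw [if_neg h0, smul_zero] at hτ
    simp at hτ

lemma zzaux_lk0_zero (x : Ch) (h : ∀ σ ∈ x.support, 0 ∉ σ) : lk0 x = 0 := by
  rw [← Finsupp.support_eq_empty, Finset.eq_empty_iff_forall_notMem]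
  intro τ hτ
  exact h _ (zzaux_supp x τ hτ).2 (Finset.mem_insert_self _ _)

lemma zzaux_fl (d : ℕ → ℕ) (J : Finset ℕ) (q : Pt) (hq : InCube d J q) :
    ∃ J', fl q = upS d J' := by
  classical
  refine ⟨J.filter (fun l => q l = d l + 1), ?_⟩
  funext i
  simp only [fl, upS, Finset.mem_filter]
  by_cases hi : i ∈ J
  · obtain ⟨h1, h2⟩ := (hq i).1 hi
    by_cases h3 : q i = d i + 1
    · rw [if_pos ⟨hi, h3⟩, h3]
      have : ((d i : ℝ) + 1) = ((d i + 1 : ℕ) : ℝ) := by push_cast; ring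
      rw [this, Nat.floor_natCast]
    · rw [if_neg (fun h => h3 h.2)]
      rw [Nat.floor_eq_iff ((Nat.cast_nonneg _).trans h1)]
      exact ⟨h1, lt_of_le_of_ne h2 h3⟩
  · rw [if_neg (fun h => hi h.1), (hq i).2 hi, Nat.floor_natCast]

lemma zzaux_nonneg (d : ℕ → ℕ) (J : Finset ℕ) (q : Pt) (hq : InCube d J q) (i : ℕ) :
    (d i : ℝ) ≤ q i := by
  by_cases hi : i ∈ J
  · exact ((hq i).1 hi).1
  · rw [(hq i).2 hi]

lemma zzaux_K (V : ℕ → Set Pt) (hopen : ∀ n, IsOpen (V n)) (hcov : ∀ y, ∃ n, y ∈ V n)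
    (k : ℕ) (d : ℕ → ℕ) (J : Finset ℕ) (hT : Tm V k d 2) (σ : Finset ℕ)
    (hσ : σ ∈ (ZZ (lab V) (muu V) d J).support) : σ.card = J.card + 1 ∧
      ∃ q, InCube d J q ∧ ∀ y : Pt, (∀ i < k, y i = q i) → ∀ n ∈ σ, y ∈ V n := by
  obtain ⟨h1, q, hq, h2⟩ := ZZ_supp (lab V) (muu V) d J σ hσ
  refine ⟨h1, q, hq, fun y hy n hn => ?_⟩
  obtain ⟨q', hq', hlab, hdist⟩ := h2 n hn
  have h3 := lab_spec V hopen hcov q' (fun i => (Nat.cast_nonneg _).trans (zzaux_nonneg d J q' hq' i))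
  rw [hlab] at h3
  refine h3 y fun i hi => ?_
  obtain ⟨J', hJ'⟩ := zzaux_fl d J q' hq'
  have h4 : kap V (fl q') ≤ k := by rw [hJ']; exact kap_le V k d hT J'
  rw [hy i (lt_of_lt_of_le hi h4)]
  exact hdist i

lemma zzaux_K' (V : ℕ → Set Pt) (hopen : ∀ n, IsOpen (V n)) (hcov : ∀ y, ∃ n, y ∈ V n)
    (d : ℕ → ℕ) (J : Finset ℕ) (σ : Finset ℕ)
    (hσ : σ ∈ (ZZ (lab V) (muu V) d J).support) : σ.card = J.card + 1 ∧
      ∃ q, InCube d J q ∧ ∀ n ∈ σ, q ∈ V n := by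
  obtain ⟨k, hk⟩ := Tm_ex V hopen hcov d 2
  obtain ⟨h1, q, hq, h2⟩ := zzaux_K V hopen hcov k d J hk σ hσ
  exact ⟨h1, q, hq, h2 q fun _ _ => rfl⟩

lemma zzaux_up (c : ℕ → ℕ) (j : ℕ) (hj : j ≠ 0) :
    up (Function.update c 0 0) j = Function.update (up c j) 0 0 := by
  unfold up
  rw [Function.update_of_ne hj, Function.update_comm hj]

lemma zzaux_dl (Z : (ℕ → ℕ) → Finset ℕ → Ch) (b : ℕ → ℕ) (J : Finset ℕ) (h0 : 0 ∉ J) :
    dl Z b (insert 0 J) = (Z (up b 0) J + Z b J) +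
      ∑ j ∈ J, (Z (up b j) (insert 0 (J.erase j)) + Z b (insert 0 (J.erase j))) := by
  have h1 : ∑ j ∈ J, (Z (up b j) ((insert 0 J).erase j) + Z b ((insert 0 J).erase j)) =
      ∑ j ∈ J, (Z (up b j) (insert 0 (J.erase j)) + Z b (insert 0 (J.erase j))) := by
    refine Finset.sum_congr rfl fun j hj => ?_
    have hj0 : j ≠ 0 := fun h => h0 (h ▸ hj)
    rw [Finset.erase_insert_of_ne hj0.symm]
  rw [dl, Finset.sum_insert h0, Finset.erase_insert h0, h1]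

lemma zzaux_dl2 (Z : (ℕ → ℕ) → Finset ℕ → Ch) (c : ℕ → ℕ) (J : Finset ℕ) (h0 : 0 ∉ J) :
    lk0 (∑ j ∈ J, (Z (up (Function.update c 0 0) j) (insert 0 (J.erase j)) +
      Z (Function.update c 0 0) (insert 0 (J.erase j)))) =
    dl (fun c J => lk0 (Z (Function.update c 0 0) (insert 0 J))) c J := by
  rw [map_sum, dl]
  refine Finset.sum_congr rfl fun j hj => ?_
  have hj0 : j ≠ 0 := fun h => h0 (h ▸ hj)
  rw [map_add, zzaux_up c j hj0]

/-- TARGET -/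
theorem zz_CE (V : ℕ → Set Pt) (hopen : ∀ n, IsOpen (V n)) (hcov : ∀ y, ∃ n, y ∈ V n)
    (h01 : ∀ y, y ∈ V 0 → y ∉ V 1)
    (h0n : ∀ n y, 2 ≤ n → y ∈ V 0 → y ∈ V n → y 1 ≤ n)
    (h0mn : ∀ m n y, 2 ≤ m → m < n → y ∈ V 0 → y ∈ V m → y ∈ V n → y m ≤ n)
    (hbot : ∀ n y, y 0 ≤ 0 → y ∈ V n → n = 0)
    (htop : ∀ y, 1 ≤ y 0 → y ∉ V 0)
    (c : ℕ → ℕ) (J : Finset ℕ) (h0 : 0 ∉ J) : CE (zz V) c J := by
  unfold CE
  set b := Function.update c 0 0 with hb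
  have hb0 : b 0 = 0 := Function.update_self _ _ _
  have e1 : bd (zz V c J) = lk0 (dl (ZZ (lab V) (muu V)) b (insert 0 J)) := by
    have hne : insert 0 J ≠ ∅ := Finset.insert_ne_empty _ _
    rw [zz, ← zzaux_lk0_bd, ZZ_bd, if_neg hne, add_zero]
  have e2 := zzaux_dl (ZZ (lab V) (muu V)) b J h0
  have e3 : _ = dl (zz V) c J := zzaux_dl2 (ZZ (lab V) (muu V)) c J h0
  rw [← hb] at e3
  have e4 : lk0 (ZZ (lab V) (muu V) (up b 0) J) = 0 := by
    refine zzaux_lk0_zero _ fun σ hσ h0σ => ?_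
    obtain ⟨-, q, hq, h2⟩ := zzaux_K' V hopen hcov _ _ σ hσ
    refine htop q ?_ (h2 0 h0σ)
    rw [(hq 0).2 h0, up, Function.update_self, hb0]
    norm_num
  have h5 : ∀ σ ∈ (ZZ (lab V) (muu V) b J).support, σ.card = J.card + 1 ∧ σ ⊆ {0} := by
    intro σ hσ
    obtain ⟨h1, q, hq, h2⟩ := zzaux_K' V hopen hcov _ _ σ hσ
    refine ⟨h1, fun n hn => ?_⟩
    rw [Finset.mem_singleton]
    refine hbot n q ?_ (h2 n hn)
    rw [(hq 0).2 h0, hb0]
    norm_num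
  have e5 : lk0 (ZZ (lab V) (muu V) b J) = if J = ∅ then sg ∅ else 0 := by
    by_cases hJ : J = ∅
    · rw [if_pos hJ]
      have h6 : ∃ a : ZMod 2, ZZ (lab V) (muu V) b J = a • sg {0} := by
        refine ⟨ZZ (lab V) (muu V) b J {0}, ?_⟩
        ext σ
        rw [Finsupp.smul_apply, sg, Finsupp.single_apply]
        by_cases hσ : {0} = σ
        · rw [if_pos hσ, ← hσ, smul_eq_mul, mul_one]
        · rw [if_neg hσ, smul_zero]
          by_contra hne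
          obtain ⟨h7, h8⟩ := h5 σ (Finsupp.mem_support_iff.2 hne)
          rw [hJ, Finset.card_empty, zero_add] at h7
          exact hσ (Finset.eq_of_subset_of_card_le h8 (by simp [h7])).symm
      obtain ⟨a, ha⟩ := h6
      have h7 := ZZ_bd (lab V) (muu V) b J
      rw [if_pos hJ, hJ, dl, Finset.sum_empty, zero_add, ← hJ, ha, map_smul, bd_sg,
        Finset.sum_singleton, Finset.erase_singleton] at h7
      rw [ha, map_smul, zzaux_lk0_sg, if_pos (Finset.mem_singleton_self _),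
        Finset.erase_singleton]
      rw [hJ] at h7
      exact h7
    · rw [if_neg hJ]
      have h6 : ZZ (lab V) (muu V) b J = 0 := by
        rw [← Finsupp.support_eq_empty, Finset.eq_empty_iff_forall_notMem]
        intro σ hσ
        obtain ⟨h7, h8⟩ := h5 σ hσ
        have h9 := Finset.card_le_card h8
        have h10 : 0 < J.card := Finset.card_pos.2 (Finset.nonempty_iff_ne_empty.2 hJ)
        rw [Finset.card_singleton] at h9
        omega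
      rw [h6, map_zero]
  rw [e1, e2, map_add, map_add, e3, e4, e5, zero_add, add_assoc, ch_add_self, add_zero]

/-- TARGET -/
theorem zz_sup (V : ℕ → Set Pt) (hopen : ∀ n, IsOpen (V n)) (hcov : ∀ y, ∃ n, y ∈ V n)
    (h01 : ∀ y, y ∈ V 0 → y ∉ V 1)
    (h0n : ∀ n y, 2 ≤ n → y ∈ V 0 → y ∈ V n → y 1 ≤ n)
    (h0mn : ∀ m n y, 2 ≤ m → m < n → y ∈ V 0 → y ∈ V m → y ∈ V n → y m ≤ n)
    (hbot : ∀ n y, y 0 ≤ 0 → y ∈ V n → n = 0)
    (htop : ∀ y, 1 ≤ y 0 → y ∉ V 0)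
    (c : ℕ → ℕ) (J : Finset ℕ) (h0 : 0 ∉ J) :
    ∀ σ ∈ (zz V c J).support,
      σ.card = J.card + 1 ∧ (∀ n ∈ σ, 2 ≤ n ∧ c 1 ≤ n) ∧
      (∀ m ∈ σ, ∀ n ∈ σ, m < n → c m ≤ n) := by
  intro σ hσ
  obtain ⟨h1, h2⟩ := zzaux_supp _ σ hσ
  obtain ⟨h3, q, hq, h4⟩ := zzaux_K' V hopen hcov _ _ _ h2
  have hV0 : q ∈ V 0 := h4 0 (Finset.mem_insert_self _ _)
  have hV : ∀ n ∈ σ, q ∈ V n := fun n hn => h4 n (Finset.mem_insert_of_mem hn)
  have h2n : ∀ n ∈ σ, 2 ≤ n := by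
    intro n hn
    have hn0 : n ≠ 0 := fun h => h1 (h ▸ hn)
    have hn1 : n ≠ 1 := by
      rintro rfl
      exact h01 q hV0 (hV 1 hn)
    omega
  have hle : ∀ i, i ≠ 0 → (c i : ℝ) ≤ q i := by
    intro i hi
    have := zzaux_nonneg _ _ q hq i
    rwa [Function.update_of_ne hi] at this
  refine ⟨?_, fun n hn => ⟨h2n n hn, ?_⟩, fun m hm n hn hmn => ?_⟩
  · rw [Finset.card_insert_of_notMem h1, Finset.card_insert_of_notMem h0] at h3
    omega
  · have h5 := (hle 1 one_ne_zero).trans (h0n n q (h2n n hn) hV0 (hV n hn))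
    exact_mod_cast h5
  · have hm2 := h2n m hm
    have h5 := (hle m (by omega)).trans (h0mn m n q hm2 hmn hV0 (hV m hm) (hV n hn))
    exact_mod_cast h5

/-- TARGET -/
theorem zz_supk (V : ℕ → Set Pt) (hopen : ∀ n, IsOpen (V n)) (hcov : ∀ y, ∃ n, y ∈ V n)
    (h01 : ∀ y, y ∈ V 0 → y ∉ V 1)
    (h0n : ∀ n y, 2 ≤ n → y ∈ V 0 → y ∈ V n → y 1 ≤ n)
    (h0mn : ∀ m n y, 2 ≤ m → m < n → y ∈ V 0 → y ∈ V m → y ∈ V n → y m ≤ n)
    (hbot : ∀ n y, y 0 ≤ 0 → y ∈ V n → n = 0)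
    (htop : ∀ y, 1 ≤ y 0 → y ∉ V 0)
    (k : ℕ) (c : ℕ → ℕ) (J : Finset ℕ) (h0 : 0 ∉ J)
    (hT : Tm V k (Function.update c 0 0) 2) :
    ∀ σ ∈ (zz V c J).support, ∀ m ∈ σ, ∀ n ∈ σ, m < n → m < k := by
  intro σ hσ m hm n hn hmn
  have hs := (zz_sup V hopen hcov h01 h0n h0mn hbot htop c J h0 σ hσ).2.1 m hm
  obtain ⟨h1, h2⟩ := zzaux_supp _ σ hσ
  obtain ⟨h3, q, hq, h4⟩ := zzaux_K V hopen hcov k _ _ hT _ h2
  by_contra hcon
  push Not at hcon
  have h5 : ∀ i < k, (Function.update q m ((n : ℝ) + 1) : Pt) i = q i := by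
    intro i hi
    rw [Function.update_of_ne (by omega)]
  have h6 := h4 _ h5
  have h7 := h0mn m n _ hs.1 hmn (h6 0 (Finset.mem_insert_self _ _))
    (h6 m (Finset.mem_insert_of_mem hm)) (h6 n (Finset.mem_insert_of_mem hn))
  rw [Function.update_self] at h7
  linarith

end Pool.Agent.Helper286.Unst
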