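import Pool.Agent.Helper286.Unst.LabH
import Pool.Agent.Helper286.Unst.CubeG


namespace Pool.Agent.Helper286.Unst

theorem fl_9451 (d : ℕ → ℕ) (J : Finset ℕ) (q : Pt) (hq : InCube d J q) :
    ∃ J'', fl q = upS d J'' := by
  classical
  refine ⟨J.filter (fun l => q l = d l + 1), ?_⟩
  funext i
  by_cases hi : i ∈ J
  · obtain ⟨h1, h2⟩ := (hq i).1 hi
    by_cases h3 : q i = d i + 1
    · have h4 : i ∈ J.filter (fun l => q l = d l + 1) := Finset.mem_filter.2 ⟨hi, h3⟩
      unfold fl upS
      rw [if_pos h4, h3]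
      have : ((d i : ℝ) + 1) = ((d i + 1 : ℕ) : ℝ) := by push_cast; ring
      rw [this, Nat.floor_natCast]
    · have h4 : i ∉ J.filter (fun l => q l = d l + 1) := fun h => h3 (Finset.mem_filter.1 h).2
      have h5 : q i < d i + 1 := lt_of_le_of_ne h2 h3
      unfold fl upS
      rw [if_neg h4]
      exact (Nat.floor_eq_iff ((Nat.cast_nonneg _).trans h1)).2 ⟨h1, h5⟩
  · have h4 : i ∉ J.filter (fun l => q l = d l + 1) := fun h => hi (Finset.mem_filter.1 h).1
    unfold fl upS
    rw [if_neg h4, (hq i).2 hi, Nat.floor_natCast]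

theorem kapfl_9451 (V : ℕ → Set Pt) (k : ℕ) (d : ℕ → ℕ) (hT : Tm V k d 2) (J : Finset ℕ) (q : Pt)
    (hq : InCube d J q) : kap V (fl q) ≤ k := by
  obtain ⟨J'', h⟩ := fl_9451 d J q hq
  rw [h]
  exact kap_le V k d hT J''

/-- TARGET -/
theorem zz_ind (V : ℕ → Set Pt) (hopen : ∀ n, IsOpen (V n)) (hcov : ∀ y, ∃ n, y ∈ V n)
    (k : ℕ) (c c' : ℕ → ℕ) (J : Finset ℕ)
    (hT : Tm V k (Function.update c 0 0) 2) (hc : ∀ i < k, c i = c' i)
    (hJ : J ⊆ Finset.range k) (h0 : 0 ∉ J) : zz V c' J = zz V c J := by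
  have hb : ∀ i < k, Function.update c 0 0 i = Function.update c' 0 0 i := by
    intro i hi
    by_cases h : i = 0
    · subst h
      simp
    · rw [Function.update_of_ne h, Function.update_of_ne h, hc i hi]
  have key : ZZ (lab V) (muu V) (Function.update c' 0 0) (insert 0 J) =
      ZZ (lab V) (muu V) (Function.update c 0 0) (insert 0 J) := by
    apply ZZ_congr
    · intro q hq
      have h1 := kapfl_9451 V k _ hT _ q hq
      apply lab_congr V hopen hcov
      intro i hi
      have h2 := hb i (lt_of_lt_of_le hi h1)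
      have h3 : (q + (ipt (Function.update c' 0 0) - ipt (Function.update c 0 0))) i =
        q i + (((Function.update c' 0 0 i : ℕ) : ℝ) - ((Function.update c 0 0 i : ℕ) : ℝ)) := rfl
      rw [h3, h2, sub_self, add_zero]
    · intro J' hJ'
      refine (kap_congr V hopen hcov _ _ ?_).2
      intro i hi
      have h1 := kap_le V k _ hT J'
      have h2 := hb i (lt_of_lt_of_le hi h1)
      unfold upS
      rw [h2]
  unfold zz
  rw [key]

/-- TARGET -/
theorem zz_van (V : ℕ → Set Pt) (hopen : ∀ n, IsOpen (V n)) (hcov : ∀ y, ∃ n, y ∈ V n)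
    (k : ℕ) (c : ℕ → ℕ) (J : Finset ℕ)
    (hT : Tm V k (Function.update c 0 0) 2) (h0 : 0 ∉ J) (i : ℕ) (hi : i ∈ J) (hki : k ≤ i) :
    zz V c J = 0 := by
  unfold zz
  rw [ZZ_van (lab V) (muu V) (Function.update c 0 0) (insert 0 J) i
    (Finset.mem_insert_of_mem hi) ?_ ?_, map_zero]
  · intro q q' hq _ hqq
    symm
    have h1 := kapfl_9451 V k _ hT _ q hq
    apply lab_congr V hopen hcov
    intro l hl
    apply hqq
    have := lt_of_lt_of_le hl h1
    omega
  · intro J' _
    refine (kap_congr V hopen hcov _ _ ?_).2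
    intro l hl
    have h1 := kap_le V k _ hT J'
    have h2 : l ≠ i := by
      have := lt_of_lt_of_le hl h1
      omega
    unfold upS up
    rw [Function.update_of_ne h2]

end Pool.Agent.Helper286.Unst
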