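import Pool.Agent.Helper286.Unst.LabI
import Pool.Agent.Helper286.Unst.LabK
import Pool.Agent.Helper286.Unst.BarC


namespace Pool.Agent.Helper286.Unst

/-- TARGET -/
theorem no_label_cover (V : ℕ → Set Pt) (hopen : ∀ n, IsOpen (V n)) (hcov : ∀ y, ∃ n, y ∈ V n)
    (h01 : ∀ y, y ∈ V 0 → y ∉ V 1)
    (h0n : ∀ n y, 2 ≤ n → y ∈ V 0 → y ∈ V n → y 1 ≤ n)
    (h0mn : ∀ m n y, 2 ≤ m → m < n → y ∈ V 0 → y ∈ V m → y ∈ V n → y m ≤ n)
    (hbot : ∀ n y, y 0 ≤ 0 → y ∈ V n → n = 0)
    (htop : ∀ y, 1 ≤ y 0 → y ∉ V 0) : False := by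
  refine bar_false (zz V) (fun k c => Tm V k (Function.update c 0 0) 2)
    (fun k c => Tm V k (Function.update c 0 0) 3) ?_ ?_ ?_ ?_ ?_ ?_ ?_ ?_ ?_ ?_ ?_ ?_
  · intro k c c' h hT
    refine Tm_loc V k _ _ 2 ?_ hT
    intro i hi
    by_cases h0 : i = 0
    · subst h0; simp
    · simp [Function.update_of_ne h0, h i hi]
  · intro k c hT
    exact Tm_mono V k _ 2 hT
  · intro k c c' h hT
    refine Tm_loc V k _ _ 3 ?_ hT
    intro i hi
    by_cases h0 : i = 0
    · subst h0; simp
    · simp [Function.update_of_ne h0, h i hi]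
  · intro k c hT
    exact Tm_mono V k _ 3 hT
  · intro c
    exact Tm_ex V hopen hcov _ 3
  · intro k c hT
    refine Tm_sub V k _ _ 3 2 ?_ hT
    intro i hi
    constructor <;> omega
  · intro k c j hT
    refine Tm_sub V k _ _ 3 2 ?_ hT
    intro i hi
    by_cases h0 : i = 0
    · subst h0; simp
    · rw [Function.update_of_ne h0, Function.update_of_ne h0]
      unfold up
      by_cases hj : i = j
      · subst hj
        rw [Function.update_self]
        constructor <;> omega
      · rw [Function.update_of_ne hj]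
        constructor <;> omega
  · intro c J h0
    exact zz_CE V hopen hcov h01 h0n h0mn hbot htop c J h0
  · intro c J h0
    exact zz_sup V hopen hcov h01 h0n h0mn hbot htop c J h0
  · intro k c J h0 hT
    exact zz_supk V hopen hcov h01 h0n h0mn hbot htop k c J h0 hT
  · intro k c c' J hT hc hJ h0
    exact zz_ind V hopen hcov k c c' J hT hc hJ h0
  · intro k c J hT h0 i hi hki
    exact zz_van V hopen hcov k c J hT h0 i hi hki

end Pool.Agent.Helper286.Unst
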