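import Pool.Agent.Helper286.Unst.NDefs

open Set Topology

namespace Pool.Agent.Helper286.Unst

/-- TARGET -/
theorem InN_vertex (X : Set Pt) (hX : X.Nonempty) (n : ℕ) (hn : 2 ≤ n) :
    InN X (0, 0, Pi.single n 1, (n : ℝ), 0) := by
  obtain ⟨x, hx⟩ := hX
  refine ⟨le_rfl, ⟨x, hx, by simp⟩, ?_, ?_, ?_, ?_, ?_, ?_, ?_, ?_⟩
  · intro m
    simp only [Pi.single_apply]
    split_ifs <;> norm_num
  · simp only [Pi.single_apply]
    rw [if_neg (by omega)]
  · simp only [Pi.single_apply]
    rw [if_neg (by omega)]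
  · have h := hasSum_single (f := (Pi.single n (1 : ℝ) : ℕ → ℝ)) n
      (fun m hm => Pi.single_eq_of_ne hm _)
    simpa using h
  · have h := hasSum_single (f := fun m : ℕ => (m : ℝ) * (Pi.single n (1 : ℝ) : ℕ → ℝ) m) n
      (fun m hm => by
        rw [Pi.single_eq_of_ne hm, mul_zero])
    simpa using h
  · have h : (fun m : ℕ => (Pi.single n (1 : ℝ) : ℕ → ℝ) m * |(0 : ℕ → ℝ) m|) = fun _ => 0 := by
      funext m
      simp
    simp only
    rw [h]
    exact hasSum_zero
  · intro m h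
    exact absurd h (lt_irrefl _)
  · intro m k _ h
    exact absurd h (lt_irrefl _)

/-- TARGET -/
theorem InN_point (X : Set Pt) (x : Pt) (hx : x ∈ X) : InN X (1, x, 0, 0, 0) := by
  refine ⟨zero_le_one, ⟨x, hx, by simp⟩, fun m => le_rfl, rfl, rfl, ?_, ?_, ?_, ?_, ?_⟩
  · simp only [sub_self]
    exact hasSum_zero
  · have h : (fun m : ℕ => (m : ℝ) * (0 : ℕ → ℝ) m) = fun _ => 0 := by
      funext m
      simp
    simp only
    rw [h]
    exact hasSum_zero
  · have h : (fun m : ℕ => (0 : ℕ → ℝ) m * |x m|) = fun _ => 0 := by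
      funext m
      simp
    simp only
    rw [h]
    exact hasSum_zero
  · intro m _ h
    exact absurd h (lt_irrefl _)
  · intro m k _ _ h
    exact absurd h (lt_irrefl _)

theorem AA_nonneg (X : Set Pt) (ξ : NN X) : 0 ≤ AA ξ.1 := by
  have h := ξ.2
  have h2 : 0 ≤ ξ.1.2.2.2.1 := h.sum2.nonneg fun m =>
    mul_nonneg (Nat.cast_nonneg m) (h.p_nonneg m)
  have h3 : 0 ≤ ξ.1.2.2.2.2 := h.sum3.nonneg fun m => mul_nonneg (h.p_nonneg m) (abs_nonneg _)
  unfold AA
  have := abs_nonneg (ξ.1.2.1 1)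
  linarith

/-- TARGET -/
theorem ell_props (X : Set Pt) : Continuous (fun ξ : NN X => ell ξ.1) ∧
    (∀ ξ : NN X, 0 < ell ξ.1) ∧ (∀ ξ : NN X, ell ξ.1 ≤ 1) ∧ (∀ ξ : NN X, 0 ≤ AA ξ.1) := by
  have hc : Continuous (fun ξ : NN X => AA ξ.1) := by
    have h1 : Continuous (fun w : WW => AA w) := by
      unfold AA
      have h0 : Continuous (fun w : WW => w.2.1 1) :=
        (continuous_apply 1).comp (continuous_fst.comp continuous_snd)
      fun_prop
    exact h1.comp continuous_subtype_val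
  refine ⟨?_, ?_, ?_, AA_nonneg X⟩
  · unfold ell
    refine continuous_const.div (continuous_const.add hc) fun ξ => ?_
    have := AA_nonneg X ξ
    positivity
  · intro ξ
    have := AA_nonneg X ξ
    unfold ell
    positivity
  · intro ξ
    have := AA_nonneg X ξ
    unfold ell
    rw [div_le_one (by positivity)]
    linarith

end Pool.Agent.Helper286.Unst
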