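import Pool.Agent.Helper286.Unst.NDefs

open Set Topology

namespace Pool.Agent.Helper286.Unst

/-- the tuple of the homotopy -/
noncomputable def jvW9952 (n : ℕ) (s : ℝ) (w : WW) : WW :=
  ((1 - s) * w.1, (1 - s) • w.2.1, (1 - s) • w.2.2.1 + s • Pi.single n (1 : ℝ),
    (1 - s) * w.2.2.2.1 + s * n, (1 - s) ^ 2 * w.2.2.2.2 + s * (1 - s) * |w.2.1 n|)

theorem jvW_cont9952 (n : ℕ) : Continuous fun x : ℝ × WW => jvW9952 n x.1 x.2 := by
  unfold jvW9952
  refine Continuous.prodMk (by fun_prop) (Continuous.prodMk (by fun_prop)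
    (Continuous.prodMk (by fun_prop) (Continuous.prodMk (by fun_prop) ?_)))
  have h : Continuous fun x : ℝ × WW => x.2.2.1 n :=
    (continuous_apply n).comp (continuous_fst.comp (continuous_snd.comp continuous_snd))
  exact ((by fun_prop : Continuous fun x : ℝ × WW => (1 - x.1) ^ 2 * x.2.2.2.2.2)).add
    ((by fun_prop : Continuous fun x : ℝ × WW => x.1 * (1 - x.1)).mul h.abs)

theorem jvW_mem9952 (X : Set Pt) (n : ℕ) (hn : 3 ≤ n) (w : WW) (hw : InN X w)
    (hj : Joinable n w) (s : ℝ) (hs0 : 0 ≤ s) (hs1 : s ≤ 1) : InN X (jvW9952 n s w) := by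
  have h1s : 0 ≤ 1 - s := by linarith
  have hmass : ∀ m, (jvW9952 n s w).2.2.1 m = (1 - s) * w.2.2.1 m +
      s * Pi.single (M := fun _ : ℕ => ℝ) n (1 : ℝ) m := by
    intro m
    simp only [jvW9952, Pi.add_apply, Pi.smul_apply, smul_eq_mul]
  have hmass' : ∀ m, m ≠ n → (jvW9952 n s w).2.2.1 m = (1 - s) * w.2.2.1 m := by
    intro m hm
    rw [hmass, Pi.single_eq_of_ne hm, mul_zero, add_zero]
  have hpos : ∀ m, m ≠ n → 0 < (jvW9952 n s w).2.2.1 m → 0 < w.2.2.1 m := by
    intro m hm h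
    rw [hmass' m hm] at h
    exact pos_of_mul_pos_right h h1s
  have hP : ∀ {x : ℝ}, 0 < (1 - s) * x → 0 < x := fun h => pos_of_mul_pos_right h h1s
  have he : ∀ m, |(jvW9952 n s w).2.1 m| = (1 - s) * |w.2.1 m| := by
    intro m
    simp only [jvW9952, Pi.smul_apply, smul_eq_mul]
    rw [abs_mul, abs_of_nonneg h1s]
  have hPe : (jvW9952 n s w).1 = (1 - s) * w.1 := rfl
  have hsingle : ∀ m, 0 ≤ Pi.single (M := fun _ : ℕ => ℝ) n (1 : ℝ) m := by
    intro m
    by_cases h : m = n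
    · subst h; simp
    · rw [Pi.single_eq_of_ne h]
  refine ⟨?_, ?_, ?_, ?_, ?_, ?_, ?_, ?_, ?_, ?_⟩
  · exact mul_nonneg h1s hw.P_nonneg
  · obtain ⟨x, hx, hxe⟩ := hw.e_mem
    refine ⟨x, hx, ?_⟩
    show (1 - s) • w.2.1 = ((1 - s) * w.1) • x
    rw [hxe, smul_smul]
  · intro m
    rw [hmass]
    exact add_nonneg (mul_nonneg h1s (hw.p_nonneg m)) (mul_nonneg hs0 (hsingle m))
  · rw [hmass' 0 (by omega), hw.p_zero, mul_zero]
  · rw [hmass' 1 (by omega), hw.p_one, mul_zero]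
  · have h := (hw.sum1.mul_left (1 - s)).add ((hasSum_pi_single n (1 : ℝ)).mul_left s)
    have e : (1 - s) * (1 - w.1) + s * 1 = 1 - (jvW9952 n s w).1 := by
      rw [hPe]; ring
    rw [e] at h
    have e2 : (jvW9952 n s w).2.2.1 = fun m => (1 - s) * w.2.2.1 m +
      s * Pi.single (M := fun _ : ℕ => ℝ) n (1 : ℝ) m := funext hmass
    rw [e2]
    exact h
  · have h0 : HasSum (fun m : ℕ => (m : ℝ) * Pi.single (M := fun _ : ℕ => ℝ) n (1 : ℝ) m) n := by
      have := hasSum_single (f := fun m : ℕ => (m : ℝ) * Pi.single (M := fun _ : ℕ => ℝ) n (1 : ℝ) m)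
        n (fun m hm => by
          show (m : ℝ) * Pi.single (M := fun _ : ℕ => ℝ) n (1 : ℝ) m = 0
          rw [Pi.single_eq_of_ne hm, mul_zero])
      simpa using this
    have h := (hw.sum2.mul_left (1 - s)).add (h0.mul_left s)
    have e2 : (fun m : ℕ => (m : ℝ) * (jvW9952 n s w).2.2.1 m) = fun m : ℕ =>
      (1 - s) * (m * w.2.2.1 m) + s * (m * Pi.single (M := fun _ : ℕ => ℝ) n (1 : ℝ) m) := by
      funext m
      rw [hmass]
      ring
    rw [e2]
    exact h
  · have h0 : HasSum (fun m : ℕ => Pi.single (M := fun _ : ℕ => ℝ) n (1 : ℝ) m * |w.2.1 m|)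
        |w.2.1 n| := by
      have := hasSum_single
        (f := fun m : ℕ => Pi.single (M := fun _ : ℕ => ℝ) n (1 : ℝ) m * |w.2.1 m|)
        n (fun m hm => by
          show Pi.single (M := fun _ : ℕ => ℝ) n (1 : ℝ) m * |w.2.1 m| = 0
          rw [Pi.single_eq_of_ne hm, zero_mul])
      simpa using this
    have h := (hw.sum3.mul_left ((1 - s) ^ 2)).add (h0.mul_left (s * (1 - s)))
    have e2 : (fun m : ℕ => (jvW9952 n s w).2.2.1 m * |(jvW9952 n s w).2.1 m|) = fun m : ℕ =>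
      (1 - s) ^ 2 * (w.2.2.1 m * |w.2.1 m|) +
        s * (1 - s) * (Pi.single (M := fun _ : ℕ => ℝ) n (1 : ℝ) m * |w.2.1 m|) := by
      funext m
      rw [hmass, he]
      ring
    rw [e2]
    exact h
  · intro m hPp hm
    rw [hPe] at hPp
    rw [he, hPe]
    have hP0 := hP hPp
    have key : |w.2.1 1| ≤ m * w.1 := by
      by_cases h : m = n
      · rw [h]; exact hj.2.1 hP0
      · exact hw.c1 m hP0 (hpos m h hm)
    calc (1 - s) * |w.2.1 1| ≤ (1 - s) * (m * w.1) := mul_le_mul_of_nonneg_left key h1s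
      _ = _ := by ring
  · intro m1 m2 hlt hPp hm1 hm2
    rw [hPe] at hPp
    rw [he, hPe]
    have hP0 := hP hPp
    have key : |w.2.1 m1| ≤ m2 * w.1 := by
      by_cases h1 : m1 = n
      · have h2 : m2 ≠ n := by omega
        have := hj.1 m2 (hpos m2 h2 hm2)
        omega
      · by_cases h2 : m2 = n
        · rw [h2]; exact hj.2.2 m1 hP0 (hpos m1 h1 hm1)
        · exact hw.c2 m1 m2 hlt hP0 (hpos m1 h1 hm1) (hpos m2 h2 hm2)
    calc (1 - s) * |w.2.1 m1| ≤ (1 - s) * (m2 * w.1) := mul_le_mul_of_nonneg_left key h1s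
      _ = _ := by ring

/-- TARGET -/
theorem join_vertex {T : Type} [TopologicalSpace T] (X : Set Pt) (n : ℕ) (hn : 3 ≤ n)
    (f : C(T, NN X)) (hf : ∀ w, Joinable n (f w).1) (d : NN X)
    (hd : d.1 = (0, 0, Pi.single n 1, (n : ℝ), 0)) :
    ContinuousMap.Homotopic f (ContinuousMap.const T d) := by
  refine ⟨{ toFun := fun x => ⟨jvW9952 n (x.1 : ℝ) (f x.2).1,
              jvW_mem9952 X n hn (f x.2).1 (f x.2).2 (hf x.2) x.1 x.1.2.1 x.1.2.2⟩
            continuous_toFun := ?_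
            map_zero_left := ?_
            map_one_left := ?_ }⟩
  · refine Continuous.subtype_mk ?_ _
    exact (jvW_cont9952 n).comp ((continuous_subtype_val.comp continuous_fst).prodMk
      (continuous_subtype_val.comp (f.continuous.comp continuous_snd)))
  · intro x
    apply Subtype.ext
    show jvW9952 n ((0 : unitInterval) : ℝ) (f x).1 = (f x).1
    simp [jvW9952]
  · intro x
    apply Subtype.ext
    show jvW9952 n ((1 : unitInterval) : ℝ) (f x).1 = d.1
    rw [hd]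
    simp [jvW9952]

end Pool.Agent.Helper286.Unst
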