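import Pool.Agent.Helper286.Unst.NDefs

open Set Topology

namespace Pool.Agent.Helper286.Unst

/-- auxiliary -/
noncomputable def kap9953 (θ x : ℝ) : ℝ := max (x - θ) 0 / max x θ

/-- auxiliary -/
noncomputable def tau9953 (θ : ℝ) (B : ℕ) (w : WW) : ℝ :=
  max (w.1 - θ) 0 + ∑ m ∈ Finset.range B, max (w.2.2.1 m - θ) 0

/-- auxiliary -/
noncomputable def eta9953 (θ : ℝ) (B : ℕ) (s : ℝ) (w : WW) : ℝ :=
  (1 - s) + s / tau9953 θ B w * kap9953 θ w.1

/-- auxiliary -/
noncomputable def pp9953 (θ : ℝ) (B : ℕ) (s : ℝ) (w : WW) (m : ℕ) : ℝ :=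
  (1 - s) * w.2.2.1 m + s / tau9953 θ B w * (if m < B then max (w.2.2.1 m - θ) 0 else 0)

/-- auxiliary -/
noncomputable def TT9953 (θ : ℝ) (B : ℕ) (s : ℝ) (w : WW) : WW :=
  (eta9953 θ B s w * w.1, eta9953 θ B s w • w.2.1, pp9953 θ B s w,
    (1 - s) * w.2.2.2.1 + s / tau9953 θ B w * ∑ m ∈ Finset.range B, (m : ℝ) * max (w.2.2.1 m - θ) 0,
    eta9953 θ B s w * ((1 - s) * w.2.2.2.2 +
      s / tau9953 θ B w * ∑ m ∈ Finset.range B, max (w.2.2.1 m - θ) 0 * |w.2.1 m|))

theorem kap_nonneg9953 {θ x : ℝ} (hθ : 0 < θ) : 0 ≤ kap9953 θ x :=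
  div_nonneg (le_max_right _ _) (hθ.le.trans (le_max_right _ _))

theorem kap_mul9953 {θ x : ℝ} (hθ : 0 < θ) : kap9953 θ x * x = max (x - θ) 0 := by
  unfold kap9953
  rcases le_total x θ with h | h
  · rw [max_eq_right (show x - θ ≤ 0 by linarith)]; simp
  · rw [max_eq_left (show (0 : ℝ) ≤ x - θ by linarith), max_eq_left h]
    have : x ≠ 0 := by linarith
    field_simp

theorem tau_pos9953 {X : Set Pt} {w : WW} (hw : InN X w) {C : ℝ} (hA : AA w ≤ C) {B : ℕ} (hB : 1 ≤ B)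
    (hBC : 2 * C + 1 ≤ B) {θ : ℝ} (hθ : θ = 1 / (2 * B + 3)) : 0 < tau9953 θ B w := by
  have hBpos : (0 : ℝ) < B := by exact_mod_cast hB
  have hθp : 0 < θ := by rw [hθ]; positivity
  have hnn : 0 ≤ tau9953 θ B w :=
    add_nonneg (le_max_right _ _) (Finset.sum_nonneg fun _ _ => le_max_right _ _)
  rcases hnn.lt_or_eq with h | h
  · exact h
  exfalso
  have h1 : max (w.1 - θ) 0 = 0 ∧ ∑ m ∈ Finset.range B, max (w.2.2.1 m - θ) 0 = 0 := by
    have a1 : 0 ≤ max (w.1 - θ) 0 := le_max_right _ _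
    have a2 : 0 ≤ ∑ m ∈ Finset.range B, max (w.2.2.1 m - θ) 0 :=
      Finset.sum_nonneg fun _ _ => le_max_right _ _
    unfold tau9953 at h
    constructor <;> linarith
  have h2 : w.1 ≤ θ := by
    have := le_max_left (w.1 - θ) 0
    rw [h1.1] at this; linarith
  have h3 : ∀ m < B, w.2.2.1 m ≤ θ := by
    intro m hm
    have h4 := (Finset.sum_eq_zero_iff_of_nonneg (fun _ _ => le_max_right _ _)).1 h1.2 m
      (Finset.mem_range.2 hm)
    have := le_max_left (w.2.2.1 m - θ) 0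
    rw [h4] at this; linarith
  have h5 : HasSum (fun m => (if m < B then θ else 0) + (m : ℝ) * w.2.2.1 m / B)
      ((∑ m ∈ Finset.range B, (if m < B then θ else 0)) + w.2.2.2.1 / B) := by
    refine HasSum.add ?_ (hw.sum2.div_const _)
    refine hasSum_sum_of_ne_finset_zero ?_
    intro m hm
    rw [Finset.mem_range] at hm
    rw [if_neg hm]
  have h6 : ∑ m ∈ Finset.range B, (if m < B then θ else 0) = B * θ := by
    rw [Finset.sum_congr rfl (g := fun _ => θ) (fun m hm => if_pos (Finset.mem_range.1 hm))]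
    simp
  rw [h6] at h5
  have h7 : 1 - w.1 ≤ B * θ + w.2.2.2.1 / B := by
    refine hasSum_le ?_ hw.sum1 h5
    intro m
    have hp := hw.p_nonneg m
    by_cases hm : m < B
    · rw [if_pos hm]
      have h8 := h3 m hm
      have h9 : 0 ≤ (m : ℝ) * w.2.2.1 m / B := by positivity
      linarith
    · rw [if_neg hm, zero_add, le_div_iff₀ hBpos, mul_comm]
      have h8 : (B : ℝ) ≤ m := by exact_mod_cast not_lt.1 hm
      exact mul_le_mul_of_nonneg_right h8 hp
  have hA3 : 0 ≤ w.2.2.2.2 := hw.sum3.nonneg fun m => mul_nonneg (hw.p_nonneg m) (abs_nonneg _)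
  have hA2 : w.2.2.2.1 ≤ C := by
    unfold AA at hA
    have := abs_nonneg (w.2.1 1)
    linarith
  have h10 : w.2.2.2.1 / B < 1 / 2 := by
    rw [div_lt_iff₀ hBpos]; linarith
  have h11 : (B + 1) * θ < 1 / 2 := by
    rw [hθ, mul_one_div, div_lt_iff₀ (by positivity)]; linarith
  linarith

theorem inN_TT9953 {X : Set Pt} {w : WW} (hw : InN X w) {B : ℕ} {θ : ℝ} (hθ : 0 < θ)
    (hτ : 0 < tau9953 θ B w) {s : ℝ} (hs0 : 0 ≤ s) (hs1 : s ≤ 1) : InN X (TT9953 θ B s w) := by
  have hs1' : 0 ≤ 1 - s := by linarith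
  have hst : 0 ≤ s / tau9953 θ B w := div_nonneg hs0 hτ.le
  have hη : 0 ≤ eta9953 θ B s w := add_nonneg hs1' (mul_nonneg hst (kap_nonneg9953 hθ))
  have hif : ∀ m, 0 ≤ (if m < B then max (w.2.2.1 m - θ) 0 else 0 : ℝ) := by
    intro m
    split_ifs
    · exact le_max_right _ _
    · exact le_rfl
  have hpp : ∀ m, 0 ≤ pp9953 θ B s w m := fun m =>
    add_nonneg (mul_nonneg hs1' (hw.p_nonneg m)) (mul_nonneg hst (hif m))
  have hz : ∀ m, w.2.2.1 m = 0 → pp9953 θ B s w m = 0 := by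
    intro m hm
    unfold pp9953
    rw [hm, max_eq_right (by linarith : (0 : ℝ) - θ ≤ 0)]
    simp
  have hpos : ∀ m, 0 < pp9953 θ B s w m → 0 < w.2.2.1 m := by
    intro m hm
    rcases (hw.p_nonneg m).lt_or_eq with h | h
    · exact h
    · rw [hz m h.symm] at hm; exact absurd hm (lt_irrefl _)
  have hPpos : 0 < eta9953 θ B s w * w.1 → 0 < w.1 := fun h => pos_of_mul_pos_right h hη
  have hsum : ∀ g : ℕ → ℝ, HasSum (fun m => (if m < B then max (w.2.2.1 m - θ) 0 else 0) * g m)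
      (∑ m ∈ Finset.range B, max (w.2.2.1 m - θ) 0 * g m) := by
    intro g
    have h1 : ∑ m ∈ Finset.range B, max (w.2.2.1 m - θ) 0 * g m =
        ∑ m ∈ Finset.range B, (if m < B then max (w.2.2.1 m - θ) 0 else 0) * g m := by
      refine Finset.sum_congr rfl fun m hm => ?_
      rw [if_pos (Finset.mem_range.1 hm)]
    rw [h1]
    refine hasSum_sum_of_ne_finset_zero ?_
    intro m hm
    rw [Finset.mem_range] at hm
    rw [if_neg hm, zero_mul]
  refine ⟨?_, ?_, hpp, hz 0 hw.p_zero, hz 1 hw.p_one, ?_, ?_, ?_, ?_, ?_⟩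
  · exact mul_nonneg hη hw.P_nonneg
  · obtain ⟨x, hx, he⟩ := hw.e_mem
    refine ⟨x, hx, ?_⟩
    simp only [TT9953]
    rw [he, smul_smul]
  · have h1 := (hw.sum1.mul_left (1 - s)).add ((hsum fun _ => 1).mul_left (s / tau9953 θ B w))
    simp only [mul_one] at h1
    have h2 : (1 - s) * (1 - w.1) + s / tau9953 θ B w *
        ∑ m ∈ Finset.range B, max (w.2.2.1 m - θ) 0 = 1 - eta9953 θ B s w * w.1 := by
      have h3 : ∑ m ∈ Finset.range B, max (w.2.2.1 m - θ) 0 =
        tau9953 θ B w - max (w.1 - θ) 0 := by unfold tau9953; ring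
      have h4 := kap_mul9953 (x := w.1) hθ
      rw [h3]
      unfold eta9953
      have h5 : s / tau9953 θ B w * tau9953 θ B w = s := div_mul_cancel₀ _ hτ.ne'
      rw [← h4]
      linear_combination h5
    rw [h2] at h1
    exact h1
  · have h1 := (hw.sum2.mul_left (1 - s)).add ((hsum fun m => (m : ℝ)).mul_left (s / tau9953 θ B w))
    have h2 : ∑ m ∈ Finset.range B, max (w.2.2.1 m - θ) 0 * (m : ℝ) =
        ∑ m ∈ Finset.range B, (m : ℝ) * max (w.2.2.1 m - θ) 0 :=
      Finset.sum_congr rfl fun m _ => mul_comm _ _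
    rw [h2] at h1
    refine h1.congr_fun ?_
    intro m
    simp only [TT9953, pp9953]
    ring
  · have h1 := ((hw.sum3.mul_left (1 - s)).add
      ((hsum fun m => |w.2.1 m|).mul_left (s / tau9953 θ B w))).mul_left (eta9953 θ B s w)
    refine h1.congr_fun ?_
    intro m
    simp only [TT9953, pp9953, Pi.smul_apply, smul_eq_mul, abs_mul, abs_of_nonneg hη]
    ring
  · intro n hP hp
    have h1 := hw.c1 n (hPpos hP) (hpos n hp)
    simp only [TT9953, Pi.smul_apply, smul_eq_mul, abs_mul, abs_of_nonneg hη]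
    calc eta9953 θ B s w * |w.2.1 1| ≤ eta9953 θ B s w * (n * w.1) := by gcongr
      _ = n * (eta9953 θ B s w * w.1) := by ring
  · intro m n hmn hP hpm hp
    have h1 := hw.c2 m n hmn (hPpos hP) (hpos m hpm) (hpos n hp)
    simp only [TT9953, Pi.smul_apply, smul_eq_mul, abs_mul, abs_of_nonneg hη]
    calc eta9953 θ B s w * |w.2.1 m| ≤ eta9953 θ B s w * (n * w.1) := by gcongr
      _ = n * (eta9953 θ B s w * w.1) := by ring

theorem TT_zero9953 (θ : ℝ) (B : ℕ) (w : WW) : TT9953 θ B 0 w = w := by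
  unfold TT9953 pp9953 eta9953
  simp

theorem cont_TT9953 {A : Type*} [TopologicalSpace A] {θ : ℝ} (hθ : 0 < θ) (B : ℕ) (s : A → ℝ)
    (w : A → WW) (hs : Continuous s) (hw : Continuous w) (hτ : ∀ a, tau9953 θ B (w a) ≠ 0) :
    Continuous fun a => TT9953 θ B (s a) (w a) := by
  have c1 : Continuous fun a => (w a).1 := hw.fst
  have c2 : Continuous fun a => (w a).2.1 := hw.snd.fst
  have c3 : Continuous fun a => (w a).2.2.1 := hw.snd.snd.fst
  have c4 : Continuous fun a => (w a).2.2.2.1 := hw.snd.snd.snd.fst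
  have c5 : Continuous fun a => (w a).2.2.2.2 := hw.snd.snd.snd.snd
  have c2m : ∀ m, Continuous fun a => (w a).2.1 m := fun m => (continuous_apply m).comp c2
  have c3m : ∀ m, Continuous fun a => (w a).2.2.1 m := fun m => (continuous_apply m).comp c3
  have cm : ∀ m, Continuous fun a => max ((w a).2.2.1 m - θ) 0 := fun m =>
    ((c3m m).sub continuous_const).max continuous_const
  have cτ : Continuous fun a => tau9953 θ B (w a) :=
    ((c1.sub continuous_const).max continuous_const).add (continuous_finsetSum _ fun m _ => cm m)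
  have cκ : Continuous fun a => kap9953 θ (w a).1 := by
    refine ((c1.sub continuous_const).max continuous_const).div (c1.max continuous_const) ?_
    intro a
    exact (lt_of_lt_of_le hθ (le_max_right _ _)).ne'
  have cst : Continuous fun a => s a / tau9953 θ B (w a) := hs.div cτ hτ
  have cη : Continuous fun a => eta9953 θ B (s a) (w a) :=
    (continuous_const.sub hs).add (cst.mul cκ)
  refine (cη.mul c1).prodMk ((cη.smul c2).prodMk (Continuous.prodMk ?_ (Continuous.prodMk ?_ ?_)))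
  · refine continuous_pi fun m => ?_
    unfold pp9953
    refine ((continuous_const.sub hs).mul (c3m m)).add (cst.mul ?_)
    by_cases hm : m < B
    · simp only [if_pos hm]; exact cm m
    · simp only [if_neg hm]; exact continuous_const
  · exact ((continuous_const.sub hs).mul c4).add
      (cst.mul (continuous_finsetSum _ fun m _ => continuous_const.mul (cm m)))
  · exact cη.mul (((continuous_const.sub hs).mul c5).add
      (cst.mul (continuous_finsetSum _ fun m _ => (cm m).mul (c2m m).abs)))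

/-- TARGET -/
theorem trunc (X : Set Pt) (C : ℝ) (hC : 1 ≤ C) :
    ∃ n : ℕ, 3 ≤ n ∧ ∃ f : C({w : NN X // AA w.1 ≤ C}, NN X),
      ContinuousMap.Homotopic (⟨Subtype.val, continuous_subtype_val⟩ : C({w : NN X // AA w.1 ≤ C}, NN X)) f ∧
      ∀ w, Joinable n (f w).1 := by
  obtain ⟨B, hB⟩ := exists_nat_ge (max (2 * C + 1) 3)
  have hBC : 2 * C + 1 ≤ B := (le_max_left _ _).trans hB
  have hB3 : (3 : ℝ) ≤ B := (le_max_right _ _).trans hB
  have hB3' : 3 ≤ B := by exact_mod_cast hB3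
  obtain ⟨θ, hθdef⟩ : ∃ θ : ℝ, θ = 1 / (2 * B + 3) := ⟨_, rfl⟩
  have hθ : 0 < θ := by rw [hθdef]; positivity
  obtain ⟨n, hn⟩ := exists_nat_ge (max (B : ℝ) (C / θ ^ 2))
  have hnB : B ≤ n := by exact_mod_cast (le_max_left _ _).trans hn
  have hnC : C / θ ^ 2 ≤ n := (le_max_right _ _).trans hn
  have hθ1 : θ ≤ 1 := by
    rw [hθdef, div_le_one (by positivity)]; linarith
  have hnC' : C / θ ≤ n * θ := by
    rw [div_le_iff₀ (by positivity)] at hnC
    rw [div_le_iff₀ hθ]
    nlinarith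
  have hCθ : C ≤ C / θ := by
    rw [le_div_iff₀ hθ]; nlinarith
  have hτ : ∀ w : {w : NN X // AA w.1 ≤ C}, 0 < tau9953 θ B w.1.1 := fun w =>
    tau_pos9953 w.1.2 w.2 (by omega) hBC hθdef
  let G : unitInterval × {w : NN X // AA w.1 ≤ C} → NN X := fun z =>
    ⟨TT9953 θ B z.1.1 z.2.1.1, inN_TT9953 z.2.1.2 hθ (hτ z.2) z.1.2.1 z.1.2.2⟩
  have hG : Continuous G := by
    refine Continuous.subtype_mk ?_ _
    refine cont_TT9953 hθ B _ _ ?_ ?_ ?_
    · exact continuous_subtype_val.comp continuous_fst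
    · exact continuous_subtype_val.comp (continuous_subtype_val.comp continuous_snd)
    · intro z; exact (hτ z.2).ne'
  refine ⟨n, by omega, ⟨fun w => G (1, w), hG.comp (by fun_prop)⟩, ⟨⟨⟨G, hG⟩, ?_, ?_⟩⟩, ?_⟩
  · intro w
    apply Subtype.ext
    exact TT_zero9953 θ B w.1.1
  · intro w
    rfl
  · intro w
    have hw := w.1.2
    have hA := w.2
    have hτw := hτ w
    have hA2 : 0 ≤ w.1.1.2.2.2.1 :=
      hw.sum2.nonneg fun m => mul_nonneg (Nat.cast_nonneg m) (hw.p_nonneg m)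
    have hA3 : 0 ≤ w.1.1.2.2.2.2 :=
      hw.sum3.nonneg fun m => mul_nonneg (hw.p_nonneg m) (abs_nonneg _)
    have hAe : |w.1.1.2.1 1| ≤ C := by unfold AA at hA; linarith
    have hAA3 : w.1.1.2.2.2.2 ≤ C := by
      unfold AA at hA
      have := abs_nonneg (w.1.1.2.1 1)
      linarith
    have hη : eta9953 θ B 1 w.1.1 = 1 / tau9953 θ B w.1.1 * kap9953 θ w.1.1.1 := by
      unfold eta9953; ring
    have hη0 : 0 ≤ eta9953 θ B 1 w.1.1 := by
      rw [hη]; exact mul_nonneg (by positivity) (kap_nonneg9953 hθ)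
    have hppos : ∀ m, 0 < pp9953 θ B 1 w.1.1 m → m < B ∧ θ < w.1.1.2.2.1 m := by
      intro m hm
      unfold pp9953 at hm
      rw [sub_self, zero_mul, zero_add] at hm
      by_cases hmB : m < B
      · refine ⟨hmB, ?_⟩
        rw [if_pos hmB] at hm
        by_contra hle
        rw [max_eq_right (by linarith [not_lt.1 hle]), mul_zero] at hm
        exact lt_irrefl _ hm
      · rw [if_neg hmB, mul_zero] at hm
        exact absurd hm (lt_irrefl _)
    have hPpos : 0 < eta9953 θ B 1 w.1.1 * w.1.1.1 → θ < w.1.1.1 := by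
      intro hP
      rw [hη, mul_assoc, kap_mul9953 hθ] at hP
      by_contra hle
      rw [max_eq_right (by linarith [not_lt.1 hle]), mul_zero] at hP
      exact lt_irrefl _ hP
    have hfin : ∀ m, |w.1.1.2.1 m| ≤ C / θ → θ < w.1.1.1 →
        |(eta9953 θ B 1 w.1.1 • w.1.1.2.1) m| ≤ n * (eta9953 θ B 1 w.1.1 * w.1.1.1) := by
      intro m h1 h2
      rw [Pi.smul_apply, smul_eq_mul, abs_mul, abs_of_nonneg hη0]
      have h3 : |w.1.1.2.1 m| ≤ n * w.1.1.1 := by
        have h4 : (n : ℝ) * θ ≤ n * w.1.1.1 := by gcongr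
        linarith
      calc eta9953 θ B 1 w.1.1 * |w.1.1.2.1 m| ≤ eta9953 θ B 1 w.1.1 * (n * w.1.1.1) := by gcongr
        _ = n * (eta9953 θ B 1 w.1.1 * w.1.1.1) := by ring
    refine ⟨fun m hm => ?_, fun hP => ?_, fun m hP hm => ?_⟩
    · exact lt_of_lt_of_le (hppos m hm).1 hnB
    · exact hfin 1 (hAe.trans hCθ) (hPpos hP)
    · refine hfin m ?_ (hPpos hP)
      have h1 := (hppos m hm).2
      have h2 : w.1.1.2.2.1 m * |w.1.1.2.1 m| ≤ w.1.1.2.2.2.2 :=
        le_hasSum hw.sum3 m fun k _ => mul_nonneg (hw.p_nonneg k) (abs_nonneg _)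
      rw [le_div_iff₀ hθ]
      calc |w.1.1.2.1 m| * θ ≤ |w.1.1.2.1 m| * w.1.1.2.2.1 m := by gcongr
        _ = w.1.1.2.2.1 m * |w.1.1.2.1 m| := by ring
        _ ≤ C := h2.trans hAA3

end Pool.Agent.Helper286.Unst
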