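import Pool.Agent.Helper286.Unst.N1
import Pool.Agent.Helper286.Unst.N2
import Pool.Agent.Helper286.Unst.N3

open Set Topology

namespace Pool.Agent.Helper286.Unst

/-- TARGET -/
theorem contract (X : Set Pt) (base : NN X)
    (hbase : base.1 = (0, 0, Pi.single 2 1, (2 : ℝ), 0)) (δ : ℝ) (hδ : 0 < δ) :
    ContinuousMap.Homotopic
      (⟨Subtype.val, continuous_subtype_val⟩ : C({ξ : NN X // δ ≤ ell ξ.1}, NN X))
      (ContinuousMap.const _ base) := by
  obtain ⟨x, hx, -⟩ := base.2.e_mem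
  have hX : X.Nonempty := ⟨x, hx⟩
  obtain ⟨n, hn, f, hf, hj⟩ := trunc X (max 1 (1 / δ)) (le_max_left _ _)
  let d : NN X := ⟨(0, 0, Pi.single n 1, (n : ℝ), 0), InN_vertex X hX n (by omega)⟩
  have hA : ∀ ξ : {ξ : NN X // δ ≤ ell ξ.1}, AA ξ.1.1 ≤ max 1 (1 / δ) := by
    intro ξ
    have h0 := (ell_props X).2.2.2 ξ.1
    have h1 := ξ.2
    unfold ell at h1
    rw [le_div_iff₀ (by linarith)] at h1
    refine le_trans ?_ (le_max_right _ _)
    rw [le_div_iff₀ hδ]
    nlinarith
  let g : C({ξ : NN X // δ ≤ ell ξ.1}, {w : NN X // AA w.1 ≤ max 1 (1 / δ)}) :=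
    ⟨fun ξ => ⟨ξ.1, hA ξ⟩, continuous_subtype_val.subtype_mk _⟩
  have h1 := ContinuousMap.Homotopic.comp hf (ContinuousMap.Homotopic.refl g)
  have h2 := join_vertex X n hn (f.comp g) (fun w => hj (g w)) d rfl
  have h3 := join_vertex X n hn
    (ContinuousMap.const {ξ : NN X // δ ≤ ell ξ.1} base) (fun w => by
      show Joinable n base.1
      rw [hbase]
      refine ⟨?_, ?_, ?_⟩
      · intro m hm
        by_cases h : m = 2
        · omega
        · simp [Pi.single_apply, h] at hm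
      · intro h; exact absurd h (lt_irrefl _)
      · intro m h; exact absurd h (lt_irrefl _)) d rfl
  exact (h1.trans h2).trans h3.symm

end Pool.Agent.Helper286.Unst
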