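import Pool.Agent.Helper286.Unst.Pt

open Set Topology

namespace Pool.Agent.Helper286.Unst

/-- Ambient space of tuples (P, e, p, A2, A3). -/
abbrev WW := ℝ × (ℕ → ℝ) × (ℕ → ℝ) × ℝ × ℝ

/-- The space N over X: P is the mass of the point at infinity, e = P x with x in X,
p n is the mass of the label n, A2 and A3 are the two moments. -/
structure InN (X : Set Pt) (w : WW) : Prop where
  P_nonneg : 0 ≤ w.1
  e_mem : ∃ x ∈ X, w.2.1 = w.1 • x
  p_nonneg : ∀ n, 0 ≤ w.2.2.1 n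
  p_zero : w.2.2.1 0 = 0
  p_one : w.2.2.1 1 = 0
  sum1 : HasSum w.2.2.1 (1 - w.1)
  sum2 : HasSum (fun n : ℕ => (n : ℝ) * w.2.2.1 n) w.2.2.2.1
  sum3 : HasSum (fun n : ℕ => w.2.2.1 n * |w.2.1 n|) w.2.2.2.2
  c1 : ∀ n : ℕ, 0 < w.1 → 0 < w.2.2.1 n → |w.2.1 1| ≤ n * w.1
  c2 : ∀ m n : ℕ, m < n → 0 < w.1 → 0 < w.2.2.1 m → 0 < w.2.2.1 n → |w.2.1 m| ≤ n * w.1

/-- The space N. -/
abbrev NN (X : Set Pt) : Type := {w : WW // InN X w}

/-- The size function. -/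
noncomputable def AA (w : WW) : ℝ := |w.2.1 1| + w.2.2.2.1 + w.2.2.2.2

/-- The height function. -/
noncomputable def ell (w : WW) : ℝ := 1 / (1 + AA w)

/-- The three properties needed to join with the vertex n. -/
def Joinable (n : ℕ) (w : WW) : Prop :=
  (∀ m, 0 < w.2.2.1 m → m < n) ∧ (0 < w.1 → |w.2.1 1| ≤ n * w.1) ∧
    (∀ m, 0 < w.1 → 0 < w.2.2.1 m → |w.2.1 m| ≤ n * w.1)

end Pool.Agent.Helper286.Unst
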