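import Pool.Agent.Helper286.Unst.R7
import Pool.Agent.Helper286.Unst.NDefs

open Cardinal Set Topology

namespace Pool.Agent.Helper286.Unst

-- TARGET
/-- Points near which the word is x itself. -/
def O0 (X : Set Pt) (F : ↥X × unitInterval → WW) : Set (Pt × ℝ) :=
  {z | ∃ U J, IsOpen U ∧ IsOpen J ∧ z.1 ∈ U ∧ z.2 ∈ J ∧ ∀ (x : ↥X) (t : unitInterval),
    x.1 ∈ U → t.1 ∈ J → 0 < (F (x, t)).1 ∧ (F (x, t)).2.1 = (F (x, t)).1 • x.1}

/-- Points near which the word is constant. -/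
def O1 (X : Set Pt) (F : ↥X × unitInterval → WW) : Set (Pt × ℝ) :=
  {z | ∃ U J κ, IsOpen U ∧ IsOpen J ∧ z.1 ∈ U ∧ z.2 ∈ J ∧ ∀ (x : ↥X) (t : unitInterval),
    x.1 ∈ U → t.1 ∈ J → 0 < (F (x, t)).1 ∧ (F (x, t)).2.1 = (F (x, t)).1 • κ}

/-- Points near which the label n has positive mass. -/
def On (X : Set Pt) (F : ↥X × unitInterval → WW) (n : ℕ) : Set (Pt × ℝ) :=
  {z | ∃ U J, IsOpen U ∧ IsOpen J ∧ z.1 ∈ U ∧ z.2 ∈ J ∧ ∀ (x : ↥X) (t : unitInterval),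
    x.1 ∈ U → t.1 ∈ J → 0 < (F (x, t)).2.2.1 n}

theorem beta_mem_9955 {X : Set Pt} {w : WW} (hw : InN X w) (hP : 0 < w.1) :
    (w.1)⁻¹ • w.2.1 ∈ X ∧ w.2.1 = w.1 • ((w.1)⁻¹ • w.2.1) := by
  obtain ⟨x, hx, he⟩ := hw.e_mem
  constructor
  · rw [he, smul_smul, inv_mul_cancel₀ hP.ne', one_smul]
    exact hx
  · rw [smul_smul, mul_inv_cancel₀ hP.ne', one_smul]

theorem local_structure (X : Set Pt) (hX : Rigid X) (F : ↥X × unitInterval → WW)
    (hF : Continuous F) (hN : ∀ z, InN X (F z)) (x : ↥X) (t : unitInterval)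
    (hP : 0 < (F (x, t)).1) : (x.1, t.1) ∈ O0 X F ∪ O1 X F := by
  classical
  have hV : {z : ↥X × unitInterval | 0 < (F z).1} ∈ 𝓝 (x, t) :=
    (isOpen_lt continuous_const hF.fst).mem_nhds hP
  rw [mem_nhds_prod_iff] at hV
  obtain ⟨u, hu, v, hv, huv⟩ := hV
  rw [mem_nhds_subtype] at hu hv
  obtain ⟨U', hU', hU'u⟩ := hu
  obtain ⟨J', hJ', hJ'v⟩ := hv
  obtain ⟨U'', ⟨hU''n, hU''c⟩, hU''⟩ :=
    (LocallyConvexSpace.convex_basis (𝕜 := ℝ) (x : Pt)).mem_iff.1 hU'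
  obtain ⟨ε, hε, hεJ⟩ := Metric.mem_nhds_iff.1 hJ'
  set U : Set Pt := interior U'' with hU
  set J : Set ℝ := Metric.ball (t : ℝ) ε with hJ
  have hUo : IsOpen U := isOpen_interior
  have hUc : Convex ℝ U := hU''c.interior
  have hxU : (x : Pt) ∈ U := mem_interior_iff_mem_nhds.2 hU''n
  have htJ : (t : ℝ) ∈ J := Metric.mem_ball_self hε
  have hpos : ∀ (x' : ↥X) (t' : unitInterval), x'.1 ∈ U → t'.1 ∈ J → 0 < (F (x', t')).1 := by
    intro x' t' hx' ht'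
    have h1 : x' ∈ u := hU'u (hU'' (interior_subset hx'))
    have h2 : t' ∈ v := hJ'v (hεJ ht')
    exact huv (Set.mk_mem_prod h1 h2)
  have hconst : ∀ (x' : ↥X) (t' : unitInterval), x'.1 ∈ U → t'.1 ∈ J →
      ((F (x', t')).1)⁻¹ • (F (x', t')).2.1 = ((F (x', t)).1)⁻¹ • (F (x', t)).2.1 := by
    intro x' t' hx' ht'
    set γ : ℝ → Pt := fun r => ((F (x', projIcc 0 1 zero_le_one r)).1)⁻¹ •
      (F (x', projIcc 0 1 zero_le_one r)).2.1 with hγ
    have hsub : ∀ r ∈ Icc (min (t' : ℝ) t) (max (t' : ℝ) t), r ∈ J ∧ r ∈ Icc (0 : ℝ) 1 := by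
      intro r hr
      have hJc : Convex ℝ J := convex_ball _ _
      constructor
      · have hmin : min (t' : ℝ) t ∈ J := by
          rcases min_choice (t' : ℝ) t with h | h <;> rw [h] <;> assumption
        have hmax : max (t' : ℝ) t ∈ J := by
          rcases max_choice (t' : ℝ) t with h | h <;> rw [h] <;> assumption
        exact hJc.ordConnected.out hmin hmax hr
      · exact ⟨(le_min t'.2.1 t.2.1).trans hr.1, hr.2.trans (max_le t'.2.2 t.2.2)⟩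
    have hproj : ∀ r ∈ Icc (min (t' : ℝ) t) (max (t' : ℝ) t),
        0 < (F (x', projIcc 0 1 zero_le_one r)).1 := by
      intro r hr
      apply hpos x' _ hx'
      rw [projIcc_of_mem zero_le_one (hsub r hr).2]
      exact (hsub r hr).1
    have hFc : Continuous (fun r : ℝ => F (x', projIcc 0 1 zero_le_one r)) :=
      hF.comp (continuous_const.prodMk continuous_projIcc)
    have hγc : ContinuousOn γ (Icc (min (t' : ℝ) t) (max (t' : ℝ) t)) := by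
      have c1 : ContinuousOn (fun r : ℝ => ((F (x', projIcc 0 1 zero_le_one r)).1)⁻¹)
          (Icc (min (t' : ℝ) t) (max (t' : ℝ) t)) :=
        hFc.fst.continuousOn.inv₀ (fun r hr => (hproj r hr).ne')
      have c2 : ContinuousOn (fun r : ℝ => (F (x', projIcc 0 1 zero_le_one r)).2.1)
          (Icc (min (t' : ℝ) t) (max (t' : ℝ) t)) := hFc.snd.fst.continuousOn
      exact c1.smul c2
    have hγm : ∀ r ∈ Icc (min (t' : ℝ) t) (max (t' : ℝ) t), γ r ∈ X := fun r hr =>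
      (beta_mem_9955 (hN _) (hproj r hr)).1
    have := hX.path γ _ _ hγc hγm t' ⟨min_le_left _ _, le_max_left _ _⟩ t
      ⟨min_le_right _ _, le_max_right _ _⟩
    simpa [hγ, projIcc_val] using this
  set g : Pt → Pt := fun y => if h : y ∈ X then ((F (⟨y, h⟩, t)).1)⁻¹ • (F (⟨y, h⟩, t)).2.1 else 0
    with hg
  have hgX : ∀ (y : Pt) (h : y ∈ X), g y = ((F (⟨y, h⟩, t)).1)⁻¹ • (F (⟨y, h⟩, t)).2.1 := by
    intro y h
    simp only [hg, dif_pos h]
  have hgc : ContinuousOn g (U ∩ X) := by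
    rw [continuousOn_iff_continuous_restrict]
    refine Continuous.congr (f := fun y : ↥(U ∩ X) =>
        ((F (⟨y.1, y.2.2⟩, t)).1)⁻¹ • (F (⟨y.1, y.2.2⟩, t)).2.1) ?_
        (fun y => (hgX y.1 y.2.2).symm)
    have hFc : Continuous (fun y : ↥(U ∩ X) => F (⟨y.1, y.2.2⟩, t)) :=
      hF.comp ((continuous_subtype_val.subtype_mk _).prodMk continuous_const)
    exact (hFc.fst.inv₀ (fun y => (hpos ⟨y.1, y.2.2⟩ t y.2.1 htJ).ne')).smul hFc.snd.fst
  have hgm : MapsTo g (U ∩ X) X := by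
    intro y hy
    rw [hgX y hy.2]
    exact (beta_mem_9955 (hN _) (hpos ⟨y, hy.2⟩ t hy.1 htJ)).1
  rcases hX.dich U hUo hUc g hgc hgm with h | ⟨κ, h⟩
  · left
    refine ⟨U, J, hUo, Metric.isOpen_ball, hxU, htJ, fun x' t' hx' ht' => ?_⟩
    have h1 := hpos x' t' hx' ht'
    refine ⟨h1, ?_⟩
    rw [(beta_mem_9955 (hN _) h1).2, hconst x' t' hx' ht']
    have h2 := h x'.1 ⟨hx', x'.2⟩
    rw [hgX x'.1 x'.2] at h2
    rw [h2]
  · right
    refine ⟨U, J, κ, hUo, Metric.isOpen_ball, hxU, htJ, fun x' t' hx' ht' => ?_⟩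
    have h1 := hpos x' t' hx' ht'
    refine ⟨h1, ?_⟩
    rw [(beta_mem_9955 (hN _) h1).2, hconst x' t' hx' ht']
    have h2 := h x'.1 ⟨hx', x'.2⟩
    rw [hgX x'.1 x'.2] at h2
    rw [h2]

end Pool.Agent.Helper286.Unst
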