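import Pool.Agent.Helper286.Unst.P1
import Pool.Agent.Helper286.Unst.LabL

open Cardinal Set Topology

namespace Pool.Agent.Helper286.Unst

theorem no_null_open (φ : Set Pt → Set ℝ → Prop) :
    IsOpen {z : Pt × ℝ | ∃ U J, IsOpen U ∧ IsOpen J ∧ z.1 ∈ U ∧ z.2 ∈ J ∧ φ U J} := by
  rw [isOpen_iff_forall_mem_open]
  rintro z ⟨U, J, hU, hJ, hzU, hzJ, h⟩
  refine ⟨U ×ˢ J, ?_, hU.prod hJ, ⟨hzU, hzJ⟩⟩
  rintro z' ⟨h1, h2⟩
  exact ⟨U, J, hU, hJ, h1, h2, h⟩

theorem no_null_O0 (X : Set Pt) (F : ↥X × unitInterval → WW) : IsOpen (O0 X F) :=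
  no_null_open (fun U J => ∀ (x : ↥X) (t : unitInterval),
    x.1 ∈ U → t.1 ∈ J → 0 < (F (x, t)).1 ∧ (F (x, t)).2.1 = (F (x, t)).1 • x.1)

theorem no_null_O1 (X : Set Pt) (F : ↥X × unitInterval → WW) : IsOpen (O1 X F) := by
  have h := no_null_open (fun U J => ∃ κ : Pt, ∀ (x : ↥X) (t : unitInterval),
    x.1 ∈ U → t.1 ∈ J → 0 < (F (x, t)).1 ∧ (F (x, t)).2.1 = (F (x, t)).1 • κ)
  convert h using 1
  ext z
  constructor
  · rintro ⟨U, J, κ, h1, h2, h3, h4, h5⟩
    exact ⟨U, J, h1, h2, h3, h4, κ, h5⟩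
  · rintro ⟨U, J, h1, h2, h3, h4, κ, h5⟩
    exact ⟨U, J, κ, h1, h2, h3, h4, h5⟩

theorem no_null_On (X : Set Pt) (F : ↥X × unitInterval → WW) (n : ℕ) : IsOpen (On X F n) :=
  no_null_open (fun U J => ∀ (x : ↥X) (t : unitInterval),
    x.1 ∈ U → t.1 ∈ J → 0 < (F (x, t)).2.2.1 n)

/-- the covered set -/
def no_null_C (X : Set Pt) (F : ↥X × unitInterval → WW) : Set (Pt × ℝ) :=
  O0 X F ∪ O1 X F ∪ ⋃ n : {n : ℕ // 2 ≤ n}, On X F n.1

theorem no_null_cover (X : Set Pt) (hX : Rigid X) (F : ↥X × unitInterval → WW)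
    (hF : Continuous F) (hN : ∀ z, InN X (F z)) (x : ↥X) (t : unitInterval) :
    (x.1, t.1) ∈ no_null_C X F := by
  by_cases hP : 0 < (F (x, t)).1
  · exact Or.inl (local_structure X hX F hF hN x t hP)
  · have hP0 : (F (x, t)).1 = 0 := le_antisymm (not_lt.mp hP) (hN _).P_nonneg
    have hsum := (hN (x, t)).sum1
    rw [hP0, sub_zero] at hsum
    obtain ⟨n, hn⟩ : ∃ n, (F (x, t)).2.2.1 n ≠ 0 := by
      by_contra hneg
      push Not at hneg
      have h1 : (F (x, t)).2.2.1 = fun _ => 0 := funext hneg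
      rw [h1] at hsum
      have := hsum.unique hasSum_zero
      norm_num at this
    have hnpos : 0 < (F (x, t)).2.2.1 n := lt_of_le_of_ne ((hN (x, t)).p_nonneg n) hn.symm
    have hn2 : 2 ≤ n := by
      rcases n with _ | _ | n
      · exact absurd (hN (x, t)).p_zero hn
      · exact absurd (hN (x, t)).p_one hn
      · omega
    refine Or.inr (Set.mem_iUnion.mpr ⟨⟨n, hn2⟩, ?_⟩)
    have hcont : Continuous fun z : ↥X × unitInterval => (F z).2.2.1 n :=
      (continuous_apply n).comp (hF.snd.snd.fst)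
    have hopen : IsOpen {z : ↥X × unitInterval | 0 < (F z).2.2.1 n} :=
      isOpen_lt continuous_const hcont
    obtain ⟨U', J', hU', hJ', hxU, htJ, hsub⟩ := isOpen_prod_iff.mp hopen x t hnpos
    obtain ⟨U, hU, rfl⟩ := isOpen_induced_iff.mp hU'
    obtain ⟨J, hJ, rfl⟩ := isOpen_induced_iff.mp hJ'
    refine ⟨U, J, hU, hJ, hxU, htJ, ?_⟩
    intro x' t' hx' ht'
    exact hsub (⟨hx', ht'⟩ : (x', t') ∈ _ ×ˢ _)

/-- TARGET -/
theorem no_null (X : Set Pt) (hX : Rigid X) (F : ↥X × unitInterval → WW)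
    (hF : Continuous F) (hN : ∀ z, InN X (F z)) (h0 : ∀ x : ↥X, F (x, 0) = (1, x.1, 0, 0, 0))
    (h1 : ∀ x : ↥X, (F (x, 1)).1 = 0) : False := by
  have hCo : IsOpen (no_null_C X F) :=
    ((no_null_O0 X F).union (no_null_O1 X F)).union (isOpen_iUnion fun n => no_null_On X F n.1)
  -- the closed set of bad points
  let K : Set (Pt × unitInterval) := {z | (z.1, (z.2 : ℝ)) ∉ no_null_C X F}
  have hK : IsClosed K := by
    have hc : Continuous fun z : Pt × unitInterval => (z.1, (z.2 : ℝ)) := by fun_prop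
    exact (hCo.preimage hc).isClosed_compl
  have hF0 : IsClosed (Prod.fst '' K) := isClosedMap_fst_of_compactSpace _ hK
  have hdis : Disjoint (Prod.fst '' K) X := by
    rw [Set.disjoint_left]
    rintro _ ⟨⟨y, t⟩, hz, rfl⟩ hy
    exact hz (no_null_cover X hX F hF hN ⟨y, hy⟩ t)
  have hcount := hX.countable _ hF0 hdis
  obtain ⟨s, hs⟩ : ∃ s : ℝ, s ∉ (fun y : Pt => y 0) '' (Prod.fst '' K) := by
    by_contra hneg
    push Not at hneg
    have h2 : (fun y : Pt => y 0) '' (Prod.fst '' K) = Set.univ := Set.eq_univ_of_forall hneg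
    have h3 := hcount.image (fun y : Pt => y 0)
    rw [h2] at h3
    exact Set.not_countable_univ h3
  have hs' : ∀ (y : Pt) (t : unitInterval), y 0 = s → (y, (t : ℝ)) ∈ no_null_C X F := by
    intro y t hy
    by_contra hneg
    exact hs ⟨y, ⟨(y, t), hneg, rfl⟩, hy⟩
  let g : Pt → Pt × ℝ := fun y => (Function.update y 0 s, max 0 (min (y 0) 1))
  have hg : Continuous g := by
    have e1 : Continuous fun y : Pt => Function.update y 0 s :=
      continuous_id.update 0 continuous_const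
    have e2 : Continuous fun y : Pt => max (0 : ℝ) (min (y 0) 1) :=
      continuous_const.max ((continuous_apply 0).min continuous_const)
    exact e1.prodMk e2
  let T : Pt → unitInterval := fun y => ⟨max 0 (min (y 0) 1), le_max_left _ _,
    max_le zero_le_one (min_le_right _ _)⟩
  have hgT : ∀ y, g y = (Function.update y 0 s, (T y : ℝ)) := fun y => rfl
  let O' : ℕ → Set (Pt × ℝ) := fun n => if n = 0 then O0 X F else if n = 1 then O1 X F else On X F n
  have hO0 : O' 0 = O0 X F := by simp [O']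
  have hO1 : O' 1 = O1 X F := by simp [O']
  have hOn : ∀ n, 2 ≤ n → O' n = On X F n := by
    intro n hn
    simp only [O']
    rw [if_neg (by omega), if_neg (by omega)]
  have hO'open : ∀ n, IsOpen (O' n) := by
    intro n
    simp only [O']
    split_ifs
    · exact no_null_O0 X F
    · exact no_null_O1 X F
    · exact no_null_On X F n
  have hpt : ∀ (U : Set Pt), IsOpen U → U.Nonempty → ∃ x : ↥X, x.1 ∈ U := by
    intro U hU hne
    obtain ⟨x, hx, -⟩ := hX.dense U hU hne 0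
    exact ⟨⟨x, hx.2⟩, hx.1⟩
  refine no_label_cover (fun n => g ⁻¹' (O' n)) (fun n => (hO'open n).preimage hg) ?_ ?_ ?_ ?_ ?_ ?_
  · intro y
    have hy := hs' (Function.update y 0 s) (T y) (by simp)
    rcases hy with (hy | hy) | hy
    · exact ⟨0, by rw [Set.mem_preimage, hO0]; exact hy⟩
    · exact ⟨1, by rw [Set.mem_preimage, hO1]; exact hy⟩
    · obtain ⟨⟨n, hn⟩, hy⟩ := Set.mem_iUnion.mp hy
      exact ⟨n, by rw [Set.mem_preimage, hOn n hn]; exact hy⟩
  · intro y hy0 hy1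
    rw [Set.mem_preimage, hO0] at hy0
    rw [Set.mem_preimage, hO1] at hy1
    obtain ⟨U0, J0, hU0, hJ0, hz0, ht0, H0⟩ := hy0
    obtain ⟨U1, J1, κ, hU1, hJ1, hz1, ht1, H1⟩ := hy1
    obtain ⟨x, ⟨hxU, hxX⟩, hxκ⟩ := hX.dense (U0 ∩ U1) (hU0.inter hU1) ⟨_, hz0, hz1⟩ κ
    obtain ⟨a1, a2⟩ := H0 ⟨x, hxX⟩ (T y) hxU.1 ht0
    obtain ⟨b1, b2⟩ := H1 ⟨x, hxX⟩ (T y) hxU.2 ht1
    rw [a2] at b2
    exact hxκ (smul_right_injective _ a1.ne' b2)
  · intro n y hn hy0 hyn
    rw [Set.mem_preimage, hO0] at hy0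
    rw [Set.mem_preimage, hOn n hn] at hyn
    obtain ⟨U0, J0, hU0, hJ0, hz0, ht0, H0⟩ := hy0
    obtain ⟨U1, J1, hU1, hJ1, hz1, ht1, H1⟩ := hyn
    by_contra hneg
    push Not at hneg
    have hopen : IsOpen {w : Pt | (n : ℝ) < w 1} := isOpen_lt continuous_const (continuous_apply 1)
    obtain ⟨x, hx⟩ := hpt (U0 ∩ U1 ∩ {w : Pt | (n : ℝ) < w 1}) ((hU0.inter hU1).inter hopen)
      ⟨Function.update y 0 s, ⟨hz0, hz1⟩, by
        show (n : ℝ) < Function.update y 0 s 1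
        rw [Function.update_of_ne (by norm_num)]
        exact hneg⟩
    obtain ⟨a1, a2⟩ := H0 x (T y) hx.1.1 ht0
    have b1 := H1 x (T y) hx.1.2 ht1
    have c := (hN (x, T y)).c1 n a1 b1
    rw [a2, Pi.smul_apply, smul_eq_mul, abs_mul, abs_of_pos a1, mul_comm] at c
    have c2 := le_of_mul_le_mul_right c a1
    have hx2 : (n : ℝ) < x.1 1 := hx.2
    have := le_abs_self (x.1 1)
    linarith
  · intro m n y hm hmn hy0 hym hyn
    rw [Set.mem_preimage, hO0] at hy0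
    rw [Set.mem_preimage, hOn m hm] at hym
    rw [Set.mem_preimage, hOn n (by omega)] at hyn
    obtain ⟨U0, J0, hU0, hJ0, hz0, ht0, H0⟩ := hy0
    obtain ⟨U1, J1, hU1, hJ1, hz1, ht1, H1⟩ := hyn
    obtain ⟨U2, J2, hU2, hJ2, hz2, ht2, H2⟩ := hym
    by_contra hneg
    push Not at hneg
    have hopen : IsOpen {w : Pt | (n : ℝ) < w m} := isOpen_lt continuous_const (continuous_apply m)
    obtain ⟨x, hx⟩ := hpt (U0 ∩ U1 ∩ U2 ∩ {w : Pt | (n : ℝ) < w m})
      (((hU0.inter hU1).inter hU2).inter hopen)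
      ⟨Function.update y 0 s, ⟨⟨hz0, hz1⟩, hz2⟩, by
        show (n : ℝ) < Function.update y 0 s m
        rw [Function.update_of_ne (by omega)]
        exact hneg⟩
    obtain ⟨a1, a2⟩ := H0 x (T y) hx.1.1.1 ht0
    have b1 := H1 x (T y) hx.1.1.2 ht1
    have b2 := H2 x (T y) hx.1.2 ht2
    have c := (hN (x, T y)).c2 m n hmn a1 b2 b1
    rw [a2, Pi.smul_apply, smul_eq_mul, abs_mul, abs_of_pos a1, mul_comm] at c
    have c2 := le_of_mul_le_mul_right c a1
    have hx2 : (n : ℝ) < x.1 m := hx.2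
    have := le_abs_self (x.1 m)
    linarith
  · intro n y hy hyn
    have hT : T y = 0 := by
      apply Subtype.ext
      show max (0 : ℝ) (min (y 0) 1) = 0
      exact max_eq_left ((min_le_left _ _).trans hy)
    by_contra hn0
    by_cases hn1 : n = 1
    · subst hn1
      rw [Set.mem_preimage, hO1] at hyn
      obtain ⟨U1, J1, κ, hU1, hJ1, hz1, ht1, H1⟩ := hyn
      obtain ⟨x, ⟨hxU, hxX⟩, hxκ⟩ := hX.dense U1 hU1 ⟨_, hz1⟩ κ
      obtain ⟨b1, b2⟩ := H1 ⟨x, hxX⟩ (T y) hxU ht1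
      rw [hT, h0] at b2
      simp only [one_smul] at b2
      exact hxκ b2
    · rw [Set.mem_preimage, hOn n (by omega)] at hyn
      obtain ⟨U1, J1, hU1, hJ1, hz1, ht1, H1⟩ := hyn
      obtain ⟨x, hx⟩ := hpt U1 hU1 ⟨_, hz1⟩
      have b1 := H1 x (T y) hx ht1
      rw [hT, h0] at b1
      simp at b1
  · intro y hy hy0
    have hT : T y = 1 := by
      apply Subtype.ext
      show max (0 : ℝ) (min (y 0) 1) = 1
      rw [min_eq_right hy]
      exact max_eq_right zero_le_one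
    rw [Set.mem_preimage, hO0] at hy0
    obtain ⟨U0, J0, hU0, hJ0, hz0, ht0, H0⟩ := hy0
    obtain ⟨x, hx⟩ := hpt U0 hU0 ⟨_, hz0⟩
    have b1 := (H0 x (T y) hx ht0).1
    rw [hT, h1] at b1
    exact lt_irrefl _ b1

end Pool.Agent.Helper286.Unst
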