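import Pool.Agent.Helper286.Unst.P2
import Pool.Agent.Helper286.Unst.N1

open Cardinal Set Topology

namespace Pool.Agent.Helper286.Unst

/-- TARGET -/
theorem not_nullhomotopic (X : Set Pt) (hX : Rigid X) (base : NN X)
    (hbase : base.1 = (0, 0, Pi.single 2 1, (2 : ℝ), 0)) :
    ¬ ContinuousMap.Homotopic (ContinuousMap.id (NN X)) (ContinuousMap.const (NN X) base) := by
  rintro ⟨H⟩
  refine no_null X hX (fun q => (H (q.2, ⟨(1, q.1.1, 0, 0, 0), InN_point X q.1.1 q.1.2⟩)).1)
    ?_ ?_ ?_ ?_
  · refine continuous_subtype_val.comp (H.continuous.comp ?_)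
    refine continuous_snd.prodMk ?_
    refine Continuous.subtype_mk ?_ _
    exact continuous_const.prodMk ((continuous_subtype_val.comp continuous_fst).prodMk
      (continuous_const.prodMk (continuous_const.prodMk continuous_const)))
  · intro z
    exact (H (z.2, ⟨(1, z.1.1, 0, 0, 0), InN_point X z.1.1 z.1.2⟩)).2
  · intro x
    show (H (0, ⟨(1, x.1, 0, 0, 0), InN_point X x.1 x.2⟩)).1 = _
    rw [H.apply_zero]
    rfl
  · intro x
    show (H (1, ⟨(1, x.1, 0, 0, 0), InN_point X x.1 x.2⟩)).1.1 = 0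
    rw [H.apply_one]
    show base.1.1 = 0
    rw [hbase]

end Pool.Agent.Helper286.Unst
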