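import Pool.Agent.Helper286.Unst.Q1

open Set Topology

namespace Pool.Agent.Helper286.Unst

/-- clamp used for the angle -/
noncomputable def cone_top_th (t : ℝ) : ℝ := max 0 (min 1 (3 * t - 1))
/-- clamp used for the radius -/
noncomputable def cone_top_ta (t : ℝ) : ℝ := max 0 (min 1 (min (3 * t) (3 * (1 - t))))
/-- cutoff in the radius -/
noncomputable def cone_top_la (δ r : ℝ) : ℝ := max 0 (min 1 ((2 * δ - r) / δ))

theorem cone_top_th_cont : Continuous cone_top_th := by
  unfold cone_top_th; fun_prop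
theorem cone_top_ta_cont : Continuous cone_top_ta := by
  unfold cone_top_ta; fun_prop
theorem cone_top_la_cont (δ : ℝ) : Continuous (cone_top_la δ) := by
  unfold cone_top_la
  exact continuous_const.max (continuous_const.min ((continuous_const.sub continuous_id).div_const δ))

theorem cone_top_th_mem (t : ℝ) : 0 ≤ cone_top_th t ∧ cone_top_th t ≤ 1 :=
  ⟨le_max_left _ _, max_le zero_le_one (min_le_left _ _)⟩
theorem cone_top_ta_mem (t : ℝ) : 0 ≤ cone_top_ta t ∧ cone_top_ta t ≤ 1 :=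
  ⟨le_max_left _ _, max_le zero_le_one (min_le_left _ _)⟩
theorem cone_top_la_mem (δ t : ℝ) : 0 ≤ cone_top_la δ t ∧ cone_top_la δ t ≤ 1 :=
  ⟨le_max_left _ _, max_le zero_le_one (min_le_left _ _)⟩

theorem cone_top_th_zero {t : ℝ} (h : t ≤ 1 / 3) : cone_top_th t = 0 := by
  unfold cone_top_th
  exact max_eq_left ((min_le_right _ _).trans (by linarith))
theorem cone_top_th_one {t : ℝ} (h : 2 / 3 ≤ t) : cone_top_th t = 1 := by
  unfold cone_top_th
  rw [min_eq_left (by linarith), max_eq_right zero_le_one]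
theorem cone_top_ta_one {t : ℝ} (h : 1 / 3 ≤ t) (h' : t ≤ 2 / 3) : cone_top_ta t = 1 := by
  unfold cone_top_ta
  rw [min_eq_left (le_min (by linarith) (by linarith)), max_eq_right zero_le_one]
theorem cone_top_ta_0 : cone_top_ta 0 = 0 := by
  unfold cone_top_ta; norm_num
theorem cone_top_ta_1 : cone_top_ta 1 = 0 := by
  unfold cone_top_ta; norm_num
theorem cone_top_la_self {δ : ℝ} (h : 0 < δ) : cone_top_la δ δ = 1 := by
  unfold cone_top_la
  have : (2 * δ - δ) / δ = 1 := by field_simp; ring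
  rw [this]; norm_num
theorem cone_top_la_zero {δ r : ℝ} (h : 0 < δ) (hr : 2 * δ ≤ r) : cone_top_la δ r = 0 := by
  unfold cone_top_la
  exact max_eq_left ((min_le_right _ _).trans (div_nonpos_of_nonpos_of_nonneg (by linarith) h.le))

/-- TARGET -/
theorem cone_top {N : Type} [TopologicalSpace N] (b : N → (ℕ → ℝ)) (hb : IsEmbedding b)
    (hb1 : ∀ ξ i, |b ξ i| ≤ 1) (ℓ : N → ℝ) (hℓ : Continuous ℓ) (hpos : ∀ ξ, 0 < ℓ ξ)
    (hle : ∀ ξ, ℓ ξ ≤ 1) (base : N)
    (hcon : ∀ δ : ℝ, 0 < δ → ContinuousMap.Homotopic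
      (⟨Subtype.val, continuous_subtype_val⟩ : C({ξ : N // δ ≤ ℓ ξ}, N))
      (ContinuousMap.const _ base))
    (a : ConeSet b ℓ) (ha : a.1 = (0, 0)) (O : Set (ConeSet b ℓ)) (hO : O ∈ 𝓝 a) :
    ∃ h : ConeSet b ℓ × unitInterval → ConeSet b ℓ, Continuous h ∧ (∀ x, h (x, 0) = x) ∧
      (∀ x t, h (x, t) = x ∨ (x ∈ O ∧ h (x, t) ∈ O)) ∧ ∀ x, h (x, 1) ≠ a := by
  classical
  obtain ⟨δ0, hδ0, hO0⟩ := apex_nhds b hb hb1 ℓ hℓ hpos hle a ha O hO
  obtain ⟨δ, hδe⟩ : ∃ δ, δ = δ0 / 3 := ⟨_, rfl⟩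
  have hδ : 0 < δ := by rw [hδe]; positivity
  have hO1 : ∀ x : ConeSet b ℓ, x.1.1 < 3 * δ → x ∈ O := fun x hx => hO0 x (by linarith)
  haveI : Nonempty N := ⟨base⟩
  obtain ⟨ang, hangc, hang1, -⟩ := exists_ang b hb hb1 ℓ hℓ hpos hle
  obtain ⟨G⟩ := hcon δ hδ
  have hG0 : ∀ ξ : {ξ : N // δ ≤ ℓ ξ}, G (0, ξ) = ξ.1 := fun ξ => G.apply_zero ξ
  have hG1 : ∀ ξ : {ξ : N // δ ≤ ℓ ξ}, G (1, ξ) = base := fun ξ => G.apply_one ξ
  -- radius continuous
  have hrc : Continuous (fun p : ConeSet b ℓ × unitInterval => p.1.1.1) :=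
    continuous_fst.comp (continuous_subtype_val.comp continuous_fst)
  have htc : Continuous (fun p : ConeSet b ℓ × unitInterval => (p.2 : ℝ)) :=
    continuous_subtype_val.comp continuous_snd
  have hxc : Continuous (fun p : ConeSet b ℓ × unitInterval => p.1.1.2) :=
    continuous_snd.comp (continuous_subtype_val.comp continuous_fst)
  -- the piece on the outer part
  obtain ⟨af, haf⟩ : ∃ af : {p : ConeSet b ℓ × unitInterval // δ ≤ p.1.1.1} → {ξ : N // δ ≤ ℓ ξ},
      ∀ p, (af p).1 = ang p.1.1 := by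
    refine ⟨fun p => ⟨ang p.1.1, p.2.trans (hang1 p.1.1 (lt_of_lt_of_le hδ p.2)).2⟩, fun p => rfl⟩
  have hafc : Continuous af := by
    rw [continuous_induced_rng]
    have : (Subtype.val ∘ af) = fun p => ang p.1.1 := funext haf
    rw [this]
    exact hangc.comp_continuous (continuous_fst.comp continuous_subtype_val)
      (fun p => lt_of_lt_of_le hδ p.2)
  obtain ⟨uf, huf⟩ : ∃ uf : {p : ConeSet b ℓ × unitInterval // δ ≤ p.1.1.1} → unitInterval,
      ∀ p, (uf p : ℝ) = cone_top_la δ p.1.1.1.1 * cone_top_th p.1.2 := by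
    refine ⟨fun p => ⟨cone_top_la δ p.1.1.1.1 * cone_top_th p.1.2, ?_, ?_⟩, fun p => rfl⟩
    · exact mul_nonneg (cone_top_la_mem _ _).1 (cone_top_th_mem _).1
    · exact mul_le_one₀ (cone_top_la_mem _ _).2 (cone_top_th_mem _).1 (cone_top_th_mem _).2
  have hufc : Continuous uf := by
    rw [continuous_induced_rng]
    have : (Subtype.val ∘ uf) = fun p => cone_top_la δ p.1.1.1.1 * cone_top_th p.1.2 := funext huf
    rw [this]
    exact ((cone_top_la_cont δ).comp (hrc.comp continuous_subtype_val)).mul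
      (cone_top_th_cont.comp (htc.comp continuous_subtype_val))
  obtain ⟨al, hal⟩ : ∃ al : {p : ConeSet b ℓ × unitInterval // δ ≤ p.1.1.1} → N,
      al = fun p => G (uf p, af p) := ⟨_, rfl⟩
  have halc : Continuous al := by
    rw [hal]; exact G.continuous.comp (hufc.prodMk hafc)
  obtain ⟨R, hR⟩ : ∃ R : {p : ConeSet b ℓ × unitInterval // δ ≤ p.1.1.1} → ℝ,
      R = fun p => (1 - cone_top_la δ p.1.1.1.1 * cone_top_ta p.1.2) * min p.1.1.1.1 (ℓ (al p)) :=
    ⟨_, rfl⟩
  have hRc : Continuous R := by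
    rw [hR]
    exact (continuous_const.sub (((cone_top_la_cont δ).comp (hrc.comp continuous_subtype_val)).mul
      (cone_top_ta_cont.comp (htc.comp continuous_subtype_val)))).mul
      ((hrc.comp continuous_subtype_val).min (hℓ.comp halc))
  have hcoef : ∀ r t, 0 ≤ 1 - cone_top_la δ r * cone_top_ta t ∧
      1 - cone_top_la δ r * cone_top_ta t ≤ 1 := by
    intro r t
    have h1 := mul_nonneg (cone_top_la_mem δ r).1 (cone_top_ta_mem t).1
    have h2 := mul_le_one₀ (cone_top_la_mem δ r).2 (cone_top_ta_mem t).1 (cone_top_ta_mem t).2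
    constructor <;> linarith
  have hmin : ∀ p, 0 ≤ min p.1.1.1.1 (ℓ (al p)) := fun p => le_min (hδ.le.trans p.2) (hpos _).le
  have hR0 : ∀ p, 0 ≤ R p := by
    intro p; rw [hR]; exact mul_nonneg (hcoef _ _).1 (hmin p)
  have hRle : ∀ p, R p ≤ min p.1.1.1.1 (ℓ (al p)) := by
    intro p; rw [hR]
    exact mul_le_of_le_one_left (hmin p) (hcoef _ _).2
  obtain ⟨F1, hF1⟩ : ∃ F1 : {p : ConeSet b ℓ × unitInterval // δ ≤ p.1.1.1} → ℝ × (ℕ → ℝ),
      F1 = fun p => (R p, R p • b (al p)) := ⟨_, rfl⟩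
  have hF1c : Continuous F1 := by
    rw [hF1]; exact hRc.prodMk (hRc.smul (hb.continuous.comp halc))
  -- the inner pieces
  obtain ⟨S, hS⟩ : ∃ S : ℝ → ℝ, S = fun t => (1 - cone_top_ta t) * min δ (ℓ base) := ⟨_, rfl⟩
  have hSc : Continuous S := by
    rw [hS]; exact (continuous_const.sub cone_top_ta_cont).mul continuous_const
  obtain ⟨F2, hF2⟩ : ∃ F2 : ConeSet b ℓ × unitInterval → ℝ × (ℕ → ℝ),
      F2 = fun p => if (p.2 : ℝ) ≤ 1 / 2 then
        ((1 - cone_top_ta p.2) * p.1.1.1, (1 - cone_top_ta p.2) • p.1.1.2)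
        else (S p.2, S p.2 • b base) := ⟨_, rfl⟩
  have hF2c : Continuous F2 := by
    rw [hF2]
    refine Continuous.if_le ?_ ?_ htc continuous_const ?_
    · exact ((continuous_const.sub (cone_top_ta_cont.comp htc)).mul hrc).prodMk
        ((continuous_const.sub (cone_top_ta_cont.comp htc)).smul hxc)
    · exact (hSc.comp htc).prodMk ((hSc.comp htc).smul continuous_const)
    · intro p hp
      have h1 : cone_top_ta p.2 = 1 := cone_top_ta_one (by rw [hp]; norm_num) (by rw [hp]; norm_num)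
      have h2 : S p.2 = 0 := by rw [hS]; simp [h1]
      rw [h1, h2]; simp
  -- values of al
  have hal0 : ∀ p, cone_top_la δ p.1.1.1.1 * cone_top_th p.1.2 = 0 → al p = ang p.1.1 := by
    intro p hp
    have : uf p = 0 := Subtype.ext (by rw [huf p, hp]; rfl)
    rw [hal]
    show G (uf p, af p) = _
    rw [this, hG0, haf]
  have hal1 : ∀ p, cone_top_la δ p.1.1.1.1 * cone_top_th p.1.2 = 1 → al p = base := by
    intro p hp
    have : uf p = 1 := Subtype.ext (by rw [huf p, hp]; rfl)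
    rw [hal]
    show G (uf p, af p) = _
    rw [this, hG1]
  have hminang : ∀ p : {p : ConeSet b ℓ × unitInterval // δ ≤ p.1.1.1},
      min p.1.1.1.1 (ℓ (ang p.1.1)) = p.1.1.1.1 := fun p =>
    min_eq_left (hang1 p.1.1 (lt_of_lt_of_le hδ p.2)).2
  have hxeq : ∀ p : {p : ConeSet b ℓ × unitInterval // δ ≤ p.1.1.1},
      p.1.1.1.2 = p.1.1.1.1 • b (ang p.1.1) := fun p =>
    congrArg Prod.snd (hang1 p.1.1 (lt_of_lt_of_le hδ p.2)).1
  -- F1 is the identity if no motion
  have hF1id : ∀ p, cone_top_la δ p.1.1.1.1 * cone_top_th p.1.2 = 0 →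
      cone_top_la δ p.1.1.1.1 * cone_top_ta p.1.2 = 0 → F1 p = p.1.1.1 := by
    intro p h1 h2
    have h3 : R p = p.1.1.1.1 := by
      rw [hR]
      show (1 - cone_top_la δ p.1.1.1.1 * cone_top_ta p.1.2) * min p.1.1.1.1 (ℓ (al p)) = _
      rw [h2, hal0 p h1, hminang p]; ring
    rw [hF1]
    show (R p, R p • b (al p)) = _
    rw [h3, hal0 p h1, ← hxeq p]
  -- agreement
  have hagree : ∀ p : {p : ConeSet b ℓ × unitInterval // δ ≤ p.1.1.1}, p.1.1.1.1 = δ →
      F1 p = F2 p.1 := by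
    intro p hp
    have hla : cone_top_la δ p.1.1.1.1 = 1 := by rw [hp]; exact cone_top_la_self hδ
    have hRp : R p = (1 - cone_top_ta p.1.2) * min p.1.1.1.1 (ℓ (al p)) := by
      rw [hR]
      show (1 - cone_top_la δ p.1.1.1.1 * cone_top_ta p.1.2) * min p.1.1.1.1 (ℓ (al p)) = _
      rw [hla, one_mul]
    have hF1p : F1 p = (R p, R p • b (al p)) := by rw [hF1]
    by_cases ht : (p.1.2 : ℝ) ≤ 1 / 2
    · have hF2p : F2 p.1 = ((1 - cone_top_ta p.1.2) * p.1.1.1.1,
          (1 - cone_top_ta p.1.2) • p.1.1.1.2) := by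
        rw [hF2]; exact if_pos ht
      rw [hF1p, hF2p]
      by_cases ht3 : (p.1.2 : ℝ) ≤ 1 / 3
      · have h1 : al p = ang p.1.1 := hal0 p (by rw [cone_top_th_zero ht3, mul_zero])
        rw [hRp, h1, hminang p, hxeq p, smul_smul]
      · have h1 : cone_top_ta p.1.2 = 1 := cone_top_ta_one (le_of_not_ge ht3) (by linarith)
        rw [hRp, h1]; simp
    · have hF2p : F2 p.1 = (S p.1.2, S p.1.2 • b base) := by
        rw [hF2]; exact if_neg ht
      rw [hF1p, hF2p]
      push Not at ht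
      by_cases ht3 : (p.1.2 : ℝ) ≤ 2 / 3
      · have h1 : cone_top_ta p.1.2 = 1 := cone_top_ta_one (by linarith) ht3
        have h2 : S p.1.2 = 0 := by rw [hS]; simp [h1]
        rw [hRp, h1, h2]; simp
      · push Not at ht3
        have h1 : al p = base := hal1 p (by rw [hla, cone_top_th_one ht3.le, one_mul])
        have h2 : R p = S p.1.2 := by rw [hRp, h1, hp, hS]
        rw [h1, h2]
  -- the glued map
  obtain ⟨H, hH⟩ : ∃ H : ConeSet b ℓ × unitInterval → ℝ × (ℕ → ℝ),
      H = fun p => if h : δ ≤ p.1.1.1 then F1 ⟨p, h⟩ else F2 p := ⟨_, rfl⟩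
  have hHpos : ∀ (p : ConeSet b ℓ × unitInterval) (h : δ ≤ p.1.1.1), H p = F1 ⟨p, h⟩ := by
    intro p h; rw [hH]; exact dif_pos h
  have hHneg : ∀ (p : ConeSet b ℓ × unitInterval) (h : p.1.1.1 < δ), H p = F2 p := by
    intro p h; rw [hH]; exact dif_neg (not_le.2 h)
  have hHc : Continuous H := by
    have c1 : ContinuousOn H {p | δ ≤ p.1.1.1} := by
      rw [continuousOn_iff_continuous_domRestrict]
      have : Set.domRestrict {p : ConeSet b ℓ × unitInterval | δ ≤ p.1.1.1} H = F1 := by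
        funext p
        exact hHpos p.1 p.2
      rw [this]
      exact hF1c
    have c2 : ContinuousOn H {p | p.1.1.1 ≤ δ} := by
      refine hF2c.continuousOn.congr fun p hp => ?_
      rcases lt_or_eq_of_le (show p.1.1.1 ≤ δ from hp) with h | h
      · exact hHneg p h
      · rw [hHpos p h.ge]
        exact hagree ⟨p, h.ge⟩ h
    have c3 := c1.union_of_isClosed c2 (isClosed_le continuous_const hrc)
      (isClosed_le hrc continuous_const)
    rw [← continuousOn_univ]
    refine c3.mono fun p _ => ?_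
    rcases le_total δ p.1.1.1 with h | h
    · exact Or.inl h
    · exact Or.inr h
  have hS0 : ∀ t, 0 ≤ S t := by
    intro t; rw [hS]
    exact mul_nonneg (by linarith [(cone_top_ta_mem t).2]) (le_min hδ.le (hpos _).le)
  have hSle : ∀ t, S t ≤ min δ (ℓ base) := by
    intro t; rw [hS]
    exact mul_le_of_le_one_left (le_min hδ.le (hpos _).le) (by linarith [(cone_top_ta_mem t).1])
  have hHmem : ∀ p, H p ∈ ConeSet b ℓ := by
    intro p
    by_cases h : δ ≤ p.1.1.1
    · rw [hHpos p h, hF1]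
      exact ⟨al ⟨p, h⟩, R ⟨p, h⟩, hR0 _, (hRle _).trans (min_le_right _ _), rfl⟩
    · push Not at h
      rw [hHneg p h, hF2]
      by_cases ht : (p.2 : ℝ) ≤ 1 / 2
      · show (if (p.2 : ℝ) ≤ 1 / 2 then
          ((1 - cone_top_ta p.2) * p.1.1.1, (1 - cone_top_ta p.2) • p.1.1.2)
          else (S p.2, S p.2 • b base)) ∈ ConeSet b ℓ
        rw [if_pos ht]
        obtain ⟨ξ, r, hr0, hrl, hxe⟩ := p.1.2
        have h1 : p.1.1.1 = r := congrArg Prod.fst hxe
        have h2 : p.1.1.2 = r • b ξ := congrArg Prod.snd hxe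
        rw [h1, h2]
        refine ⟨ξ, (1 - cone_top_ta p.2) * r, mul_nonneg (by linarith [(cone_top_ta_mem p.2).2]) hr0,
          (mul_le_of_le_one_left hr0 (by linarith [(cone_top_ta_mem p.2).1])).trans hrl, ?_⟩
        rw [smul_smul]
      · show (if (p.2 : ℝ) ≤ 1 / 2 then
          ((1 - cone_top_ta p.2) * p.1.1.1, (1 - cone_top_ta p.2) • p.1.1.2)
          else (S p.2, S p.2 • b base)) ∈ ConeSet b ℓ
        rw [if_neg ht]
        exact ⟨base, S p.2, hS0 _, (hSle _).trans (min_le_right _ _), rfl⟩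
  have hr0 : ∀ x : ConeSet b ℓ, 0 ≤ x.1.1 := by
    intro x
    obtain ⟨ξ, r, hr0, hrl, hxe⟩ := x.2
    have h1 : x.1.1 = r := congrArg Prod.fst hxe
    rw [h1]; exact hr0
  refine ⟨fun p => ⟨H p, hHmem p⟩, hHc.subtype_mk _, fun x => ?_, fun x t => ?_, fun x => ?_⟩
  · apply Subtype.ext
    show H (x, 0) = x.1
    by_cases h : δ ≤ x.1.1
    · rw [hHpos (x, 0) h]
      refine hF1id ⟨(x, 0), h⟩ ?_ ?_
      · show cone_top_la δ x.1.1 * cone_top_th ((0 : unitInterval) : ℝ) = 0
        rw [Set.Icc.coe_zero, cone_top_th_zero (by norm_num), mul_zero]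
      · show cone_top_la δ x.1.1 * cone_top_ta ((0 : unitInterval) : ℝ) = 0
        rw [Set.Icc.coe_zero, cone_top_ta_0, mul_zero]
    · push Not at h
      rw [hHneg (x, 0) h, hF2]
      show (if (((0 : unitInterval) : ℝ)) ≤ 1 / 2 then
          ((1 - cone_top_ta ((0 : unitInterval) : ℝ)) * x.1.1,
            (1 - cone_top_ta ((0 : unitInterval) : ℝ)) • x.1.2)
          else (S ((0 : unitInterval) : ℝ), S ((0 : unitInterval) : ℝ) • b base)) = x.1
      rw [Set.Icc.coe_zero, if_pos (by norm_num), cone_top_ta_0, sub_zero, one_mul, one_smul]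
  · by_cases h2 : 2 * δ ≤ x.1.1
    · left
      apply Subtype.ext
      show H (x, t) = x.1
      have h : δ ≤ x.1.1 := by linarith
      rw [hHpos (x, t) h]
      refine hF1id ⟨(x, t), h⟩ ?_ ?_
      · show cone_top_la δ x.1.1 * cone_top_th (t : ℝ) = 0
        rw [cone_top_la_zero hδ h2, zero_mul]
      · show cone_top_la δ x.1.1 * cone_top_ta (t : ℝ) = 0
        rw [cone_top_la_zero hδ h2, zero_mul]
    · right
      push Not at h2
      refine ⟨hO1 x (by linarith), hO1 _ ?_⟩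
      show (H (x, t)).1 < 3 * δ
      by_cases h : δ ≤ x.1.1
      · rw [hHpos (x, t) h, hF1]
        show R ⟨(x, t), h⟩ < 3 * δ
        have := (hRle ⟨(x, t), h⟩).trans (min_le_left _ _)
        have h3 : R ⟨(x, t), h⟩ ≤ x.1.1 := this
        linarith
      · push Not at h
        rw [hHneg (x, t) h, hF2]
        by_cases ht : (t : ℝ) ≤ 1 / 2
        · show (if (t : ℝ) ≤ 1 / 2 then
            ((1 - cone_top_ta t) * x.1.1, (1 - cone_top_ta t) • x.1.2)
            else (S t, S t • b base)).1 < 3 * δ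
          rw [if_pos ht]
          show (1 - cone_top_ta t) * x.1.1 < 3 * δ
          have := mul_le_of_le_one_left (hr0 x) (show 1 - cone_top_ta t ≤ 1 by
            linarith [(cone_top_ta_mem t).1])
          linarith
        · show (if (t : ℝ) ≤ 1 / 2 then
            ((1 - cone_top_ta t) * x.1.1, (1 - cone_top_ta t) • x.1.2)
            else (S t, S t • b base)).1 < 3 * δ
          rw [if_neg ht]
          show S t < 3 * δ
          have := (hSle t).trans (min_le_left _ _)
          linarith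
  · intro hxa
    have h1 : H (x, 1) = a.1 := congrArg Subtype.val hxa
    have h2 : (H (x, 1)).1 = 0 := by rw [h1, ha]
    have h3 : 0 < (H (x, 1)).1 := by
      by_cases h : δ ≤ x.1.1
      · rw [hHpos (x, 1) h, hF1]
        show 0 < R ⟨(x, 1), h⟩
        rw [hR]
        show 0 < (1 - cone_top_la δ x.1.1 * cone_top_ta ((1 : unitInterval) : ℝ)) *
          min x.1.1 (ℓ (al ⟨(x, 1), h⟩))
        rw [Set.Icc.coe_one, cone_top_ta_1, mul_zero, sub_zero, one_mul]
        exact lt_min (lt_of_lt_of_le hδ h) (hpos _)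
      · push Not at h
        rw [hHneg (x, 1) h, hF2]
        show 0 < (if ((1 : unitInterval) : ℝ) ≤ 1 / 2 then
            ((1 - cone_top_ta ((1 : unitInterval) : ℝ)) * x.1.1,
              (1 - cone_top_ta ((1 : unitInterval) : ℝ)) • x.1.2)
            else (S ((1 : unitInterval) : ℝ), S ((1 : unitInterval) : ℝ) • b base)).1
        rw [Set.Icc.coe_one, if_neg (by norm_num)]
        show 0 < S 1
        rw [hS]
        show 0 < (1 - cone_top_ta 1) * min δ (ℓ base)
        rw [cone_top_ta_1, sub_zero, one_mul]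
        exact lt_min hδ (hpos _)
    linarith

end Pool.Agent.Helper286.Unst
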