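import Pool.Agent.Helper286.Unst.Q1

open Set Topology

namespace Pool.Agent.Helper286.Unst

/-- TARGET -/
theorem cone_H {N : Type} [TopologicalSpace N] (b : N → (ℕ → ℝ)) (hb : IsEmbedding b)
    (hb1 : ∀ ξ i, |b ξ i| ≤ 1) (ℓ : N → ℝ) (hℓ : Continuous ℓ) (hpos : ∀ ξ, 0 < ℓ ξ)
    (hle : ∀ ξ, ℓ ξ ≤ 1) (base : N)
    (hcon : ∀ δ : ℝ, 0 < δ → ContinuousMap.Homotopic
      (⟨Subtype.val, continuous_subtype_val⟩ : C({ξ : N // δ ≤ ℓ ξ}, N))
      (ContinuousMap.const _ base))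
    (a : ConeSet b ℓ) (ha : a.1 = (0, 0))
    (f : ConeSet b ℓ × unitInterval → ConeSet b ℓ) (hf : Continuous f)
    (hf0 : ∀ x, f (x, 0) = x) (hfa : ∀ t : unitInterval, 0 < t → ∀ x, f (x, t) ≠ a) :
    ContinuousMap.Homotopic (ContinuousMap.id N) (ContinuousMap.const N base) := by
  have : Nonempty N := ⟨base⟩
  obtain ⟨ang, hangc, hang1, hang2⟩ := exists_ang b hb hb1 ℓ hℓ hpos hle
  have hne : ∀ x : ConeSet b ℓ, x ≠ a → 0 < x.1.1 := by
    rintro ⟨x, ξ, r, h0, h1, rfl⟩ hxa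
    rcases lt_or_eq_of_le h0 with h | h
    · exact h
    · exfalso
      apply hxa
      apply Subtype.ext
      rw [ha]
      show (r, r • b ξ) = (0, 0)
      rw [← h, zero_smul]
  have hc0 : 0 < (f (a, 1)).1.1 := hne _ (hfa 1 zero_lt_one a)
  set c : ℝ := (f (a, 1)).1.1 with hc
  have hgc : Continuous (fun x : ConeSet b ℓ => (f (x, 1)).1.1) := by
    have h1 : Continuous (fun x : ConeSet b ℓ => f (x, 1)) := hf.comp (by fun_prop)
    exact continuous_fst.comp (continuous_subtype_val.comp h1)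
  obtain ⟨δ, hδ, hδ2⟩ := apex_nhds b hb hb1 ℓ hℓ hpos hle a ha
    {x | c / 2 < (f (x, 1)).1.1}
    (hgc.continuousAt.preimage_mem_nhds (isOpen_Ioi.mem_nhds (by
      show c / 2 < (f (a, 1)).1.1
      rw [← hc]
      linarith)))
  have hmpos : ∀ ξ, 0 < min (ℓ ξ) (δ / 2) := fun ξ => lt_min (hpos ξ) (by linarith)
  let w : N → ConeSet b ℓ := fun ξ => ⟨(min (ℓ ξ) (δ / 2), min (ℓ ξ) (δ / 2) • b ξ),
    ξ, min (ℓ ξ) (δ / 2), (hmpos ξ).le, min_le_left _ _, rfl⟩
  have hbc : Continuous b := hb.continuous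
  have hwc : Continuous w := by
    apply Continuous.subtype_mk
    exact (hℓ.min continuous_const).prodMk ((hℓ.min continuous_const).smul hbc)
  have hwa : ∀ ξ, w ξ ≠ a := by
    intro ξ h
    have h1 : (w ξ).1.1 = 0 := by rw [h, ha]
    exact absurd h1 (hmpos ξ).ne'
  have hfw : ∀ (t : unitInterval) (ξ : N), 0 < (f (w ξ, t)).1.1 := by
    intro t ξ
    apply hne
    rcases eq_or_lt_of_le (unitInterval.nonneg' (t := t)) with h | h
    · rw [← h, hf0]
      exact hwa ξ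
    · exact hfa t h _
  have hKc : Continuous (fun p : unitInterval × N => ang (f (w p.2, p.1))) := by
    have h1 : Continuous (fun p : unitInterval × N => f (w p.2, p.1)) :=
      hf.comp ((hwc.comp continuous_snd).prodMk continuous_fst)
    exact hangc.comp_continuous h1 (fun p => hfw p.1 p.2)
  have hk1 : ∀ ξ, c / 2 ≤ ℓ (ang (f (w ξ, 1))) := by
    intro ξ
    have h1 : c / 2 < (f (w ξ, 1)).1.1 := by
      apply hδ2 (w ξ)
      show min (ℓ ξ) (δ / 2) < δ
      exact lt_of_le_of_lt (min_le_right _ _) (by linarith)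
    exact h1.le.trans (hang1 _ (hfw 1 ξ)).2
  let k1 : C(N, {ξ : N // c / 2 ≤ ℓ ξ}) :=
    ⟨fun ξ => ⟨ang (f (w ξ, 1)), hk1 ξ⟩, by
      apply Continuous.subtype_mk
      exact hKc.comp (Continuous.prodMk continuous_const continuous_id)⟩
  have H1 : ContinuousMap.Homotopic (ContinuousMap.id N)
      ((⟨Subtype.val, continuous_subtype_val⟩ : C({ξ : N // c / 2 ≤ ℓ ξ}, N)).comp k1) := by
    refine ⟨⟨⟨fun p => ang (f (w p.2, p.1)), hKc⟩, ?_, ?_⟩⟩
    · intro ξ
      show ang (f (w ξ, 0)) = ξ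
      rw [hf0]
      exact hang2 (w ξ) ξ _ (hmpos ξ) rfl
    · intro ξ
      rfl
  have H2 := (hcon (c / 2) (by linarith)).comp (ContinuousMap.Homotopic.refl k1)
  exact H1.trans H2

end Pool.Agent.Helper286.Unst
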