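import Pool.Agent.Helper286.Unst.Q0
import Pool.Agent.Helper286.Unst.Q2
import Pool.Agent.Helper286.Unst.Q3
import Pool.Agent.Helper286.Unst.FinDefs

open Set Topology

namespace Pool.Agent.Helper286.Unst

theorem aux_top {M : Type} [mt : TopologicalSpace M] [TopologicalSpace.MetrizableSpace M] (a : M)
    (hH : ∀ f : M × unitInterval → M, Continuous f → (∀ x, f (x, 0) = x) →
      (∀ t : unitInterval, 0 < t → ∀ x, f (x, t) ≠ a) → False)
    (hU : ∀ O : Set M, O ∈ 𝓝 a → ∃ h : M × unitInterval → M, Continuous h ∧ (∀ x, h (x, 0) = x) ∧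
      (∀ x t, h (x, t) = x ∨ (x ∈ O ∧ h (x, t) ∈ O)) ∧ ∀ x, h (x, 1) ≠ a) :
    ∃ (_ : MetricSpace M), HomotopicallyUnstable M a ∧ ¬ CondH M a ∧ ¬ CondR M a := by
  letI ms : MetricSpace M := TopologicalSpace.metrizableSpaceMetric M
  have hnH : ¬ CondH M a := by
    rintro ⟨f, hf, hf0, hfa⟩
    exact hH f hf hf0 hfa
  refine ⟨ms, ?_, hnH, ?_⟩
  · intro ε hε
    obtain ⟨h, hc, h0, hO, h1⟩ := hU (Metric.ball a (ε / 2)) (Metric.ball_mem_nhds a (by positivity))
    refine ⟨h, hc, fun x => ⟨h0 x, fun t => ?_, h1 x⟩⟩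
    rcases hO x t with h2 | ⟨h2, h3⟩
    · rw [h2, dist_self]
      exact hε
    · have h4 : dist x a < ε / 2 := h2
      have h5 : dist (h (x, t)) a < ε / 2 := h3
      calc dist x (h (x, t)) ≤ dist x a + dist a (h (x, t)) := dist_triangle _ _ _
        _ = dist x a + dist (h (x, t)) a := by rw [dist_comm a]
        _ < ε := by linarith
  · rintro ⟨r, hr, hr2, hr0, hpre⟩
    apply hnH
    refine ⟨fun z => (r z).1, continuous_fst.comp hr, fun x => ?_, fun t ht x hx => ?_⟩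
    · simp only
      rw [hr0 x]
    · have h1 : (x, t) ∈ r ⁻¹' {(a, 0)} := by
        rw [Set.mem_preimage, Set.mem_singleton_iff]
        exact Prod.ext hx (hr2 (x, t))
      rw [hpre, Set.mem_singleton_iff] at h1
      have h2 : t = 0 := (Prod.ext_iff.1 h1).2
      rw [h2] at ht
      exact lt_irrefl _ ht

/-- TARGET -/
theorem disproof_of {N : Type} [TopologicalSpace N] [TopologicalSpace.MetrizableSpace N]
    [SecondCountableTopology N] (ℓ : N → ℝ) (hℓ : Continuous ℓ) (hpos : ∀ ξ, 0 < ℓ ξ)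
    (hle : ∀ ξ, ℓ ξ ≤ 1) (base : N)
    (hcon : ∀ δ : ℝ, 0 < δ → ContinuousMap.Homotopic
      (⟨Subtype.val, continuous_subtype_val⟩ : C({ξ : N // δ ≤ ℓ ξ}, N))
      (ContinuousMap.const _ base))
    (hnn : ¬ ContinuousMap.Homotopic (ContinuousMap.id N) (ContinuousMap.const N base)) :
    ∃ (M : Type) (_ : MetricSpace M) (a : M),
      HomotopicallyUnstable M a ∧ ¬ CondH M a ∧ ¬ CondR M a := by
  obtain ⟨b, hb, hb1⟩ := exists_bounded_embedding N
  have hmem : ((0 : ℝ), (0 : ℕ → ℝ)) ∈ ConeSet b ℓ :=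
    ⟨base, 0, le_refl _, (hpos base).le, by rw [zero_smul]⟩
  obtain ⟨ms, h⟩ := aux_top (M := ConeSet b ℓ) ⟨(0, 0), hmem⟩
    (fun f hf hf0 hfa => hnn (cone_H b hb hb1 ℓ hℓ hpos hle base hcon _ rfl f hf hf0 hfa))
    (fun O hO => cone_top b hb hb1 ℓ hℓ hpos hle base hcon _ rfl O hO)
  exact ⟨ConeSet b ℓ, ms, _, h⟩

end Pool.Agent.Helper286.Unst
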