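import Pool.Agent.Helper286.Unst.Pt

open Cardinal Set Topology

namespace Pool.Agent.Helper286.Unst

/-- Rigid sets: Bernstein type sets that also defeat closed graphs. -/
structure Rigid (X : Set Pt) : Prop where
  meet : ∀ F : Set Pt, IsClosed F → ¬ F.Countable → (F ∩ X).Nonempty ∧ (F \ X).Nonempty
  graph : ∀ (Γ : Set (Pt × Pt)) (U : Set Pt), IsClosed Γ → IsOpen U →
    (∀ S : Set Pt, #S < 𝔠 → ∃ x v, x ∈ U ∧ v ≠ x ∧ (x, v) ∈ Γ ∧ (∀ w, (x, w) ∈ Γ → w = v) ∧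
      x ∉ S ∧ v ∉ S) →
    ∃ x v, x ∈ U ∧ (x, v) ∈ Γ ∧ (∀ w, (x, w) ∈ Γ → w = v) ∧ x ∈ X ∧ v ∉ X

end Pool.Agent.Helper286.Unst
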