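import Pool.Agent.Helper286.Unst.R1
import Pool.Agent.Helper286.Unst.RigDefs

open Cardinal Set Topology

namespace Pool.Agent.Helper286.Unst

theorem open_code (α : Type) [TopologicalSpace α] [SecondCountableTopology α] [Nonempty α] :
    ∃ c : Set ℕ → Set α, (∀ s, IsOpen (c s)) ∧ ∀ U : Set α, IsOpen U → ∃ s, c s = U := by
  obtain ⟨B, hBc, _, hB⟩ := TopologicalSpace.exists_countable_basis α
  have hne : B.Nonempty := by
    have h := hB.sUnion_eq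
    obtain ⟨x⟩ := (inferInstance : Nonempty α)
    have hx : x ∈ ⋃₀ B := by rw [h]; trivial
    obtain ⟨b, hb, _⟩ := hx
    exact ⟨b, hb⟩
  obtain ⟨b, hb⟩ := hBc.exists_eq_range hne
  refine ⟨fun s => ⋃ n ∈ s, b n, ?_, ?_⟩
  · intro s
    refine isOpen_biUnion (fun n _ => ?_)
    exact hB.isOpen (by rw [hb]; exact ⟨n, rfl⟩)
  · intro U hU
    refine ⟨{n | b n ⊆ U}, ?_⟩
    ext x
    simp only [mem_iUnion]
    constructor
    · rintro ⟨n, hn, hx⟩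
      exact hn hx
    · intro hx
      obtain ⟨v, hv, hxv, hvU⟩ := hB.exists_subset_of_mem_open hx hU
      rw [hb] at hv
      obtain ⟨n, rfl⟩ := hv
      exact ⟨n, hvU, hxv⟩

theorem two_points (F : Set Pt) (hF : IsClosed F) (hunc : ¬ F.Countable) (S : Set Pt) (hS : #S < 𝔠) :
    ∃ x ∈ F, ∃ y ∈ F, x ≠ y ∧ x ∉ S ∧ y ∉ S := by
  by_contra hcon
  push Not at hcon
  have hsub : (F \ S).Subsingleton := by
    intro x hx y hy
    by_contra hxy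
    exact hy.2 (hcon x hx.1 y hy.1 hxy hx.2)
  obtain ⟨f, hfr, _, hfi⟩ := hF.exists_nat_bool_injection_of_not_countable hunc
  have h1 : 𝔠 ≤ #F := by
    have h2 : #(ℕ → Bool) ≤ #F := by
      refine Cardinal.mk_le_of_injective (f := fun x => (⟨f x, hfr ⟨x, rfl⟩⟩ : F)) ?_
      intro x y hxy
      exact hfi (congrArg Subtype.val hxy)
    have h3 : #(ℕ → Bool) = 𝔠 := by simp
    rwa [h3] at h2
  have h4 : #F ≤ #(F \ S : Set Pt) + #S := by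
    refine (Cardinal.mk_le_mk_of_subset (t := (F \ S) ∪ S) ?_).trans (Cardinal.mk_union_le _ _)
    intro x hx
    by_cases hxS : x ∈ S
    · right; exact hxS
    · left; exact ⟨hx, hxS⟩
  have h5 : #(F \ S : Set Pt) ≤ 1 := Cardinal.mk_le_one_iff_set_subsingleton.mpr hsub
  have h6 : #(F \ S : Set Pt) + #S < 𝔠 :=
    Cardinal.add_lt_of_lt aleph0_le_continuum (lt_of_le_of_lt h5 (by
      exact Cardinal.one_lt_aleph0.trans_le aleph0_le_continuum)) hS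
  exact absurd (h1.trans h4) (not_le.mpr h6)

theorem mk_nat_bool : #(ℕ → Bool) = 𝔠 := by simp

theorem not_countable_univ_Pt : ¬ (Set.univ : Set Pt).Countable := by
  intro h
  have h1 : Countable Pt := Set.countable_univ_iff.mp h
  have h2 : Countable (ℕ → Bool) := by
    refine Function.Injective.countable (f := fun (g : ℕ → Bool) => ((fun n => if g n then (1 : ℝ) else 0) : Pt)) ?_
    intro g g' hgg
    funext n
    have := congrFun hgg n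
    simp only at this
    by_cases a : g n <;> by_cases b : g' n <;> simp_all
  have h3 : #(ℕ → Bool) ≤ ℵ₀ := Cardinal.mk_le_aleph0_iff.mpr h2
  rw [mk_nat_bool] at h3
  exact absurd h3 (not_le.mpr aleph0_lt_continuum)

/-- TARGET -/
theorem exists_rigid : ∃ X : Set Pt, Rigid X := by
  classical
  obtain ⟨c, hco, hc⟩ := open_code Pt
  obtain ⟨c2, hc2o, hc2⟩ := open_code (Pt × Pt)
  let cond : Set (Pt × Pt) → Set Pt → Prop := fun Γ U =>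
    ∀ S : Set Pt, #S < 𝔠 → ∃ x v, x ∈ U ∧ v ≠ x ∧ (x, v) ∈ Γ ∧ (∀ w, (x, w) ∈ Γ → w = v) ∧
      x ∉ S ∧ v ∉ S
  let A : Set ℕ ⊕ (Set ℕ × Set ℕ) → Set (Pt × Pt) := fun i =>
    match i with
    | Sum.inl s => if ¬ ((c s)ᶜ).Countable then {p | p.1 ∈ (c s)ᶜ ∧ p.2 ∈ (c s)ᶜ ∧ p.1 ≠ p.2}
        else {p | p.1 ≠ p.2}
    | Sum.inr (s, u) => if cond (c2 s)ᶜ (c u) then
        {p | p.1 ∈ c u ∧ p.2 ≠ p.1 ∧ p ∈ (c2 s)ᶜ ∧ ∀ w, (p.1, w) ∈ (c2 s)ᶜ → w = p.2}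
        else {p | p.1 ≠ p.2}
  have hcard : #(Set ℕ ⊕ (Set ℕ × Set ℕ)) ≤ 𝔠 := by
    simp
  have hoff : ∀ S : Set Pt, #S < 𝔠 → ∃ p ∈ ({p | p.1 ≠ p.2} : Set (Pt × Pt)),
      p.1 ≠ p.2 ∧ p.1 ∉ S ∧ p.2 ∉ S := by
    intro S hS
    obtain ⟨x, _, y, _, hxy, hx, hy⟩ := two_points Set.univ isClosed_univ not_countable_univ_Pt S hS
    exact ⟨(x, y), hxy, hxy, hx, hy⟩
  have hrich : ∀ i, ∀ S : Set Pt, #S < 𝔠 → ∃ p ∈ A i, p.1 ≠ p.2 ∧ p.1 ∉ S ∧ p.2 ∉ S := by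
    intro i S hS
    rcases i with s | ⟨s, u⟩
    · by_cases h : ¬ ((c s)ᶜ).Countable
      · have hA : A (Sum.inl s) = {p | p.1 ∈ (c s)ᶜ ∧ p.2 ∈ (c s)ᶜ ∧ p.1 ≠ p.2} := if_pos h
        rw [hA]
        obtain ⟨x, hx, y, hy, hxy, hxS, hyS⟩ := two_points _ (hco s).isClosed_compl h S hS
        exact ⟨(x, y), ⟨hx, hy, hxy⟩, hxy, hxS, hyS⟩
      · have hA : A (Sum.inl s) = {p | p.1 ≠ p.2} := if_neg h
        rw [hA]
        exact hoff S hS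
    · by_cases h : cond (c2 s)ᶜ (c u)
      · have hA : A (Sum.inr (s, u)) = {p | p.1 ∈ c u ∧ p.2 ≠ p.1 ∧ p ∈ (c2 s)ᶜ ∧
            ∀ w, (p.1, w) ∈ (c2 s)ᶜ → w = p.2} := if_pos h
        rw [hA]
        obtain ⟨x, v, h1, h2, h3, h4, h5, h6⟩ := h S hS
        exact ⟨(x, v), ⟨h1, h2, h3, h4⟩, fun e => h2 e.symm, h5, h6⟩
      · have hA : A (Sum.inr (s, u)) = {p | p.1 ≠ p.2} := if_neg h
        rw [hA]
        exact hoff S hS
  obtain ⟨X, hX⟩ := choice_lemma 𝔠 aleph0_le_continuum hcard A hrich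
  refine ⟨X, ⟨?_, ?_⟩⟩
  · intro F hF hunc
    obtain ⟨s, hs⟩ := hc Fᶜ hF.isOpen_compl
    have hs' : (c s)ᶜ = F := by rw [hs, compl_compl]
    have h : ¬ ((c s)ᶜ).Countable := by rw [hs']; exact hunc
    have hA : A (Sum.inl s) = {p | p.1 ∈ (c s)ᶜ ∧ p.2 ∈ (c s)ᶜ ∧ p.1 ≠ p.2} := if_pos h
    obtain ⟨p, hp, hp1, hp2⟩ := hX (Sum.inl s)
    rw [hA, hs'] at hp
    exact ⟨⟨p.1, hp.1, hp1⟩, ⟨p.2, hp.2.1, hp2⟩⟩
  · intro Γ U hΓ hU hrc
    obtain ⟨s, hs⟩ := hc2 Γᶜ hΓ.isOpen_compl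
    obtain ⟨u, hu⟩ := hc U hU
    have hs' : (c2 s)ᶜ = Γ := by rw [hs, compl_compl]
    have h : cond (c2 s)ᶜ (c u) := by rw [hs', hu]; exact hrc
    have hA : A (Sum.inr (s, u)) = {p | p.1 ∈ c u ∧ p.2 ≠ p.1 ∧ p ∈ (c2 s)ᶜ ∧
            ∀ w, (p.1, w) ∈ (c2 s)ᶜ → w = p.2} := if_pos h
    obtain ⟨p, hp, hp1, hp2⟩ := hX (Sum.inr (s, u))
    rw [hA, hs', hu] at hp
    exact ⟨p.1, p.2, hp.1, hp.2.2.1, hp.2.2.2, hp1, hp2⟩

end Pool.Agent.Helper286.Unst
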