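import Pool.Agent.Helper286.Unst.P3
import Pool.Agent.Helper286.Unst.N4
import Pool.Agent.Helper286.Unst.Q4
import Pool.Agent.Helper286.Unst.R2

open Cardinal Set Topology

namespace Pool.Agent.Helper286.Unst

/-- TARGET -/
theorem final : ∃ (M : Type) (_ : MetricSpace M) (a : M),
    HomotopicallyUnstable M a ∧ ¬ CondH M a ∧ ¬ CondR M a := by
  obtain ⟨X, hX⟩ := exists_rigid
  obtain ⟨x, hx, -⟩ := hX.dense univ isOpen_univ univ_nonempty 0
  have hne : X.Nonempty := ⟨x, hx.2⟩
  have hv := InN_vertex X hne 2 le_rfl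
  have hcast : ((2 : ℕ) : ℝ) = 2 := by norm_num
  rw [hcast] at hv
  obtain ⟨h1, h2, h3, -⟩ := ell_props X
  have hs : SecondCountableTopology (NN X) :=
    TopologicalSpace.Subtype.secondCountableTopology {w : WW | InN X w}
  have hm : TopologicalSpace.MetrizableSpace (NN X) :=
    TopologicalSpace.metrizableSpace_of_t3_secondCountable _
  exact disproof_of (N := NN X) (fun ξ => ell ξ.1) h1 h2 h3
    ⟨(0, 0, Pi.single 2 1, (2 : ℝ), 0), hv⟩ (fun δ hδ => contract X _ rfl δ hδ)
    (not_nullhomotopic X hX _ rfl)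

end Pool.Agent.Helper286.Unst
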