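import Mathlib

open Set Topology

namespace Pool.Agent.Helper286.Unst

/-- TARGET -/
theorem exists_bounded_embedding (W : Type) [TopologicalSpace W] [TopologicalSpace.MetrizableSpace W]
    [SecondCountableTopology W] : ∃ b : W → (ℕ → ℝ), IsEmbedding b ∧ ∀ ξ i, |b ξ i| ≤ 1 := by
  rcases isEmpty_or_nonempty W with hW | hW
  · exact ⟨fun _ _ => 0, IsEmbedding.of_subsingleton _, fun ξ _ => (IsEmpty.false ξ).elim⟩
  letI : MetricSpace W := TopologicalSpace.metrizableSpaceMetric W
  let x : ℕ → W := TopologicalSpace.denseSeq W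
  have hx : DenseRange x := TopologicalSpace.denseRange_denseSeq W
  let b : W → (ℕ → ℝ) := fun ξ n => min (dist ξ (x n)) 1
  have hb0 : ∀ ξ n, 0 ≤ b ξ n := fun ξ n => le_min dist_nonneg zero_le_one
  have hcont : Continuous b :=
    continuous_pi fun n => (continuous_id.dist continuous_const).min continuous_const
  have key : ∀ (ξ : W) (ε : ℝ), 0 < ε → ε < 1 → ∃ n, ∀ ξ', |b ξ' n - b ξ n| < ε / 3 →
      dist ξ' ξ < ε := by
    intro ξ ε hε hε1
    obtain ⟨n, hn⟩ := hx.exists_dist_lt ξ (by linarith : 0 < ε / 3)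
    refine ⟨n, fun ξ' h => ?_⟩
    have h1 : b ξ n = dist ξ (x n) := min_eq_left (by linarith)
    rw [h1] at h
    have h2 : b ξ' n < 2 * ε / 3 := by
      have := (abs_lt.1 h).2
      linarith
    have h3 : dist ξ' (x n) < 2 * ε / 3 := by
      rcases min_lt_iff.1 h2 with h4 | h4
      · exact h4
      · linarith
    calc dist ξ' ξ ≤ dist ξ' (x n) + dist (x n) ξ := dist_triangle _ _ _
      _ < ε := by
        rw [dist_comm (x n) ξ]
        linarith
  refine ⟨b, ⟨?_, ?_⟩, ?_⟩
  · rw [isInducing_iff_nhds]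
    intro ξ
    apply le_antisymm
    · exact hcont.continuousAt.le_comap
    · intro U hU
      obtain ⟨ε, hε, hball⟩ := Metric.mem_nhds_iff.1 hU
      obtain ⟨n, hn⟩ := key ξ (min ε (1 / 2)) (lt_min hε (by norm_num))
        (lt_of_le_of_lt (min_le_right _ _) (by norm_num))
      have hm : 0 < min ε (1 / 2) := lt_min hε (by norm_num)
      rw [Filter.mem_comap]
      refine ⟨(fun f : ℕ → ℝ => f n) ⁻¹' (Metric.ball (b ξ n) (min ε (1 / 2) / 3)), ?_, ?_⟩
      · exact (continuous_apply n).continuousAt (Metric.ball_mem_nhds _ (by linarith))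
      · intro ξ' hξ'
        apply hball
        rw [Metric.mem_ball]
        refine lt_of_lt_of_le (hn ξ' ?_) (min_le_left _ _)
        have : dist (b ξ' n) (b ξ n) < min ε (1 / 2) / 3 := hξ'
        rwa [Real.dist_eq] at this
  · intro ξ ξ' h
    by_contra hne
    have hd : 0 < dist ξ ξ' := dist_pos.2 hne
    obtain ⟨n, hn⟩ := key ξ' (min (dist ξ ξ') (1 / 2)) (lt_min hd (by norm_num))
      (lt_of_le_of_lt (min_le_right _ _) (by norm_num))
    have hm : 0 < min (dist ξ ξ') (1 / 2) := lt_min hd (by norm_num)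
    have := hn ξ (by rw [h, sub_self, abs_zero]; linarith)
    exact absurd (lt_of_lt_of_le this (min_le_left _ _)) (lt_irrefl _)
  · intro ξ i
    rw [abs_of_nonneg (hb0 ξ i)]
    exact min_le_right _ _

end Pool.Agent.Helper286.Unst
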