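import Pool.Agent.Helper286.Unst.ConeDefs

open Set Topology

namespace Pool.Agent.Helper286.Unst

/-- TARGET -/
theorem exists_ang {N : Type} [TopologicalSpace N] (b : N → (ℕ → ℝ)) (hb : IsEmbedding b)
    (hb1 : ∀ ξ i, |b ξ i| ≤ 1) (ℓ : N → ℝ) (hℓ : Continuous ℓ) (hpos : ∀ ξ, 0 < ℓ ξ)
    (hle : ∀ ξ, ℓ ξ ≤ 1) [Nonempty N] :
    ∃ ang : ConeSet b ℓ → N, ContinuousOn ang {x | 0 < x.1.1} ∧
      (∀ x, 0 < x.1.1 → x.1 = (x.1.1, x.1.1 • b (ang x)) ∧ x.1.1 ≤ ℓ (ang x)) ∧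
      (∀ x ξ r, 0 < r → x.1 = (r, r • b ξ) → ang x = ξ) := by
  classical
  have hex : ∀ x : ConeSet b ℓ, ∃ ξ : N, x.1 = (x.1.1, x.1.1 • b ξ) ∧ x.1.1 ≤ ℓ ξ := by
    rintro ⟨x, ξ, r, h0, h1, rfl⟩
    exact ⟨ξ, rfl, h1⟩
  choose ang hang using hex
  have hval : ∀ x : ConeSet b ℓ, 0 < x.1.1 → b (ang x) = (x.1.1)⁻¹ • x.1.2 := by
    intro x hx
    have h := congrArg Prod.snd (hang x).1
    simp only at h
    rw [h, smul_smul, inv_mul_cancel₀ hx.ne', one_smul]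
  refine ⟨ang, ?_, fun x _ => hang x, ?_⟩
  · rw [hb.isInducing.continuousOn_iff]
    have : ContinuousOn (fun x : ConeSet b ℓ => (x.1.1)⁻¹ • x.1.2) {x | 0 < x.1.1} := by
      have h1 : ContinuousOn (fun x : ConeSet b ℓ => (x.1.1)⁻¹) {x | 0 < x.1.1} := by
        apply ContinuousOn.inv₀
        · exact (continuous_fst.comp continuous_subtype_val).continuousOn
        · intro x hx
          exact ne_of_gt hx
      have h2 : ContinuousOn (fun x : ConeSet b ℓ => x.1.2) {x | 0 < x.1.1} :=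
        (continuous_snd.comp continuous_subtype_val).continuousOn
      exact h1.smul h2
    exact this.congr (fun x hx => hval x hx)
  · intro x ξ r hr hx
    have hxr : x.1.1 = r := by rw [hx]
    have h1 := hval x (by rw [hxr]; exact hr)
    have h2 : x.1.2 = r • b ξ := by rw [hx]
    rw [hxr, h2, smul_smul, inv_mul_cancel₀ hr.ne', one_smul] at h1
    exact hb.injective h1

/-- TARGET -/
theorem apex_nhds {N : Type} [TopologicalSpace N] (b : N → (ℕ → ℝ)) (hb : IsEmbedding b)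
    (hb1 : ∀ ξ i, |b ξ i| ≤ 1) (ℓ : N → ℝ) (hℓ : Continuous ℓ) (hpos : ∀ ξ, 0 < ℓ ξ)
    (hle : ∀ ξ, ℓ ξ ≤ 1) (a : ConeSet b ℓ) (ha : a.1 = (0, 0))
    (O : Set (ConeSet b ℓ)) (hO : O ∈ 𝓝 a) :
    ∃ δ : ℝ, 0 < δ ∧ ∀ x : ConeSet b ℓ, x.1.1 < δ → x ∈ O := by
  have key : Filter.comap (fun x : ConeSet b ℓ => x.1.1) (𝓝 0) ≤ 𝓝 a := by
    have hT : Filter.Tendsto (fun x : ConeSet b ℓ => x.1.1)
        (Filter.comap (fun x : ConeSet b ℓ => x.1.1) (𝓝 0)) (𝓝 0) := Filter.tendsto_comap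
    have h2 : Filter.Tendsto (fun x : ConeSet b ℓ => x.1)
        (Filter.comap (fun x : ConeSet b ℓ => x.1.1) (𝓝 0)) (𝓝 a.1) := by
      rw [ha]
      apply Filter.Tendsto.prodMk_nhds hT
      rw [tendsto_pi_nhds]
      intro i
      refine squeeze_zero_norm (a := fun x : ConeSet b ℓ => x.1.1) ?_ hT
      rintro ⟨x, ξ, r, h0, h1, rfl⟩
      simp only [Pi.smul_apply, smul_eq_mul, Real.norm_eq_abs, abs_mul, abs_of_nonneg h0]
      have := mul_le_mul_of_nonneg_left (hb1 ξ i) h0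
      linarith
    rw [← Filter.tendsto_id']
    rw [nhds_subtype_eq_comap, Filter.tendsto_comap_iff]
    exact h2
  have hO' := key hO
  rw [Filter.mem_comap] at hO'
  obtain ⟨t, ht, hsub⟩ := hO'
  obtain ⟨δ, hδ, hball⟩ := Metric.mem_nhds_iff.1 ht
  refine ⟨δ, hδ, fun x hx => hsub ?_⟩
  apply hball
  rw [Metric.mem_ball, Real.dist_eq, sub_zero]
  obtain ⟨ξ, r, h0, h1, h2⟩ := x.2
  have : x.1.1 = r := by rw [h2]
  show |x.1.1| < δ
  rw [this] at hx ⊢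
  rwa [abs_of_nonneg h0]

end Pool.Agent.Helper286.Unst
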