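import Mathlib

open Cardinal Set Topology

namespace Pool.Agent.Helper286.Unst

/-- TARGET -/
theorem choice_lemma {α ι : Type} (κ : Cardinal) (hκ : ℵ₀ ≤ κ) (hι : #ι ≤ κ)
    (A : ι → Set (α × α))
    (hA : ∀ i, ∀ S : Set α, #S < κ → ∃ p ∈ A i, p.1 ≠ p.2 ∧ p.1 ∉ S ∧ p.2 ∉ S) :
    ∃ X : Set α, ∀ i, ∃ p ∈ A i, p.1 ∈ X ∧ p.2 ∉ X := by
  classical
  obtain ⟨_, _, hord⟩ := exists_ord_eq_type_lt ι
  have hcard : ∀ i : ι, #(Iio i) < κ := fun i => (mk_Iio_lt i hord).trans_le hι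
  have hne : ∀ i, ∃ p, p ∈ A i := fun i => by
    obtain ⟨p, hp, _⟩ := hA i ∅ (by rw [mk_emptyCollection]; exact aleph0_pos.trans_le hκ)
    exact ⟨p, hp⟩
  choose d hd using hne
  let SS : ∀ i : ι, (∀ j, j < i → α × α) → Set α := fun i f =>
    {a | ∃ j, ∃ h : j < i, a = (f j h).1 ∨ a = (f j h).2}
  let step : ∀ i : ι, (∀ j, j < i → α × α) → α × α := fun i f =>
    if h : ∃ q ∈ A i, q.1 ≠ q.2 ∧ q.1 ∉ SS i f ∧ q.2 ∉ SS i f then h.choose else d i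
  let p : ι → α × α := WellFoundedLT.fix (motive := fun _ : ι => α × α) step
  have hp : ∀ i, p i = step i (fun j _ => p j) := fun i =>
    WellFoundedLT.fix_eq (motive := fun _ : ι => α × α) step i
  have hS : ∀ i, #(SS i (fun j _ => p j)) < κ := by
    intro i
    have hsub : SS i (fun j _ => p j) ⊆
        (fun j => (p j).1) '' Iio i ∪ (fun j => (p j).2) '' Iio i := by
      rintro a ⟨j, hj, rfl | rfl⟩
      · exact Or.inl ⟨j, hj, rfl⟩
      · exact Or.inr ⟨j, hj, rfl⟩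
    refine (mk_le_mk_of_subset hsub).trans_lt ((mk_union_le _ _).trans_lt ?_)
    exact add_lt_of_lt hκ (mk_image_le.trans_lt (hcard i)) (mk_image_le.trans_lt (hcard i))
  have hspec : ∀ i, p i ∈ A i ∧ (p i).1 ≠ (p i).2 ∧ (p i).1 ∉ SS i (fun j _ => p j) ∧
      (p i).2 ∉ SS i (fun j _ => p j) := by
    intro i
    have h : ∃ q ∈ A i, q.1 ≠ q.2 ∧ q.1 ∉ SS i (fun j _ => p j) ∧
        q.2 ∉ SS i (fun j _ => p j) := hA i _ (hS i)
    have e : p i = h.choose := by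
      rw [hp i]
      exact dif_pos h
    rw [e]
    exact h.choose_spec
  refine ⟨range fun i => (p i).1, fun i => ⟨p i, (hspec i).1, ⟨i, rfl⟩, ?_⟩⟩
  rintro ⟨j, hj⟩
  have hj' : (p j).1 = (p i).2 := hj
  rcases lt_trichotomy j i with h | h | h
  · exact (hspec i).2.2.2 ⟨j, h, Or.inl hj'.symm⟩
  · subst h
    exact (hspec j).2.1 hj'
  · exact (hspec j).2.2.1 ⟨i, h, Or.inr hj'⟩

end Pool.Agent.Helper286.Unst
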