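import Pool.Agent.Helper286.Unst.Pt

open Cardinal Set Topology

namespace Pool.Agent.Helper286.Unst

/-- the parameter space has dimension at least two -/
theorem pdc_rank : 1 < Module.rank ℝ Pt := by
  by_contra hcon
  push Not at hcon
  have hf : Module.Finite ℝ Pt := by
    rw [← Module.rank_lt_aleph0_iff]
    exact hcon.trans_lt Cardinal.one_lt_aleph0
  have hfr : Module.finrank ℝ Pt ≤ 1 := by
    have := Module.finrank_eq_rank ℝ Pt
    have h2 : ((Module.finrank ℝ Pt : ℕ) : Cardinal) ≤ 1 := by rw [this]; exact hcon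
    exact_mod_cast h2
  have hli : LinearIndependent ℝ ![(Pi.single 0 1 : Pt), (Pi.single 1 1 : Pt)] := by
    rw [LinearIndependent.pair_iff]
    intro a b hab
    have h0 := congrFun hab 0
    have h1 := congrFun hab 1
    simp at h0 h1
    exact ⟨h0, h1⟩
  have h3 : Fintype.card (Fin 2) ≤ Module.finrank ℝ Pt := hli.fintype_card_le_finrank
  rw [Fintype.card_fin] at h3
  exact absurd (h3.trans hfr) (by norm_num)

/-- TARGET -/
theorem preconnected_diff_countable (U K : Set Pt) (hU : IsOpen U) (hc : Convex ℝ U)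
    (hK : K.Countable) : IsPreconnected (U \ K) := by
  apply isPreconnected_of_forall_pair
  intro a ha b hb
  rcases eq_or_ne a b with rfl | hab
  · exact ⟨{a}, by simpa using ha, rfl, rfl, isPreconnected_singleton⟩
  let c : Pt := (2 : ℝ)⁻¹ • (a + b)
  let x : Pt := (2 : ℝ)⁻¹ • (b - a)
  have Ia : c - x = a := by
    simp only [c, x]
    module
  have Ib : c + x = b := by
    simp only [c, x]
    module
  have x_ne_zero : x ≠ 0 := by simpa [x] using sub_ne_zero.2 hab.symm
  obtain ⟨y, hy⟩ : ∃ y, LinearIndependent ℝ ![x, y] :=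
    exists_linearIndependent_pair_of_one_lt_rank pdc_rank x_ne_zero
  have A : Set.Countable {t : ℝ | (segment ℝ (c + x) (c + t • y) ∩ K).Nonempty} := by
    apply countable_ofPred_nonempty_of_disjoint _ (fun t ↦ inter_subset_right) hK
    intro t t' htt'
    apply disjoint_iff_inter_eq_empty.2
    have N : {c + x} ∩ K = ∅ := by
      rw [singleton_inter_eq_empty, Ib]; exact hb.2
    rw [inter_assoc, inter_comm K, inter_assoc, inter_self, ← inter_assoc, ← subset_empty_iff, ← N]
    apply inter_subset_inter_left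
    apply Eq.subset
    apply segment_inter_eq_endpoint_of_linearIndependent_of_ne hy htt'.symm
  have B : Set.Countable {t : ℝ | (segment ℝ (c - x) (c + t • y) ∩ K).Nonempty} := by
    apply countable_ofPred_nonempty_of_disjoint _ (fun t ↦ inter_subset_right) hK
    intro t t' htt'
    apply disjoint_iff_inter_eq_empty.2
    have N : {c - x} ∩ K = ∅ := by
      rw [singleton_inter_eq_empty, Ia]; exact ha.2
    rw [inter_assoc, inter_comm K, inter_assoc, inter_self, ← inter_assoc, ← subset_empty_iff, ← N]
    apply inter_subset_inter_left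
    rw [sub_eq_add_neg _ x]
    apply Eq.subset
    apply segment_inter_eq_endpoint_of_linearIndependent_of_ne _ htt'.symm
    convert! hy.units_smul ![-1, 1]
    simp [← List.ofFn_inj]
  have hcU : c ∈ U := by
    have := hc ha.1 hb.1 (by norm_num : (0 : ℝ) ≤ 2⁻¹) (by norm_num : (0 : ℝ) ≤ 2⁻¹)
      (by norm_num)
    simpa [c, smul_add] using this
  have hopen : IsOpen {t : ℝ | c + t • y ∈ U} := by
    apply hU.preimage
    fun_prop
  have hne : {t : ℝ | c + t • y ∈ U}.Nonempty := ⟨0, by simpa using hcU⟩
  obtain ⟨t, htU, ht⟩ : ({t : ℝ | c + t • y ∈ U} ∩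
      ({t : ℝ | (segment ℝ (c + x) (c + t • y) ∩ K).Nonempty}
      ∪ {t : ℝ | (segment ℝ (c - x) (c + t • y) ∩ K).Nonempty})ᶜ).Nonempty :=
    ((A.union B).dense_compl ℝ).inter_open_nonempty _ hopen hne
  have htU' : c + t • y ∈ U := htU
  simp only [compl_union, mem_inter_iff, mem_compl_iff, mem_ofPred_eq, not_nonempty_iff_eq_empty]
    at ht
  rw [Ia, Ib] at ht
  refine ⟨segment ℝ a (c + t • y) ∪ segment ℝ b (c + t • y), ?_, Or.inl (left_mem_segment ℝ _ _),
    Or.inr (left_mem_segment ℝ _ _), ?_⟩
  · rintro z (hz | hz)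
    · refine ⟨hc.segment_subset ha.1 htU' hz, fun hzK => ?_⟩
      have : z ∈ segment ℝ a (c + t • y) ∩ K := ⟨hz, hzK⟩
      rw [ht.2] at this
      exact this
    · refine ⟨hc.segment_subset hb.1 htU' hz, fun hzK => ?_⟩
      have : z ∈ segment ℝ b (c + t • y) ∩ K := ⟨hz, hzK⟩
      rw [ht.1] at this
      exact this
  · apply IsPreconnected.union (c + t • y) (right_mem_segment ℝ _ _) (right_mem_segment ℝ _ _)
    · exact (convex_segment _ _).isPreconnected
    · exact (convex_segment _ _).isPreconnected

end Pool.Agent.Helper286.Unst
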