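import Pool.Agent.Helper286.Unst.RigDefs

open Cardinal Set Topology

namespace Pool.Agent.Helper286.Unst

theorem Rigid.aux_Icc {a b : ℝ} (h : a < b) : ¬ (Icc a b).Countable := by
  intro hc
  have h1 := Cardinal.le_aleph0_iff_set_countable.2 hc
  rw [Cardinal.mk_Icc_real h] at h1
  exact absurd h1 (not_le.2 Cardinal.aleph0_lt_continuum)

/-- TARGET -/
theorem Rigid.countable {X : Set Pt} (hX : Rigid X) (F : Set Pt) (hF : IsClosed F)
    (h : Disjoint F X) : F.Countable := by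
  by_contra hc
  obtain ⟨⟨x, hx1, hx2⟩, -⟩ := hX.meet F hF hc
  exact Set.disjoint_left.1 h hx1 hx2

/-- TARGET -/
theorem Rigid.dense {X : Set Pt} (hX : Rigid X) (U : Set Pt) (hU : IsOpen U)
    (hne : U.Nonempty) (κ : Pt) : ∃ x ∈ U ∩ X, x ≠ κ := by
  obtain ⟨p, hp⟩ := hne
  set L : ℝ → Pt := fun s => Function.update p 0 (p 0 + s) with hL
  have hLc : Continuous L := by
    rw [hL]
    apply Continuous.update continuous_const
    exact continuous_const.add continuous_id
  have hL0 : ∀ s, L s 0 = p 0 + s := fun s => by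
    rw [hL]; simp
  have hLinj : Function.Injective L := by
    intro s t hst
    have := congrFun hst 0
    rw [hL0, hL0] at this
    linarith
  have hLp : L 0 = p := by
    rw [hL]; simp
  have hmem : L ⁻¹' U ∈ 𝓝 (0 : ℝ) := by
    apply hLc.continuousAt
    rw [hLp]
    exact hU.mem_nhds hp
  obtain ⟨δ, hδ, hsub⟩ := Metric.mem_nhds_iff.1 hmem
  have key : ∀ a b : ℝ, 0 ≤ a → a < b → b < δ → ∃ s ∈ Icc a b, L s ∈ U ∩ X := by
    intro a b ha hab hb
    have hcl : IsClosed (L '' Icc a b) := (isCompact_Icc.image hLc).isClosed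
    have hunc : ¬ (L '' Icc a b).Countable := by
      intro hc
      exact Rigid.aux_Icc hab (Set.countable_of_injective_of_countable_image hLinj.injOn hc)
    obtain ⟨⟨x, ⟨s, hs, rfl⟩, hx⟩, -⟩ := hX.meet _ hcl hunc
    refine ⟨s, hs, ?_, hx⟩
    apply hsub
    rw [Metric.mem_ball, Real.dist_eq, sub_zero, abs_of_nonneg (ha.trans hs.1)]
    linarith [hs.2]
  obtain ⟨s, hs, hs'⟩ := key 0 (δ / 4) le_rfl (by positivity) (by linarith)
  obtain ⟨t, ht, ht'⟩ := key (δ / 2) (3 * δ / 4) (by positivity) (by linarith) (by linarith)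
  by_cases h : L s = κ
  · refine ⟨L t, ht', ?_⟩
    rw [← h]
    intro h2
    have := hLinj h2
    linarith [hs.2, ht.1]
  · exact ⟨L s, hs', h⟩

/-- TARGET -/
theorem Rigid.path {X : Set Pt} (hX : Rigid X) (γ : ℝ → Pt) (a b : ℝ)
    (hγ : ContinuousOn γ (Icc a b)) (hm : ∀ t ∈ Icc a b, γ t ∈ X) :
    ∀ s ∈ Icc a b, ∀ t ∈ Icc a b, γ s = γ t := by
  intro s hs t ht
  by_contra hne
  have hsub : uIcc s t ⊆ Icc a b := by
    intro u hu
    rw [Set.mem_uIcc] at hu
    rcases hu with hu | hu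
    · exact ⟨hs.1.trans hu.1, hu.2.trans ht.2⟩
    · exact ⟨ht.1.trans hu.1, hu.2.trans hs.2⟩
  have hc : ContinuousOn γ (uIcc s t) := hγ.mono hsub
  have hcl : IsClosed (γ '' uIcc s t) := (isCompact_uIcc.image_of_continuousOn hc).isClosed
  obtain ⟨i, hi⟩ : ∃ i, γ s i ≠ γ t i := by
    by_contra hcon
    push Not at hcon
    exact hne (funext hcon)
  have hunc : ¬ (γ '' uIcc s t).Countable := by
    intro hcc
    have h1 : ((fun p : Pt => p i) '' (γ '' uIcc s t)).Countable := hcc.image _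
    have h2 : uIcc (γ s i) (γ t i) ⊆ (fun p : Pt => p i) '' (γ '' uIcc s t) := by
      have h3 : ContinuousOn (fun u => γ u i) (uIcc s t) :=
        (continuous_apply i).comp_continuousOn hc
      have h4 := intermediate_value_uIcc h3
      intro y hy
      obtain ⟨u, hu, hu'⟩ := h4 hy
      exact ⟨γ u, ⟨u, hu, rfl⟩, hu'⟩
    have h5 := h1.mono h2
    rw [Set.uIcc] at h5
    exact Rigid.aux_Icc (min_lt_max.2 hi) h5
  obtain ⟨-, x, ⟨u, hu, rfl⟩, hx⟩ := hX.meet _ hcl hunc
  exact hx (hm u (hsub hu))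

end Pool.Agent.Helper286.Unst
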