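import Pool.Agent.Helper286.Unst.R3
import Pool.Agent.Helper286.Unst.R4

open Cardinal Set Topology

namespace Pool.Agent.Helper286.Unst

/-- TARGET -/
theorem Rigid.conn {X : Set Pt} (hX : Rigid X) (U : Set Pt) (hU : IsOpen U)
    (hc : Convex ℝ U) (κ : Pt) : IsPreconnected ((U ∩ X) \ {κ}) := by
  intro A B hA hB hAB hDA hDB
  by_contra hne
  have hdisj : ∀ x, x ∈ U → x ∈ A → x ∈ B → False := by
    intro x hxU hxA hxB
    obtain ⟨y, hy, hyκ⟩ := hX.dense (U ∩ (A ∩ B)) (hU.inter (hA.inter hB))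
      ⟨x, hxU, hxA, hxB⟩ κ
    exact hne ⟨y, ⟨⟨hy.1.1, hy.2⟩, hyκ⟩, hy.1.2⟩
  have hV : IsOpen (U \ {κ}) := hU.sdiff isClosed_singleton
  letI : MetricSpace Pt := TopologicalSpace.metrizableSpaceMetric Pt
  obtain ⟨F, hFc, hFU, hFV, _⟩ := IsOpen.exists_iUnion_isClosed hV
  have hcount : ∀ n, (F n ∩ (A ∪ B)ᶜ).Countable := by
    intro n
    apply hX.countable _ ((hFc n).inter (hA.union hB).isClosed_compl)
    rw [Set.disjoint_left]
    intro x hx hxX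
    have hxV := hFU n hx.1
    exact hx.2 (hAB ⟨⟨hxV.1, hxX⟩, hxV.2⟩)
  have hK : (U \ (A ∪ B)).Countable := by
    apply Set.Countable.mono (s₂ := {κ} ∪ ⋃ n, (F n ∩ (A ∪ B)ᶜ))
    · intro x hx
      by_cases hxκ : x = κ
      · left; exact hxκ
      · right
        have : x ∈ ⋃ n, F n := by rw [hFV]; exact ⟨hx.1, hxκ⟩
        obtain ⟨n, hn⟩ := mem_iUnion.1 this
        exact mem_iUnion.2 ⟨n, hn, hx.2⟩
    · exact (countable_singleton κ).union (countable_iUnion hcount)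
  have hpre := preconnected_diff_countable U _ hU hc hK
  have hsub : U \ (U \ (A ∪ B)) ⊆ A ∪ B := by
    intro x hx
    by_contra hcon
    exact hx.2 ⟨hx.1, hcon⟩
  obtain ⟨a, haD, haA⟩ := hDA
  obtain ⟨b, hbD, hbB⟩ := hDB
  obtain ⟨x, hx, hxA, hxB⟩ := hpre A B hA hB hsub
    ⟨a, ⟨haD.1.1, fun h => h.2 (Or.inl haA)⟩, haA⟩
    ⟨b, ⟨hbD.1.1, fun h => h.2 (Or.inr hbB)⟩, hbB⟩
  exact hdisj x hx.1 hxA hxB

/-- TARGET -/
theorem Rigid.conn2 {X : Set Pt} (hX : Rigid X) (U : Set Pt) (hU : IsOpen U)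
    (hc : Convex ℝ U) : IsPreconnected (U ∩ X) := by
  have h := hX.conn U hU hc 0
  refine h.subset_closure diff_subset ?_
  intro x hx
  rw [mem_closure_iff]
  intro o ho hxo
  obtain ⟨y, hy, hy0⟩ := hX.dense (o ∩ U) (ho.inter hU) ⟨x, hxo, hx.1⟩ 0
  exact ⟨y, hy.1.1, ⟨hy.1.2, hy.2⟩, hy0⟩

end Pool.Agent.Helper286.Unst
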