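import Pool.Agent.Helper286.Unst.R5

open Cardinal Set Topology

namespace Pool.Agent.Helper286.Unst

/-- TARGET -/
theorem Rigid.rig {X : Set Pt} (hX : Rigid X) (U : Set Pt) (hU : IsOpen U)
    (hc : Convex ℝ U) (g : Pt → Pt) (hg : ContinuousOn g (U ∩ X)) (hm : MapsTo g (U ∩ X) X)
    (hne : ∀ x ∈ U ∩ X, g x ≠ x) : ∀ x ∈ U ∩ X, ∀ y ∈ U ∩ X, g x = g y := by
  intro x0 hx0 y0 hy0
  by_contra hxy
  obtain ⟨i, hi⟩ : ∃ i, g x0 i ≠ g y0 i := by
    by_contra hcon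
    push Not at hcon
    exact hxy (funext hcon)
  set Gr : Set (Pt × Pt) := {p | p.1 ∈ U ∩ X ∧ p.2 = g p.1} with hGr
  have huniq : ∀ x ∈ U ∩ X, ∀ w, (x, w) ∈ closure Gr → w = g x := by
    intro x hx w hw
    haveI := mem_closure_iff_nhdsWithin_neBot.mp hw
    have h1 : Filter.Tendsto (Prod.fst : Pt × Pt → Pt) (𝓝[Gr] (x, w)) (𝓝[U ∩ X] x) := by
      apply tendsto_nhdsWithin_iff.2
      refine ⟨(continuous_fst.tendsto (x, w)).mono_left nhdsWithin_le_nhds, ?_⟩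
      filter_upwards [self_mem_nhdsWithin] with p hp using hp.1
    have h2 : Filter.Tendsto (fun p : Pt × Pt => g p.1) (𝓝[Gr] (x, w)) (𝓝 (g x)) :=
      (hg x hx).tendsto.comp h1
    have h3 : Filter.Tendsto (Prod.snd : Pt × Pt → Pt) (𝓝[Gr] (x, w)) (𝓝 w) :=
      (continuous_snd.tendsto (x, w)).mono_left nhdsWithin_le_nhds
    have h4 : Filter.Tendsto (Prod.snd : Pt × Pt → Pt) (𝓝[Gr] (x, w)) (𝓝 (g x)) := by
      refine h2.congr' ?_
      filter_upwards [self_mem_nhdsWithin] with p hp using hp.2.symm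
    exact tendsto_nhds_unique h3 h4
  have hpre : IsPreconnected ((fun x => g x i) '' (U ∩ X)) := by
    refine (hX.conn2 U hU hc).image _ ?_
    exact (continuous_apply i).comp_continuousOn hg
  have hsub : uIcc (g x0 i) (g y0 i) ⊆ (fun x => g x i) '' (U ∩ X) :=
    hpre.ordConnected.uIcc_subset ⟨x0, hx0, rfl⟩ ⟨y0, hy0, rfl⟩
  obtain ⟨x, v, hxU, hxv, -, hxX, hvX⟩ := hX.graph (closure Gr) U isClosed_closure hU (by
    intro S hS
    have h1 : ∃ x ∈ U ∩ X, x ∉ S ∧ g x ∉ S := by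
      by_contra hcon
      push Not at hcon
      have h2 : uIcc (g x0 i) (g y0 i) ⊆ (fun s : Pt => g s i) '' S ∪ (fun s : Pt => s i) '' S := by
        intro r hr
        obtain ⟨x, hx, hxr⟩ := hsub hr
        by_cases hxS : x ∈ S
        · exact Or.inl ⟨x, hxS, hxr⟩
        · exact Or.inr ⟨g x, hcon x hx hxS, hxr⟩
      have h3 : #(uIcc (g x0 i) (g y0 i)) = 𝔠 := by
        unfold uIcc
        exact Cardinal.mk_Icc_real (min_lt_max.mpr hi)
      have h4 : #(uIcc (g x0 i) (g y0 i)) < 𝔠 := by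
        refine ((Cardinal.mk_le_mk_of_subset h2).trans (Cardinal.mk_union_le _ _)).trans_lt ?_
        exact Cardinal.add_lt_of_lt Cardinal.aleph0_le_continuum
          (Cardinal.mk_image_le.trans_lt hS) (Cardinal.mk_image_le.trans_lt hS)
      rw [h3] at h4
      exact lt_irrefl _ h4
    obtain ⟨x, hx, hxS, hgS⟩ := h1
    exact ⟨x, g x, hx.1, hne x hx, subset_closure ⟨hx, rfl⟩, huniq x hx, hxS, hgS⟩)
  have h5 := huniq x ⟨hxU, hxX⟩ v hxv
  apply hvX
  rw [h5]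
  exact hm ⟨hxU, hxX⟩

end Pool.Agent.Helper286.Unst
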