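import Pool.Agent.Helper286.Unst.R6

open Cardinal Set Topology

namespace Pool.Agent.Helper286.Unst

/-- TARGET -/
theorem Rigid.dich {X : Set Pt} (hX : Rigid X) (U : Set Pt) (hU : IsOpen U)
    (hc : Convex ℝ U) (g : Pt → Pt) (hg : ContinuousOn g (U ∩ X)) (hm : MapsTo g (U ∩ X) X) :
    (∀ x ∈ U ∩ X, g x = x) ∨ ∃ κ, ∀ x ∈ U ∩ X, g x = κ := by
  by_cases hid : ∀ x ∈ U ∩ X, g x = x
  · exact Or.inl hid
  right
  push Not at hid
  obtain ⟨x1, hx1, hne1⟩ := hid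
  refine ⟨g x1, ?_⟩
  obtain ⟨κ, hκ⟩ : ∃ κ, κ = g x1 := ⟨_, rfl⟩
  rw [← hκ] at hne1 ⊢
  have hpre : IsPreconnected ((U ∩ X) \ {κ}) := hX.conn U hU hc κ
  have hx1D : x1 ∈ (U ∩ X) \ {κ} := ⟨hx1, fun h => hne1 (by rw [Set.mem_singleton_iff] at h; exact h.symm)⟩
  have hD : ∀ x ∈ (U ∩ X) \ {κ}, g x = κ := by
    have hps : PreconnectedSpace ((U ∩ X) \ {κ} : Set Pt) :=
      isPreconnected_iff_preconnectedSpace.1 hpre
    set W : Set ((U ∩ X) \ {κ} : Set Pt) := {x | g x = κ} with hW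
    have hcl : IsClosed W := by
      have h1 : Continuous (((U ∩ X) \ {κ}).domRestrict g) :=
        continuousOn_iff_continuous_domRestrict.1 (hg.mono (fun x hx => hx.1))
      have h2 : W = (((U ∩ X) \ {κ}).domRestrict g) ⁻¹' {κ} := by
        ext x
        rfl
      rw [h2]
      exact isClosed_singleton.preimage h1
    have hop : IsOpen W := by
      rw [isOpen_iff_mem_nhds]
      rintro ⟨x, hx⟩ hxW
      have hxg : g x = κ := hxW
      have hxne : x ≠ κ := fun h => hx.2 (by rw [Set.mem_singleton_iff]; exact h)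
      have hcont : Filter.Tendsto g (𝓝[U ∩ X] x) (𝓝 κ) := by
        have := hg x hx.1
        unfold ContinuousWithinAt at this
        rwa [hxg] at this
      have hidt : Filter.Tendsto (fun y : Pt => y) (𝓝[U ∩ X] x) (𝓝 x) :=
        Filter.tendsto_id.mono_left nhdsWithin_le_nhds
      have hev : ∀ᶠ y in 𝓝[U ∩ X] x, g y ≠ y := by
        have h10 := (hcont.sub hidt).eventually_ne (sub_ne_zero.2 hxne.symm)
        filter_upwards [h10] with y hy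
        exact sub_ne_zero.1 hy
      rw [Filter.Eventually, mem_nhdsWithin] at hev
      obtain ⟨O, hO, hxO, hO'⟩ := hev
      have hN : O ∩ U ∩ {κ}ᶜ ∈ 𝓝 x :=
        ((hO.inter hU).inter isOpen_compl_singleton).mem_nhds ⟨⟨hxO, hx.1.1⟩, hxne⟩
      obtain ⟨V, ⟨hV, hVc⟩, hVN⟩ := (LocallyConvexSpace.convex_basis (𝕜 := ℝ) x).mem_iff.1 hN
      have hVN' : V ⊆ O ∩ U ∩ {κ}ᶜ := hVN
      have hsub : interior V ⊆ O ∩ U ∩ {κ}ᶜ := interior_subset.trans hVN'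
      have hrig := hX.rig (interior V) isOpen_interior hVc.interior g
        (hg.mono (fun y hy => ⟨(hsub hy.1).1.2, hy.2⟩))
        (fun y hy => hm ⟨(hsub hy.1).1.2, hy.2⟩)
        (fun y hy => hO' ⟨(hsub hy.1).1.1, (hsub hy.1).1.2, hy.2⟩)
      have hxV : x ∈ interior V := mem_interior_iff_mem_nhds.2 hV
      have h3 : (Subtype.val : ((U ∩ X) \ {κ} : Set Pt) → Pt) ⁻¹' (interior V) ∈
          𝓝 (⟨x, hx⟩ : ((U ∩ X) \ {κ} : Set Pt)) :=
        (isOpen_interior.preimage continuous_subtype_val).mem_nhds hxV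
      refine Filter.mem_of_superset h3 ?_
      rintro ⟨y, hy⟩ hyV
      have h4 : y ∈ interior V := hyV
      show g y = κ
      rw [← hxg]
      exact hrig y ⟨h4, hy.1.2⟩ x ⟨hxV, hx.1.2⟩
    have huniv : W = Set.univ := IsClopen.eq_univ ⟨hcl, hop⟩ ⟨⟨x1, hx1D⟩, hκ.symm⟩
    intro x hx
    have : (⟨x, hx⟩ : ((U ∩ X) \ {κ} : Set Pt)) ∈ W := by rw [huniv]; trivial
    exact this
  intro x hx
  by_cases hxκ : x = κ
  · by_contra hgx
    have hcont : Filter.Tendsto g (𝓝[U ∩ X] x) (𝓝 (g x)) := hg x hx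
    have hev : ∀ᶠ y in 𝓝[U ∩ X] x, g y ≠ κ := hcont.eventually_ne hgx
    rw [Filter.Eventually, mem_nhdsWithin] at hev
    obtain ⟨O, hO, hxO, hO'⟩ := hev
    obtain ⟨y, ⟨⟨hyO, hyU⟩, hyX⟩, hyκ⟩ := hX.dense (O ∩ U) (hO.inter hU) ⟨x, hxO, hx.1⟩ κ
    exact hO' ⟨hyO, hyU, hyX⟩ (hD y ⟨⟨hyU, hyX⟩, hyκ⟩)
  · exact hD x ⟨hx, hxκ⟩

end Pool.Agent.Helper286.Unst
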